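import Pool.Agent.MP_48470b_gt.Sph.S5c

/-! The bootstrap: all Sobolev norms of the iteration stay bounded, and the limit is smooth. -/

noncomputable section

namespace Pool.Agent.MP_48470b_gt.Sph.S5

open Pool.Agent.MP_48470b_gt.Sph Filter Topology

/-- the data of a quasilinear iteration -/
structure Iter (u : ℕ → R) (Pp : Set (ℕ → R)) (A : Fin 3 → Fin 3 → R)
    (b : Fin 3 → Fin 3 → ℕ → R) (c c1 : ℕ → R) (θ : ℝ) : Prop where
  cl : Cl u Pp
  symm : ∀ i j, A i j = A j i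
  pos : ∀ (x : S3) (ξ : Fin 3 → ℝ), ξ ≠ 0 → 0 < ∑ i, ∑ j, A i j x * ξ i * ξ j
  hb : ∀ i j, b i j ∈ Pp
  hc : c ∈ Pp
  hc1 : c1 ∈ Pp
  eqn : ∀ n, ∑ i, ∑ j, A i j * E i (E j (u (n + 1))) + c1 (n + 1) =
    ∑ i, ∑ j, b i j n * E i (E j (u n)) + c n
  th0 : 0 ≤ θ
  th1 : θ < 1
  small : ∀ (n : ℕ) (x : S3) (ξ : Fin 3 → Fin 3 → ℝ), (∑ i, ∑ j, b i j n x * ξ i j) ^ 2 ≤
    θ ^ 2 * ∑ i, ∑ j, ∑ k, ∑ l, A i k x * A j l x * ξ i j * ξ k l

variable {u : ℕ → R} {Pp : Set (ℕ → R)} {A : Fin 3 → Fin 3 → R} {b : Fin 3 → Fin 3 → ℕ → R}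
  {c c1 : ℕ → R} {θ : ℝ}

theorem unif {ι : Type*} [Finite ι] {φ : ι → ℕ → ℝ} (h : ∀ i, ∃ C, ∀ n, φ i n ≤ C) :
    ∃ C, ∀ i n, φ i n ≤ C := by
  choose C hC using h
  obtain ⟨D, hD⟩ := (Set.finite_range C).bddAbove
  exact ⟨D, fun i n => (hC i n).trans (hD ⟨i, rfl⟩)⟩

theorem rec_bdd {y : ℕ → ℝ} {θ D : ℝ} (h0 : 0 ≤ θ) (h1 : θ < 1)
    (h : ∀ n, y (n + 1) ≤ θ * y n + (1 - θ) / 4 * y n + (1 - θ) / 2 * y (n + 1) + D) :
    ∃ B, ∀ n, y n ≤ B := by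
  refine ⟨max (y 0) (4 * D / (1 - θ)), fun n => ?_⟩
  induction n with
  | zero => exact le_max_left _ _
  | succ n ih =>
    have h2 := le_max_right (y 0) (4 * D / (1 - θ))
    generalize max (y 0) (4 * D / (1 - θ)) = B at ih h2 ⊢
    rw [div_le_iff₀ (by linarith)] at h2
    have h3 := h n
    have h4 : (1 + 3 * θ) / 4 * y n ≤ (1 + 3 * θ) / 4 * B :=
      mul_le_mul_of_nonneg_left ih (by positivity)
    refine le_of_mul_le_mul_left (a := (1 + θ) / 2) ?_ (by positivity)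
    nlinarith

theorem sqrt_le_aux {N a X K η : ℝ} (ha : 0 ≤ a) (hX : 0 ≤ X) (hK : 0 ≤ K) (hη : 0 < η)
    (h : N ≤ a ^ 2 + K * X) : √N ≤ a + η * X + K / η := by
  refine Real.sqrt_le_iff.2 ⟨by positivity, h.trans ?_⟩
  have e : K * X = (η * X) * (K / η) := by field_simp
  have h1 : 0 ≤ η * X := by positivity
  have h2 : 0 ≤ K / η := by positivity
  rw [e]
  nlinarith [mul_nonneg ha h1, mul_nonneg ha h2, mul_nonneg h1 h2, sq_nonneg (η * X),
    sq_nonneg (K / η)]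

theorem Iter.step (H : Iter u Pp A b c c1 θ) (hI : Ibp) (hB : Brk) (hS : SupEta) {l : ℕ} {M : ℝ}
    (hk : ∀ n, P (l + 3) (u n) ≤ M) : ∃ M', ∀ n, P (l + 4) (u n) ≤ M' := by
  obtain ⟨K, hK0, hK⟩ := Nq_low H.symm H.pos
  obtain ⟨Ce, hCe0, hCe⟩ := ell hI hB H.symm
  let z : List.Vector (Fin 3) (l + 2) → ℕ → ℝ := fun J n => √(I (Nq A (W J.1 (u n))))
  let y : ℕ → ℝ := fun n => ⨆ J, z J n
  have hzy : ∀ J n, z J n ≤ y n := fun J n =>
    le_ciSup (f := fun J => z J n) (Set.finite_range _).bddAbove J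
  have hy0 : ∀ n, 0 ≤ y n := fun n => (Real.sqrt_nonneg _).trans (hzy default n)
  let X : ℕ → ℝ := fun n => √(P (l + 4) (u n))
  have hX0 : ∀ n, 0 ≤ X n := fun n => Real.sqrt_nonneg _
  have hP : ∀ n, P (l + 4) (u n) ≤ 4 ^ (l + 4) * (K * y n + √M) ^ 2 := fun n => by
    refine P_le_of_words _ _ _ fun J hJ => pow_le_pow_left₀ (norm_nonneg _) ?_ 2
    have h1 := mul_nonneg hK0.le (hy0 n)
    rcases hJ.eq_or_lt with e | e
    · obtain _ | ⟨a, _ | ⟨a', J⟩⟩ := J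
      · simp at e
      · simp at e
      · simp only [List.length_cons] at e
        have h2 := (hK (W J (u n)) a a').trans
          (mul_le_mul_of_nonneg_left (hzy ⟨J, by omega⟩ n) hK0.le)
        exact h2.trans (le_add_of_nonneg_right (Real.sqrt_nonneg _))
    · exact ((W_le (k := l + 3) (by omega) _).trans (Real.sqrt_le_sqrt (hk n))).trans
        (le_add_of_nonneg_left h1)
  have hX : ∀ n, X n ≤ 2 ^ (l + 4) * (K * y n + √M) := fun n => by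
    have h1 := mul_nonneg hK0.le (hy0 n)
    refine Real.sqrt_le_iff.2 ⟨by positivity, (hP n).trans (le_of_eq ?_)⟩
    rw [mul_pow, ← pow_mul, mul_comm (l + 4) 2, pow_mul]; norm_num
  have hθ : 0 < 1 - θ := by linarith [H.th1]
  obtain ⟨η, hη, hηK⟩ : ∃ η : ℝ, 0 < η ∧ η * (2 ^ (l + 4) * K) = (1 - θ) / 4 :=
    ⟨(1 - θ) / 4 / (2 ^ (l + 4) * K), by positivity, by field_simp⟩
  have hηX : ∀ n, η * X n ≤ (1 - θ) / 4 * y n + η * (2 ^ (l + 4) * √M) := fun n => by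
    refine (mul_le_mul_of_nonneg_left (hX n) hη.le).trans (le_of_eq ?_)
    rw [← hηK]; ring
  obtain ⟨D, hD⟩ : ∃ D, ∀ (J : List.Vector (Fin 3) (l + 2)) n,
      z J (n + 1) - (θ * y n + η * X n + 2 * (η * X (n + 1))) ≤ D := by
    refine unif fun J => ?_
    obtain ⟨C1, h1⟩ := rem_small H.cl hI hB hS hk (b := fun i j _ => A i j)
      (fun i j => H.cl.const _) H.hc1 J.2 η hη
    obtain ⟨C2, h2⟩ := rem_small H.cl hI hB hS hk H.hb H.hc J.2 η hη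
    refine ⟨C1 + C2 + Ce * √M / η, fun n => ?_⟩
    have h3 := h1 (n + 1)
    have h4 := h2 n
    have h5 := (Nq_up H.th0 (H.small n) (W J.1 (u n))).trans
      (mul_le_mul_of_nonneg_left (hzy J n) H.th0)
    simp only [H.eqn n] at h3
    have h6 := hCe (W J.1 (u (n + 1)))
    have h7 : √(P 1 (W J.1 (u (n + 1)))) ≤ √M := Real.sqrt_le_sqrt
      (((P_W_le _ 1 _).trans (P_mono (by rw [J.2]; omega) _)).trans (hk _))
    have h8 : √(P 2 (W J.1 (u (n + 1)))) ≤ X (n + 1) := Real.sqrt_le_sqrt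
      ((P_W_le _ 2 _).trans (P_mono (by rw [J.2]; omega) _))
    have h9 := sqrt_le_aux (norm_nonneg _) (hX0 (n + 1)) (K := Ce * √M) (by positivity) hη
      (h6.trans (add_le_add le_rfl (by
        rw [mul_assoc]
        exact mul_le_mul_of_nonneg_left (mul_le_mul h7 h8 (Real.sqrt_nonneg _)
          (Real.sqrt_nonneg _)) hCe0)))
    have h10 : ∀ p q r : R, ‖p‖ ≤ ‖q‖ + ‖r - p‖ + ‖r - q‖ := fun p q r => by
      have e : p = q - (r - p) + (r - q) := by ring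
      calc ‖p‖ = ‖q - (r - p) + (r - q)‖ := by rw [← e]
        _ ≤ ‖q - (r - p)‖ + ‖r - q‖ := norm_add_le _ _
        _ ≤ _ := add_le_add (norm_sub_le _ _) le_rfl
    have h11 := h10 (∑ i, ∑ j, A i j * E i (E j (W J.1 (u (n + 1)))))
      (∑ i, ∑ j, b i j n * E i (E j (W J.1 (u n))))
      (W J.1 (∑ i, ∑ j, b i j n * E i (E j (u n)) + c n))
    simp only [z, X] at *
    linarith
  obtain ⟨B, hB'⟩ := rec_bdd (y := y) (D := D + 3 * (η * (2 ^ (l + 4) * √M))) H.th0 H.th1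
    fun n => by
      refine ciSup_le fun J => ?_
      linarith [hD J n, hηX n, hηX (n + 1)]
  refine ⟨4 ^ (l + 4) * (K * B + √M) ^ 2, fun n => (hP n).trans ?_⟩
  have h1 := mul_nonneg hK0.le (hy0 n)
  have h2 := mul_le_mul_of_nonneg_left (hB' n) hK0.le
  gcongr

theorem Iter.all (H : Iter u Pp A b c c1 θ) (hI : Ibp) (hB : Brk) (hS : SupEta)
    (h3 : ∃ M, ∀ n, P 3 (u n) ≤ M) (k : ℕ) : ∃ M, ∀ n, P k (u n) ≤ M := by
  have h : ∀ l, ∃ M, ∀ n, P (l + 3) (u n) ≤ M := fun l => by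
    induction l with
    | zero => exact h3
    | succ l ih => obtain ⟨M, hM⟩ := ih; exact H.step hI hB hS hM
  obtain ⟨M, hM⟩ := h k
  exact ⟨M, fun n => (P_mono (by omega) _).trans (hM n)⟩

/-- compactness of sequences that are bounded in all norms -/
def Lim : Prop := ∀ (w : ℕ → R), (∀ k, ∃ M, ∀ n, P k (w n) ≤ M) → ∀ U : Ultrafilter ℕ,
  ∃ w0 : R, ∀ J : List (Fin 3),
    TendstoUniformly (fun n => (W J (w n) : S3 → ℝ)) (W J w0 : S3 → ℝ) U

theorem tendsto_of_unif {w : ℕ → R} {w0 : R} {l : Filter ℕ}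
    (h : TendstoUniformly (fun n => (w n : S3 → ℝ)) (w0 : S3 → ℝ) l) : Tendsto w l (𝓝 w0) := by
  refine Metric.tendsto_nhds.2 fun ε hε => ?_
  filter_upwards [Metric.tendstoUniformly_iff.1 h (ε / 2) (by positivity)] with n hn
  rw [dist_comm, dist_eq_norm]
  refine (norm_le_sup (C := ε / 2) fun x => (hn x).le).trans_lt (by linarith)

theorem limit_of_cauchy (hL : Lim) (hb : ∀ k, ∃ M, ∀ n, P k (u n) ≤ M) (hc : CauchySeq u) :
    ∃ w : R, ∀ J : List (Fin 3),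
      TendstoUniformly (fun n => (W J (u n) : S3 → ℝ)) (W J w : S3 → ℝ) atTop := by
  have key : ∀ U : Ultrafilter ℕ, (U : Filter ℕ) ≤ atTop → ∀ w : R,
      TendstoUniformly (fun n => (u n : S3 → ℝ)) (w : S3 → ℝ) U → Tendsto u atTop (𝓝 w) :=
    fun U hU w hw => le_nhds_of_cauchy_adhp hc
      (ClusterPt.mono (ClusterPt.of_le_nhds (tendsto_of_unif hw)) (map_mono hU))
  obtain ⟨w, hw⟩ := hL u hb (Ultrafilter.of atTop)
  have h0 := key _ (Ultrafilter.of_le _) w (hw [])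
  refine ⟨w, fun J => Metric.tendstoUniformly_iff.2 fun ε hε => ?_⟩
  refine (le_iff_ultrafilter.2 fun U hU => ?_ : atTop ≤ 𝓟 _) (mem_principal_self _)
  obtain ⟨w', hw'⟩ := hL u hb U
  obtain rfl := tendsto_nhds_unique (key U hU w' (hw' [])) h0
  exact le_principal_iff.2 (Metric.tendstoUniformly_iff.1 (hw' J) ε hε)

theorem cauchy_of_sq {C κ : ℝ} (h0 : 0 ≤ κ) (h1 : κ < 1)
    (h : ∀ n, ‖u (n + 1) - u n‖ ^ 2 ≤ C * κ ^ n) : CauchySeq u := by
  refine cauchySeq_of_le_geometric √κ √C ((Real.sqrt_lt' one_pos).2 (by simpa using h1))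
    fun n => ?_
  have hC : 0 ≤ C := by simpa using (sq_nonneg _).trans (h 0)
  rw [dist_comm, dist_eq_norm]
  refine (sq_le_sq₀ (norm_nonneg _) (by positivity)).1 ((h n).trans (le_of_eq ?_))
  rw [mul_pow, ← pow_mul, mul_comm n 2, pow_mul, Real.sq_sqrt hC, Real.sq_sqrt h0]

theorem Iter.limit (H : Iter u Pp A b c c1 θ) (hI : Ibp) (hB : Brk) (hS : SupEta) (hL : Lim)
    (h3 : ∃ M, ∀ n, P 3 (u n) ≤ M) (hc : CauchySeq u) : ∃ w : R, ∀ J : List (Fin 3),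
      TendstoUniformly (fun n => (W J (u n) : S3 → ℝ)) (W J w : S3 → ℝ) atTop :=
  limit_of_cauchy hL (H.all hI hB hS h3) hc

end Pool.Agent.MP_48470b_gt.Sph.S5
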