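import Pool.Agent.MP_48470b_gt.Sph.Lim
import Pool.Agent.MP_48470b_gt.Sph.S5d

/-! The four inputs of the bootstrap, and its unconditional form. -/

open scoped RealInnerProductSpace
open Filter

noncomputable section

namespace Pool.Agent.MP_48470b_gt.Sph

/-- a derivation that keeps the degrees and kills the coordinates vanishes -/
theorem der_eq_zero (T : Derivation ℝ R R) (hT : Adm (T : R →ₗ[ℝ] R)) (h : ∀ i, T (X i) = 0)
    (z : R) : T z = 0 := by
  have h1 : ∀ N, ∀ p ∈ V N, T p = 0 := by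
    intro N
    induction N with
    | zero => intro p hp; obtain ⟨c, rfl⟩ := V_zero_eq hp; simp
    | succ N ih =>
      intro p hp
      exact V_succ_map (T : R →ₗ[ℝ] R) ⊥ ih (fun i q hq => by simp [h i, ih q hq]) hp
  exact eq_zero_of_orth fun N => proj_eq_zero.1 ((hT.proj_comm N z).trans (h1 N _ (proj_mem N z)))

namespace S5

theorem ibp : Ibp := fun i u => tI_D (teM_skew i) u

theorem brk_aux (i j : Fin 3) (c : Fin 3 → ℝ)
    (h : ∀ k, E i (E j (X k)) - E j (E i (X k)) = c 0 • E 0 (X k) + c 1 • E 1 (X k) +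
      c 2 • E 2 (X k)) (v : R) : E i (E j v) - E j (E i v) = ∑ k, c k • E k v := by
  have h1 := der_eq_zero (⁅E i, E j⁆ - (c 0 • E 0 + c 1 • E 1 + c 2 • E 2))
    ((((adm_E i).mul (adm_E j)).sub ((adm_E j).mul (adm_E i))).sub
      ((((adm_E 0).smul (c 0)).add ((adm_E 1).smul (c 1))).add ((adm_E 2).smul (c 2))))
    (fun k => sub_eq_zero.2 (h k)) v
  rw [Fin.sum_univ_three]
  exact sub_eq_zero.1 h1

theorem brk : Brk := by
  intro i j
  refine ⟨![![![0, 0, 0], ![0, 0, 2], ![0, -2, 0]], ![![0, 0, -2], ![0, 0, 0], ![2, 0, 0]],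
    ![![0, 2, 0], ![-2, 0, 0], ![0, 0, 0]]] i j, brk_aux i j _ fun k => ?_⟩
  simp only [E_X, map_add, Derivation.map_smul, Fin.sum_univ_four]
  fin_cases i <;> fin_cases j <;> fin_cases k <;> simp [eM] <;> module

theorem supEta : SupEta := fun _ hη => let ⟨C, _, h⟩ := sup_eta hη; ⟨C, h⟩

theorem lim : Lim := fun w hw U => exists_limit w hw U

theorem Iter.all' {u : ℕ → R} {Pp : Set (ℕ → R)} {A : Fin 3 → Fin 3 → R}
    {b : Fin 3 → Fin 3 → ℕ → R} {c c1 : ℕ → R} {θ : ℝ} (H : Iter u Pp A b c c1 θ)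
    (h3 : ∃ M, ∀ n, P 3 (u n) ≤ M) (k : ℕ) : ∃ M, ∀ n, P k (u n) ≤ M :=
  H.all ibp brk supEta h3 k

theorem Iter.limit' {u : ℕ → R} {Pp : Set (ℕ → R)} {A : Fin 3 → Fin 3 → R}
    {b : Fin 3 → Fin 3 → ℕ → R} {c c1 : ℕ → R} {θ : ℝ} (H : Iter u Pp A b c c1 θ)
    (h3 : ∃ M, ∀ n, P 3 (u n) ≤ M) (hc : CauchySeq u) : ∃ w : R, ∀ J : List (Fin 3),
      TendstoUniformly (fun n => (W J (u n) : S3 → ℝ)) (W J w : S3 → ℝ) atTop :=
  H.limit ibp brk supEta lim h3 hc

end S5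

end Pool.Agent.MP_48470b_gt.Sph
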