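import Pool.Agent.MP_48470b_gt.Sph.B1

open scoped RealInnerProductSpace ContDiff Manifold Topology
open MeasureTheory Filter

noncomputable section

namespace Pool.Agent.MP_48470b_gt.Sph

/-! Second order calculus: brackets and the Laplace operator. -/

theorem D_D_apply (A B : E4 →L[ℝ] E4) (u : R) (x : S3) :
    D A (D B u) x = fderiv ℝ (fderiv ℝ (hom u)) x (A x) (B x) + fderiv ℝ (hom u) x (B (A x)) := by
  have h : hom (D B u) =ᶠ[𝓝 (x : E4)] fun y => fderiv ℝ (hom u) y (B y) := by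
    filter_upwards [isOpen_ne.mem_nhds (S3.ne x)] with y hy using hom_D_apply B u hy
  have hd : DifferentiableAt ℝ (fderiv ℝ (hom u)) x :=
    ((u.sm (S3.ne x)).fderiv_right (m := 1) (by norm_cast)).differentiableAt (by simp)
  rw [D_apply, h.fderiv_eq, fderiv_clm_apply hd B.differentiableAt]
  simp [add_comm]

theorem hess_symm (u : R) {x : E4} (hx : x ≠ 0) (v w : E4) :
    fderiv ℝ (fderiv ℝ (hom u)) x v w = fderiv ℝ (fderiv ℝ (hom u)) x w v :=
  ((u.sm hx).isSymmSndFDerivAt (by simp; norm_cast)).eq v w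

theorem D_bracket (A B : E4 →L[ℝ] E4) (u : R) :
    D A (D B u) - D B (D A u) = D (B.comp A - A.comp B) u :=
  R.ext fun x => by
    rw [R.sub_apply, D_D_apply, D_D_apply, hess_symm u (S3.ne x), D_apply]; simp

theorem D_mat_bracket (M N : Matrix (Fin 4) (Fin 4) ℝ) (u : R) :
    D (mat M) (D (mat N) u) = D (mat N) (D (mat M) u) + D (mat (N * M - M * N)) u := by
  rw [mat_sub, mat_mul, mat_mul, ← D_bracket]; ring

theorem E_01 (u : R) : E 0 (E 1 u) = E 1 (E 0 u) + (2 : ℝ) • E 2 u := by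
  rw [E, E, D_mat_bracket, eM_01, mat_smul, D_smul]; rfl

theorem E_12 (u : R) : E 1 (E 2 u) = E 2 (E 1 u) + (2 : ℝ) • E 0 u := by
  rw [E, E, D_mat_bracket, eM_12, mat_smul, D_smul]; rfl

theorem E_20 (u : R) : E 2 (E 0 u) = E 0 (E 2 u) + (2 : ℝ) • E 1 u := by
  rw [E, E, D_mat_bracket, eM_20, mat_smul, D_smul]; rfl

theorem F_01 (u : R) : F 0 (F 1 u) = F 1 (F 0 u) - (2 : ℝ) • F 2 u := by
  rw [F, F, D_mat_bracket, fM_01, mat_smul, D_smul, neg_smul, sub_eq_add_neg]; rfl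

theorem F_12 (u : R) : F 1 (F 2 u) = F 2 (F 1 u) - (2 : ℝ) • F 0 u := by
  rw [F, F, D_mat_bracket, fM_12, mat_smul, D_smul, neg_smul, sub_eq_add_neg]; rfl

theorem F_20 (u : R) : F 2 (F 0 u) = F 0 (F 2 u) - (2 : ℝ) • F 1 u := by
  rw [F, F, D_mat_bracket, fM_20, mat_smul, D_smul, neg_smul, sub_eq_add_neg]; rfl

/-- the structure constants of the left invariant frame -/
def cE : Fin 3 → Fin 3 → Fin 3 → ℝ :=
  ![![![0, 0, 0], ![0, 0, 2], ![0, -2, 0]], ![![0, 0, -2], ![0, 0, 0], ![2, 0, 0]],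
    ![![0, 2, 0], ![-2, 0, 0], ![0, 0, 0]]]

theorem E_E (i j : Fin 3) (u : R) : E i (E j u) = E j (E i u) + ∑ k, cE i j k • E k u := by
  have h1 := E_01 u
  have h2 := E_12 u
  have h3 := E_20 u
  fin_cases i <;> fin_cases j <;> simp [cE, Fin.sum_univ_three, h1, h2, h3]

theorem E_comm : ∃ c : Fin 3 → Fin 3 → Fin 3 → ℝ,
    ∀ i j u, E i (E j u) = E j (E i u) + ∑ k, c i j k • E k u := ⟨cE, E_E⟩

theorem F_F (i j : Fin 3) (u : R) : F i (F j u) = F j (F i u) - ∑ k, cE i j k • F k u := by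
  have h1 := F_01 u
  have h2 := F_12 u
  have h3 := F_20 u
  fin_cases i <;> fin_cases j <;> simp [cE, Fin.sum_univ_three, h1, h2, h3]

theorem E_F_comm (i j : Fin 3) (u : R) : E i (F j u) = F j (E i u) := by
  rw [E, F, D_mat_bracket, fM_eM, mat_zero, D_zero, add_zero]

theorem trace_frame (A : Fin 3 → E4 →L[ℝ] E4)
    (h2 : ∀ x v : E4, (‖x‖ ^ 2) • v = ⟪x, v⟫ • x + ∑ i, ⟪A i x, v⟫ • A i x)
    (B : E4 →L[ℝ] E4 →L[ℝ] ℝ) (x : E4) :
    ∑ i, B (A i x) (A i x) = ∑ i, B (mat (eM i) x) (mat (eM i) x) := by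
  have key : ∀ A : Fin 3 → E4 →L[ℝ] E4,
      (∀ x v : E4, (‖x‖ ^ 2) • v = ⟪x, v⟫ • x + ∑ i, ⟪A i x, v⟫ • A i x) →
      ∑ i, B (A i x) (A i x) = ∑ a, B (EuclideanSpace.single a 1)
        ((‖x‖ ^ 2) • EuclideanSpace.single a 1 - ⟪x, EuclideanSpace.single a 1⟫ • x) := by
    intro A h
    have h3 : ∀ y : E4, y = ∑ a, ⟪y, EuclideanSpace.single a 1⟫ • EuclideanSpace.single a (1 : ℝ) := by
      intro y; ext c; simp [Pi.single_apply, EuclideanSpace.inner_single_right]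
    simp only [h x, add_sub_cancel_left, map_sum, map_smul]
    rw [Finset.sum_comm]
    refine Finset.sum_congr rfl fun i _ => ?_
    conv_lhs => rw [show B (A i x) = B (∑ a, ⟪A i x, EuclideanSpace.single a 1⟫ •
      EuclideanSpace.single a (1 : ℝ)) from congrArg B (h3 _)]
    simp only [map_sum, map_smul, sum_apply, smul_apply]
  rw [key A h2, key _ e_frame]

/-- the Laplace operator in any frame -/
theorem Lap_frame (A : Fin 3 → E4 →L[ℝ] E4) (h1 : ∀ i x, A i (A i x) = -x)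
    (h2 : ∀ x v : E4, (‖x‖ ^ 2) • v = ⟪x, v⟫ • x + ∑ i, ⟪A i x, v⟫ • A i x) (u : R) :
    Lap u = ∑ i, D (A i) (D (A i) u) :=
  R.ext fun x => by
    simp only [Lap_apply, R.sum_apply, E, D_D_apply, h1, e_sq, Finset.sum_add_distrib]
    rw [trace_frame A h2]

theorem grad_frame (A : Fin 3 → E4 →L[ℝ] E4)
    (h2 : ∀ x v : E4, (‖x‖ ^ 2) • v = ⟪x, v⟫ • x + ∑ i, ⟪A i x, v⟫ • A i x) (u v : R) :
    ∑ i, E i u * E i v = ∑ i, D (A i) u * D (A i) v :=
  R.ext fun x => by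
    have := trace_frame A h2
      ((fderiv ℝ (hom u) x).smulRight (fderiv ℝ (hom v) x)) x
    simp only [R.sum_apply, R.mul_apply, E, D_apply]
    simpa using this.symm

theorem Lap_eq_F (u : R) : Lap u = ∑ i, F i (F i u) := Lap_frame _ f_sq f_frame u

theorem grad_F (u v : R) : ∑ i, E i u * E i v = ∑ i, F i u * F i v := grad_frame _ f_frame u v

theorem conj_frame (g : E4 ≃ₗᵢ[ℝ] E4) (x v : E4) :
    (‖x‖ ^ 2) • v = ⟪x, v⟫ • x + ∑ i, ⟪conj g (mat (eM i)) x, v⟫ • conj g (mat (eM i)) x := by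
  apply g.injective
  have h : ∀ y : E4, ⟪g.symm y, v⟫ = ⟪y, g v⟫ := fun y => by
    rw [← g.inner_map_map, g.apply_symm_apply]
  have := e_frame (g x) (g v)
  simpa [h] using this

theorem act_Lap (g : E4 ≃ₗᵢ[ℝ] E4) (u : R) : act g (Lap u) = Lap (act g u) := by
  rw [Lap_frame (fun i => conj g (mat (eM i))) (fun i x => by simp [e_sq]) (conj_frame g)
    (act g u), Lap_apply, map_sum]
  simp only [E, act_D]

theorem act_grad (g : E4 ≃ₗᵢ[ℝ] E4) (u v : R) :
    act g (∑ i, E i u * E i v) = ∑ i, E i (act g u) * E i (act g v) := by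
  rw [grad_frame (fun i => conj g (mat (eM i))) (conj_frame g) (act g u), map_sum]
  simp only [E, map_mul, act_D]

theorem Lap_E (i : Fin 3) (u : R) : Lap (E i u) = E i (Lap u) := by
  simp only [Lap_eq_F, map_sum, E_F_comm]

theorem Lap_F (i : Fin 3) (u : R) : Lap (F i u) = F i (Lap u) := by
  simp only [Lap_apply, map_sum, E_F_comm]

end Pool.Agent.MP_48470b_gt.Sph
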