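import Pool.Agent.MP_48470b_gt.Sph.B1

open scoped RealInnerProductSpace ContDiff Manifold Topology Pointwise
open MeasureTheory Filter

noncomputable section

namespace Pool.Agent.MP_48470b_gt.Sph

/-! Integration by parts and elementary integral bounds. -/

theorem continuous_sph (g : E4 ≃ₗᵢ[ℝ] E4) : Continuous (sph g) :=
  (g.continuous.comp continuous_subtype_val).subtype_mk _

theorem sph_mp (g : E4 ≃ₗᵢ[ℝ] E4) : MeasurePreserving (sph g) sig sig := by
  refine ⟨(continuous_sph g).measurable, Measure.ext fun s hs => ?_⟩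
  have hm := (continuous_sph g).measurable
  rw [Measure.map_apply hm hs, sig, Measure.smul_apply, Measure.smul_apply,
    Measure.toSphere_apply' _ hs, Measure.toSphere_apply' _ (hm hs)]
  congr 2
  have : Set.Ioo (0 : ℝ) 1 • ((↑) : S3 → E4) '' (sph g ⁻¹' s) =
      g ⁻¹' (Set.Ioo (0 : ℝ) 1 • ((↑) : S3 → E4) '' s) := by
    ext y
    simp only [Set.mem_smul, Set.mem_image, Set.mem_preimage]
    constructor
    · rintro ⟨t, ht, _, ⟨x, hx, rfl⟩, rfl⟩
      exact ⟨t, ht, _, ⟨_, hx, rfl⟩, by simp⟩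
    · rintro ⟨t, ht, _, ⟨x, hx, rfl⟩, h⟩
      refine ⟨t, ht, _, ⟨sph g.symm x, ?_, rfl⟩, ?_⟩
      · have : sph g (sph g.symm x) = x := Subtype.ext (g.apply_symm_apply x)
        rwa [this]
      · apply g.injective; simpa using h
  rw [this]
  exact MeasurePreserving.measure_preimage_equiv (f := g.toHomeomorph.toMeasurableEquiv)
    g.measurePreserving _

theorem I_act (g : E4 ≃ₗᵢ[ℝ] E4) (u : R) : I (act g u) = I u := by
  have h := integral_map (μ := sig) (continuous_sph g).measurable.aemeasurable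
    (f := (u : S3 → ℝ)) u.continuous.aestronglyMeasurable
  rw [(sph_mp g).map_eq] at h
  simp only [I_def, act_apply]
  exact h.symm

/-- the rotation generated by a complex structure -/
def rotJ {A : E4 →L[ℝ] E4} (hA : Skew A) (h2 : ∀ x, A (A x) = -x) (t : ℝ) : E4 ≃ₗᵢ[ℝ] E4 :=
  LinearIsometry.toLinearIsometryEquiv
    { toLinearMap := Real.cos t • LinearMap.id + Real.sin t • (A : E4 →ₗ[ℝ] E4)
      norm_map' := fun x => by
        have h3 : ⟪A x, A x⟫ = ⟪x, x⟫ := by rw [hA.adj, h2]; simp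
        have h4 : ⟪x, A x⟫ = 0 := by rw [real_inner_comm]; exact hA x
        rw [← sq_eq_sq₀ (norm_nonneg _) (norm_nonneg _), ← real_inner_self_eq_norm_sq,
          ← real_inner_self_eq_norm_sq]
        change ⟪Real.cos t • x + Real.sin t • A x, Real.cos t • x + Real.sin t • A x⟫ = _
        rw [inner_add_left, inner_add_right, inner_add_right]
        simp only [real_inner_smul_left, real_inner_smul_right, h3, h4, hA x]
        linear_combination ⟪x, x⟫ * Real.cos_sq_add_sin_sq t } rfl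

theorem rotJ_apply {A : E4 →L[ℝ] E4} (hA : Skew A) (h2 : ∀ x, A (A x) = -x) (t : ℝ) (x : E4) :
    rotJ hA h2 t x = Real.cos t • x + Real.sin t • A x := rfl

theorem I_D_J {A : E4 →L[ℝ] E4} (hA : Skew A) (h2 : ∀ x, A (A x) = -x) (u : R) :
    I (D A u) = 0 := by
  obtain ⟨C, -, hC⟩ := exists_bound (D A u)
  have hd : ∀ (x : S3) (t : ℝ), HasDerivAt (fun t => act (rotJ hA h2 t) u x)
      (act (rotJ hA h2 t) (D A u) x) t := by
    intro x t
    have h1 : HasDerivAt (fun t => Real.cos t • (x : E4) + Real.sin t • A x)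
        (A (rotJ hA h2 t x)) t := by
      have := ((Real.hasDerivAt_cos t).smul_const (x : E4)).add
        ((Real.hasDerivAt_sin t).smul_const (A x))
      have e : A (rotJ hA h2 t x) = -Real.sin t • (x : E4) + Real.cos t • A x := by
        rw [rotJ_apply, map_add, map_smul, map_smul, h2]
        module
      rw [e]; exact this
    have h3 := (u.diff (S3.ne (sph (rotJ hA h2 t) x))).hasFDerivAt.comp_hasDerivAt t h1
    simp only [act_apply, D_apply, ← hom_coe u]
    exact h3
  have h := (hasDerivAt_integral_of_dominated_loc_of_deriv_le (μ := sig) (x₀ := (0 : ℝ))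
    (F := fun t x => act (rotJ hA h2 t) u x) (F' := fun t x => act (rotJ hA h2 t) (D A u) x)
    (bound := fun _ => C) (s := Set.univ) univ_mem
    (Eventually.of_forall fun t => (R.continuous _).aestronglyMeasurable) (R.integrable _)
    (R.continuous _).aestronglyMeasurable
    (Eventually.of_forall fun x t _ => by rw [act_apply]; exact hC _) (integrable_const C)
    (Eventually.of_forall fun x t _ => hd x t)).2
  have h5 : (fun t => ∫ x, act (rotJ hA h2 t) u x ∂sig) = fun _ => I u :=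
    funext fun t => I_act _ u
  rw [h5] at h
  rw [← I_act (rotJ hA h2 0)]
  exact h.unique (hasDerivAt_const _ _)

theorem I_E (i : Fin 3) (u : R) : I (E i u) = 0 := I_D_J (skew_e i) (e_sq i) u

theorem I_F (i : Fin 3) (u : R) : I (F i u) = 0 := I_D_J (skew_f i) (f_sq i) u

theorem I_parts {d : Derivation ℝ R R} (hd : ∀ u, I (d u) = 0) (u v : R) :
    I (d u * v) = -I (u * d v) := by
  have := hd (u * v)
  rw [Derivation.leibniz, map_add, smul_eq_mul, smul_eq_mul, mul_comm v] at this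
  linarith

theorem I_D {A : E4 →L[ℝ] E4} (hA : Skew A) (u : R) : I (D A u) = 0 := by
  let c : Fin 3 → R := fun i => res (fun x => ⟪mat (eM i) x, A x⟫) fun x =>
    (mat (eM i)).contDiff.contDiffAt.inner ℝ A.contDiff.contDiffAt
  have h1 : D A u = ∑ i, E i u * c i := R.ext fun x => by
    rw [D_frame]; simp [c, mul_comm]
  have h2 : ∀ i, E i (c i) = 0 := fun i => R.ext fun x => by
    rw [E, D_res (skew_e i), fderiv_inner_apply ℝ (mat (eM i)).differentiableAt A.differentiableAt]
    simp only [ContinuousLinearMap.fderiv, e_sq, inner_neg_left, R.zero_apply]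
    rw [real_inner_comm, hA, real_inner_comm, hA]; simp
  rw [h1, map_sum]
  exact Finset.sum_eq_zero fun i _ => by rw [I_parts (I_E i), h2]; simp

theorem inner_E (i : Fin 3) (u v : R) : ⟪E i u, v⟫ = -⟪u, E i v⟫ := I_parts (I_E i) u v

theorem inner_F (i : Fin 3) (u v : R) : ⟪F i u, v⟫ = -⟪u, F i v⟫ := I_parts (I_F i) u v

theorem inner_mul (c u v : R) : ⟪c * u, v⟫ = ⟪u, c * v⟫ := by
  rw [inner_def, inner_def]; congr 1; ring

theorem inner_Lap_grad (u v : R) : ⟪u, Lap v⟫ = -∑ i, ⟪E i u, E i v⟫ := by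
  rw [Lap_apply, inner_sum, ← Finset.sum_neg_distrib]
  exact Finset.sum_congr rfl fun i _ => by rw [inner_E, neg_neg]

theorem inner_Lap (u v : R) : ⟪Lap u, v⟫ = ⟪u, Lap v⟫ := by
  rw [real_inner_comm, inner_Lap_grad, inner_Lap_grad]
  simp only [real_inner_comm]

theorem norm_mono {u v : R} (h : ∀ x, |u x| ≤ |v x|) : ‖u‖ ≤ ‖v‖ := by
  rw [← sq_le_sq₀ (norm_nonneg _) (norm_nonneg _), norm_sq, norm_sq]
  exact I_mono fun x => by simpa using sq_le_sq.2 (h x)

theorem norm_one' : ‖(1 : R)‖ = 1 := by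
  rw [← sq_eq_sq₀ (norm_nonneg _) zero_le_one, norm_sq]; simp

theorem norm_mul_le_of {c : R} {C : ℝ} (h : ∀ x, |c x| ≤ C) (u : R) : ‖c * u‖ ≤ C * ‖u‖ := by
  have hC : 0 ≤ C := (abs_nonneg _).trans (h (pr 0))
  have : ‖c * u‖ ≤ ‖C • u‖ := norm_mono fun x => by
    rw [R.mul_apply, R.smul_apply, abs_mul, abs_mul, abs_of_nonneg hC]
    exact mul_le_mul_of_nonneg_right (h x) (abs_nonneg _)
  rwa [norm_smul, Real.norm_of_nonneg hC] at this

theorem norm_le_of_bound {u : R} {C : ℝ} (h : ∀ x, |u x| ≤ C) : ‖u‖ ≤ C := by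
  simpa [norm_one'] using norm_mul_le_of h 1

theorem abs_I_le (u : R) : |I u| ≤ ‖u‖ := by
  simpa [norm_one', inner_def] using abs_real_inner_le_norm u 1

theorem abs_I_mul_le (u v : R) : |I (u * v)| ≤ ‖u‖ * ‖v‖ := abs_real_inner_le_norm u v

theorem norm_mul_four (u v : R) : ‖u * v‖ ^ 4 ≤ I (u ^ 4) * I (v ^ 4) := by
  have h := real_inner_mul_inner_self_le (u ^ 2) (v ^ 2)
  have e1 : ⟪u ^ 2, v ^ 2⟫ = ‖u * v‖ ^ 2 := by rw [norm_sq, inner_def, mul_pow]
  have e2 : ∀ w : R, ⟪w ^ 2, w ^ 2⟫ = I (w ^ 4) := fun w => by rw [inner_def]; congr 1; ring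
  rw [e1, e2, e2] at h
  linarith

theorem norm_four (u : R) : ‖u‖ ^ 4 ≤ I (u ^ 4) := by
  simpa using norm_mul_four u 1

end Pool.Agent.MP_48470b_gt.Sph
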