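import Mathlib

/-! The algebra of smooth functions on the round three sphere, with its derivations,
its integral and the action of the orthogonal group. -/

open scoped RealInnerProductSpace ContDiff
open MeasureTheory

noncomputable section

namespace Pool.Agent.MP_48470b_gt.Sph

abbrev E4 := EuclideanSpace ℝ (Fin 4)
abbrev S3 := Metric.sphere (0 : E4) 1

theorem S3.norm (x : S3) : ‖(x : E4)‖ = 1 := norm_eq_of_mem_sphere x
theorem S3.ne (x : S3) : (x : E4) ≠ 0 := ne_zero_of_mem_unit_sphere x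

open Classical in
/-- radial projection to the sphere -/
def pr (x : E4) : S3 :=
  if h : x = 0 then ⟨EuclideanSpace.single 0 1, by simp⟩
  else ⟨‖x‖⁻¹ • x, by simp [norm_smul, h]⟩

theorem pr_val {x : E4} (h : x ≠ 0) : (pr x : E4) = ‖x‖⁻¹ • x := by simp [pr, h]

@[simp] theorem pr_coe (x : S3) : pr (x : E4) = x :=
  Subtype.ext (by rw [pr_val (S3.ne x), S3.norm]; simp)

theorem pr_smul {t : ℝ} (ht : 0 < t) (x : E4) : pr (t • x) = pr x := by
  by_cases h : x = 0
  · simp [h]
  · apply Subtype.ext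
    rw [pr_val (smul_ne_zero ht.ne' h), pr_val h, norm_smul, smul_smul, Real.norm_of_nonneg ht.le]
    congr 1
    have : ‖x‖ ≠ 0 := norm_ne_zero_iff.2 h
    field_simp

/-- the extension of degree zero -/
def hom (u : S3 → ℝ) : E4 → ℝ := fun x => u (pr x)

@[simp] theorem hom_coe (u : S3 → ℝ) (x : S3) : hom u (x : E4) = u x := by simp [hom]

/-- smooth functions -/
def smSub : Subalgebra ℝ (S3 → ℝ) where
  carrier := {u | ∀ x : E4, x ≠ 0 → ContDiffAt ℝ ∞ (hom u) x}
  mul_mem' := fun ha hb x hx => (ha x hx).mul (hb x hx)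
  add_mem' := fun ha hb x hx => (ha x hx).add (hb x hx)
  algebraMap_mem' := fun _ _ _ => contDiffAt_const

/-- The algebra of smooth real functions on the sphere. -/
def R : Type := smSub

instance : CommRing R := inferInstanceAs (CommRing smSub)
instance : Algebra ℝ R := inferInstanceAs (Algebra ℝ smSub)
instance : CoeFun R (fun _ => S3 → ℝ) := ⟨fun u => Subtype.val u⟩

theorem R.sm (u : R) {x : E4} (hx : x ≠ 0) : ContDiffAt ℝ ∞ (hom u) x := Subtype.property u x hx

@[ext] theorem R.ext {u v : R} (h : ∀ x, u x = v x) : u = v := Subtype.ext (funext h)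

@[simp] theorem R.add_apply (u v : R) (x : S3) : (u + v) x = u x + v x := rfl
@[simp] theorem R.mul_apply (u v : R) (x : S3) : (u * v) x = u x * v x := rfl
@[simp] theorem R.sub_apply (u v : R) (x : S3) : (u - v) x = u x - v x := rfl
@[simp] theorem R.neg_apply (u : R) (x : S3) : (-u) x = -u x := rfl
@[simp] theorem R.zero_apply (x : S3) : (0 : R) x = 0 := rfl
@[simp] theorem R.one_apply (x : S3) : (1 : R) x = 1 := rfl
@[simp] theorem R.smul_apply (c : ℝ) (u : R) (x : S3) : (c • u) x = c * u x := rfl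
@[simp] theorem R.algebraMap_apply (c : ℝ) (x : S3) : (algebraMap ℝ R c) x = c := rfl

/-- evaluation at a point -/
def ev (x : S3) : R →ₐ[ℝ] ℝ where
  toFun u := u x
  map_one' := rfl
  map_mul' _ _ := rfl
  map_zero' := rfl
  map_add' _ _ := rfl
  commutes' _ := rfl

@[simp] theorem ev_apply (x : S3) (u : R) : ev x u = u x := rfl
@[simp] theorem R.pow_apply (u : R) (n : ℕ) (x : S3) : (u ^ n) x = u x ^ n := map_pow (ev x) u n
@[simp] theorem R.sum_apply {ι : Type*} (s : Finset ι) (u : ι → R) (x : S3) :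
    (∑ i ∈ s, u i) x = ∑ i ∈ s, u i x := map_sum (ev x) u s
@[simp] theorem R.prod_apply {ι : Type*} (s : Finset ι) (u : ι → R) (x : S3) :
    (∏ i ∈ s, u i) x = ∏ i ∈ s, u i x := map_prod (ev x) u s
@[simp] theorem R.natCast_apply (n : ℕ) (x : S3) : (n : R) x = n := map_natCast (ev x) n
@[simp] theorem R.ofNat_apply (n : ℕ) [n.AtLeastTwo] (x : S3) :
    (OfNat.ofNat n : R) x = OfNat.ofNat n := map_ofNat (ev x) n

theorem R.continuous (u : R) : Continuous (u : S3 → ℝ) := by
  have : (u : S3 → ℝ) = fun x : S3 => hom u (x : E4) := by ext x; simp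
  rw [this]
  exact continuous_iff_continuousAt.2 fun x =>
    ContinuousAt.comp (f := fun y : S3 => (y : E4)) (u.sm (S3.ne x)).continuousAt
      continuous_subtype_val.continuousAt

theorem contDiffAt_unit {x : E4} (hx : x ≠ 0) :
    ContDiffAt ℝ ∞ (fun y : E4 => ‖y‖⁻¹ • y) x :=
  ((contDiffAt_norm ℝ hx).inv (norm_ne_zero_iff.2 hx)).smul contDiffAt_id

theorem hom_eventually (U : E4 → ℝ) {x : E4} (hx : x ≠ 0) :
    hom (fun y : S3 => U y) =ᶠ[nhds x] fun y => U (‖y‖⁻¹ • y) := by
  filter_upwards [isOpen_ne.mem_nhds hx] with y hy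
  simp [hom, pr_val hy]

/-- restriction to the sphere of a function that is smooth at the points of the sphere -/
def res (U : E4 → ℝ) (h : ∀ x : S3, ContDiffAt ℝ ∞ U x) : R :=
  Subtype.mk (fun y : S3 => U y) (fun x hx => by
    refine ContDiffAt.congr_of_eventuallyEq ?_ (hom_eventually U hx)
    have h1 := h (pr x)
    rw [pr_val hx] at h1
    exact ContDiffAt.comp (f := fun y : E4 => ‖y‖⁻¹ • y) x h1 (contDiffAt_unit hx))

@[simp] theorem res_apply (U : E4 → ℝ) (h) (x : S3) : res U h x = U x := rfl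

/-- the coordinate functions -/
def X (i : Fin 4) : R := res (fun x => x i) (fun _ => by fun_prop)

@[simp] theorem X_apply (i : Fin 4) (x : S3) : X i x = (x : E4) i := rfl

/-- composition with a function that is smooth at the values -/
def R.comp (φ : ℝ → ℝ) (u : R) (h : ∀ x, ContDiffAt ℝ ∞ φ (u x)) : R :=
  Subtype.mk (fun x => φ (u x)) (fun x hx => ContDiffAt.comp (g := φ) (f := hom u) x (h _) (u.sm hx))

@[simp] theorem R.comp_apply (φ : ℝ → ℝ) (u : R) (h) (x : S3) : R.comp φ u h x = φ (u x) := rfl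

theorem R.diff (u : R) {x : E4} (hx : x ≠ 0) : DifferentiableAt ℝ (hom u) x :=
  (u.sm hx).differentiableAt (by simp)

theorem fderiv_hom_smul (u : R) {t : ℝ} (ht : 0 < t) {x : E4} (hx : x ≠ 0) (v : E4) :
    fderiv ℝ (hom u) (t • x) (t • v) = fderiv ℝ (hom u) x v := by
  have h1 : hom u = fun y => hom u (t • y) := by ext y; simp [hom, pr_smul ht]
  have h2 : HasFDerivAt (fun y : E4 => hom u (t • y))
      ((fderiv ℝ (hom u) (t • x)).comp (t • ContinuousLinearMap.id ℝ E4)) x :=
    HasFDerivAt.comp (f := fun y : E4 => t • y) x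
      (u.diff (smul_ne_zero ht.ne' hx)).hasFDerivAt ((hasFDerivAt_id x).const_smul t)
  rw [← h1] at h2
  rw [h2.fderiv]; simp

theorem hom_D (A : E4 →L[ℝ] E4) (u : R) {x : E4} (hx : x ≠ 0) :
    hom (fun y : S3 => fderiv ℝ (hom u) y (A y)) x = fderiv ℝ (hom u) x (A x) := by
  simp only [hom, pr_val hx, map_smul A]
  exact fderiv_hom_smul u (inv_pos.2 (norm_pos_iff.2 hx)) hx _

/-- derivative along a linear vector field, as a function -/
def Dfun (A : E4 →L[ℝ] E4) (u : R) : R :=
  Subtype.mk (fun y : S3 => fderiv ℝ (hom u) y (A y)) (fun x hx => by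
    have h : hom (fun y : S3 => fderiv ℝ (hom u) y (A y)) =ᶠ[nhds x]
        fun y => fderiv ℝ (hom u) y (A y) := by
      filter_upwards [isOpen_ne.mem_nhds hx] with y hy using hom_D A u hy
    refine ContDiffAt.congr_of_eventuallyEq ?_ h
    exact ((u.sm hx).fderiv_right (m := ∞) (by simp)).clm_apply A.contDiff.contDiffAt)

/-- derivative along the linear vector field `x ↦ A x` -/
def D (A : E4 →L[ℝ] E4) : Derivation ℝ R R :=
  Derivation.mk'
    { toFun := Dfun A
      map_add' := fun u v => R.ext fun x => by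
        change fderiv ℝ (hom u + hom v) x (A x) = fderiv ℝ (hom u) x (A x) + fderiv ℝ (hom v) x (A x)
        rw [fderiv_add (u.diff (S3.ne x)) (v.diff (S3.ne x))]; rfl
      map_smul' := fun c u => R.ext fun x => by
        change fderiv ℝ (c • hom u) x (A x) = c * fderiv ℝ (hom u) x (A x)
        rw [fderiv_const_smul (u.diff (S3.ne x))]; rfl }
    (fun u v => R.ext fun x => by
      change fderiv ℝ (hom u * hom v) x (A x) =
        u x * fderiv ℝ (hom v) x (A x) + v x * fderiv ℝ (hom u) x (A x)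
      rw [fderiv_mul (u.diff (S3.ne x)) (v.diff (S3.ne x))]; simp)

theorem D_apply (A : E4 →L[ℝ] E4) (u : R) (x : S3) : D A u x = fderiv ℝ (hom u) x (A x) := rfl

/-- a matrix as a linear map -/
def mat (M : Matrix (Fin 4) (Fin 4) ℝ) : E4 →L[ℝ] E4 := Matrix.toEuclideanCLM (𝕜 := ℝ) M

/-- right multiplication by the quaternions `i, j, k` -/
def eM : Fin 3 → Matrix (Fin 4) (Fin 4) ℝ :=
  ![!![0, -1, 0, 0; 1, 0, 0, 0; 0, 0, 0, 1; 0, 0, -1, 0],
    !![0, 0, -1, 0; 0, 0, 0, -1; 1, 0, 0, 0; 0, 1, 0, 0],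
    !![0, 0, 0, -1; 0, 0, 1, 0; 0, -1, 0, 0; 1, 0, 0, 0]]

/-- left multiplication by the quaternions `i, j, k` -/
def fM : Fin 3 → Matrix (Fin 4) (Fin 4) ℝ :=
  ![!![0, -1, 0, 0; 1, 0, 0, 0; 0, 0, 0, -1; 0, 0, 1, 0],
    !![0, 0, -1, 0; 0, 0, 0, 1; 1, 0, 0, 0; 0, -1, 0, 0],
    !![0, 0, 0, -1; 0, 0, -1, 0; 0, 1, 0, 0; 1, 0, 0, 0]]

/-- the left invariant frame -/
def E (i : Fin 3) : Derivation ℝ R R := D (mat (eM i))

/-- the right invariant frame -/
def F (i : Fin 3) : Derivation ℝ R R := D (mat (fM i))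

/-- the action of an isometry on the sphere -/
def sph (g : E4 ≃ₗᵢ[ℝ] E4) (x : S3) : S3 := ⟨g x, by simp⟩

@[simp] theorem sph_coe (g : E4 ≃ₗᵢ[ℝ] E4) (x : S3) : (sph g x : E4) = g x := rfl

/-- composition with an isometry -/
def act (g : E4 ≃ₗᵢ[ℝ] E4) : R →ₐ[ℝ] R where
  toFun u := res (fun x => hom u (g x)) (fun x =>
    ContDiffAt.comp (g := hom u) (f := fun y => g y) (x : E4) (u.sm (S3.ne (sph g x)))
      g.contDiff.contDiffAt)
  map_one' := rfl
  map_mul' _ _ := rfl
  map_zero' := rfl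
  map_add' _ _ := rfl
  commutes' _ := rfl

@[simp] theorem act_apply (g : E4 ≃ₗᵢ[ℝ] E4) (u : R) (x : S3) : act g u x = u (sph g x) :=
  hom_coe u (sph g x)

/-- the invariant probability measure -/
def sig : Measure S3 :=
  ((volume : Measure E4).toSphere Set.univ)⁻¹ • (volume : Measure E4).toSphere

instance : IsProbabilityMeasure sig :=
  ⟨by
    rw [sig, Measure.smul_apply, smul_eq_mul]
    exact ENNReal.inv_mul_cancel
      (Measure.measure_univ_ne_zero.2 (Measure.toSphere_ne_zero _)) (measure_ne_top _ _)⟩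

instance : sig.IsOpenPosMeasure :=
  ⟨fun U hU hne => by
    rw [sig, Measure.smul_apply, smul_eq_mul]
    exact mul_ne_zero (ENNReal.inv_ne_zero.2 (measure_ne_top _ _)) (hU.measure_ne_zero _ hne)⟩

theorem R.integrable (u : R) : Integrable (u : S3 → ℝ) sig :=
  u.continuous.integrable_of_hasCompactSupport (HasCompactSupport.of_compactSpace _)

/-- the mean value over the sphere -/
def I : R →ₗ[ℝ] ℝ where
  toFun u := ∫ x, u x ∂sig
  map_add' u v := integral_add u.integrable v.integrable
  map_smul' c _ := integral_const_mul c _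

theorem I_def (u : R) : I u = ∫ x, u x ∂sig := rfl

theorem I_nonneg {u : R} (h : ∀ x, 0 ≤ u x) : 0 ≤ I u := integral_nonneg h

theorem I_mono {u v : R} (h : ∀ x, u x ≤ v x) : I u ≤ I v :=
  integral_mono u.integrable v.integrable h

@[simp] theorem I_one : I 1 = 1 := by simp [I_def]

theorem eq_zero_of_I {u : R} (h : ∀ x, 0 ≤ u x) (h0 : I u = 0) : u = 0 := by
  have h1 := (integral_eq_zero_iff_of_nonneg h u.integrable).1 h0
  have h2 := (Continuous.ae_eq_iff_eq sig u.continuous continuous_zero).1 h1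
  exact R.ext fun x => congrFun h2 x

/-- the scalar product of square integrable functions -/
@[reducible] def core : InnerProductSpace.Core ℝ R where
  inner u v := I (u * v)
  conj_inner_symm u v := by simp [mul_comm]
  re_inner_nonneg u := I_nonneg fun x => mul_self_nonneg _
  add_left u v w := by simp [add_mul]
  smul_left u v c := by simp
  definite u h := R.ext fun x => by
    have := congrArg (fun w : R => w x) (eq_zero_of_I (u := u * u) (fun x => mul_self_nonneg _) h)
    simpa using this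

instance : NormedAddCommGroup R := @InnerProductSpace.Core.toNormedAddCommGroup ℝ R _ _ _ core
instance : InnerProductSpace ℝ R := InnerProductSpace.ofCore core.toCore

theorem inner_def (u v : R) : ⟪u, v⟫ = I (u * v) := rfl

theorem norm_sq (u : R) : ‖u‖ ^ 2 = I (u ^ 2) := by
  rw [← real_inner_self_eq_norm_sq, inner_def, sq]

/-- the Laplace operator -/
def Lap : Module.End ℝ R := ∑ i, (E i : R →ₗ[ℝ] R) * (E i : R →ₗ[ℝ] R)

theorem Lap_apply (u : R) : Lap u = ∑ i, E i (E i u) := by simp [Lap]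

/-- polynomials of degree at most `N` -/
def V : ℕ → Submodule ℝ R
  | 0 => Submodule.span ℝ {1}
  | N + 1 => V N ⊔ ⨆ i, (V N).map (LinearMap.mulLeft ℝ (X i))

/-- words in the frame -/
def W : List (Fin 3) → R → R
  | [], u => u
  | i :: J, u => E i (W J u)

/-- squared Sobolev norms -/
def P : ℕ → R → ℝ
  | 0, u => ‖u‖ ^ 2
  | k + 1, u => P k u + ∑ i, P k (E i u)

end Pool.Agent.MP_48470b_gt.Sph
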