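import Pool.Agent.MP_48470b_gt.Sph.S3a

/-! Compactness of sequences that are bounded in all Sobolev norms. -/

open scoped RealInnerProductSpace ContDiff
open MeasureTheory Filter Topology

noncomputable section

namespace Pool.Agent.MP_48470b_gt.Sph

namespace Lim

theorem norm_sq_le_P : ∀ (k : ℕ) (u : R), ‖u‖ ^ 2 ≤ P k u
  | 0, _ => le_rfl
  | k + 1, u => (norm_sq_le_P k u).trans
      (le_add_of_nonneg_right (Finset.sum_nonneg fun _ _ => (spec_P k).nonneg _))

theorem P_E (k : ℕ) (i : Fin 3) (u : R) : P k (E i u) ≤ P (k + 1) u :=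
  (Finset.single_le_sum (f := fun j => P k (E j u)) (fun _ _ => (spec_P k).nonneg _)
    (Finset.mem_univ i)).trans (le_add_of_nonneg_left ((spec_P k).nonneg _))

theorem P_W (J : List (Fin 3)) : ∀ (k : ℕ) (u : R), P k (W J u) ≤ P (k + J.length) u := by
  induction J with
  | nil => exact fun _ _ => le_rfl
  | cons i J ih =>
    intro k u
    refine (P_E k i _).trans ((ih (k + 1) u).trans_eq ?_)
    rw [List.length_cons, add_assoc, add_comm 1]

/-- uniform convergence along an ultrafilter -/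
theorem exists_unif {ι : Type*} {v : ι → R} {M : ℝ} (hM : ∀ n, P 2 (v n) ≤ M)
    (U : Ultrafilter ι) :
    ∃ g : S3 → ℝ, TendstoUniformly (fun n => (v n : S3 → ℝ)) g U := by
  have h1 : ∀ x, ∃ y, Tendsto (fun n => v n x) U (𝓝 y) := fun x => by
    obtain ⟨y, -, hy⟩ := (isCompact_Icc (a := -√(2 * M)) (b := √(2 * M))).ultrafilter_le_nhds
      (U.map fun n => v n x) (by
        rw [Ultrafilter.coe_map, le_principal_iff, mem_map]
        refine univ_mem' fun n => abs_le.1 (Real.abs_le_sqrt ?_)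
        have := sup_P' (v n) x
        have := hM n
        linarith)
    exact ⟨y, hy⟩
  choose g hg using h1
  refine ⟨g, Metric.tendstoUniformly_iff.2 fun ε hε => ?_⟩
  obtain ⟨n0⟩ := (U : Filter ι).nonempty_of_neBot
  have hM0 : 0 ≤ M := ((spec_P 2).nonneg _).trans (hM n0)
  obtain ⟨N, hN⟩ := exists_nat_one_div_lt (K := ℝ) (ε := (ε / 5) ^ 2 / (M + 1)) (by positivity)
  have h2 : ∀ n x, |v n x - proj N (v n) x| ≤ ε / 5 := fun n x => by
    refine abs_le.2 (abs_le_of_sq_le_sq' ((sup_sub_proj N (v n) x).trans ?_) (by positivity))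
    have h3 := (spec_P 2).nonneg (v n)
    calc 1 / ((N : ℝ) + 1) * P 2 (v n) ≤ (ε / 5) ^ 2 / (M + 1) * (M + 1) :=
          mul_le_mul hN.le ((hM n).trans (by linarith)) h3 (by positivity)
      _ = _ := by field_simp
  let q : ι → V N := fun n => ⟨proj N (v n), proj_mem N _⟩
  have : ProperSpace (V N) := FiniteDimensional.proper ℝ (V N)
  obtain ⟨q0, -, hq⟩ := (isCompact_closedBall (0 : V N) √M).ultrafilter_le_nhds (U.map q) (by
    rw [Ultrafilter.coe_map, le_principal_iff, mem_map]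
    refine univ_mem' fun n => mem_closedBall_zero_iff.2 ?_
    exact (norm_proj_le N _).trans (Real.le_sqrt_of_sq_le ((norm_sq_le_P 2 _).trans (hM n))))
  let C : ℝ := √(Module.finrank ℝ (V N) : ℝ) + 1
  have hC : 0 < C := by positivity
  have h4 : ∀ᶠ n in U, ∀ x, |v n x - (q0 : R) x| ≤ 2 * (ε / 5) := by
    filter_upwards [Metric.tendsto_nhds.1 (show Tendsto q U (𝓝 q0) from hq) (ε / 5 / C)
      (by positivity)] with n hn x
    rw [dist_eq_norm, lt_div_iff₀ hC] at hn
    have h5 : |proj N (v n) x - (q0 : R) x| ≤ ‖q n - q0‖ * C := by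
      refine abs_le.2 (abs_le_of_sq_le_sq' ((V_sq_le (q n - q0).2 x).trans ?_) (by positivity))
      rw [mul_pow, mul_comm]
      refine mul_le_mul_of_nonneg_left ?_ (sq_nonneg _)
      have h6 := Real.sq_sqrt (Nat.cast_nonneg (α := ℝ) (Module.finrank ℝ (V N)))
      have h7 := Real.sqrt_nonneg (Module.finrank ℝ (V N) : ℝ)
      simp only [C]; nlinarith
    have h8 := abs_sub_le (v n x) (proj N (v n) x) ((q0 : R) x)
    have := h2 n x
    linarith
  have h9 : ∀ x, |g x - (q0 : R) x| ≤ 2 * (ε / 5) := fun x =>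
    le_of_tendsto ((hg x).sub_const _).abs (h4.mono fun n hn => hn x)
  filter_upwards [h4] with n hn x
  have h10 := abs_sub_le (g x) ((q0 : R) x) (v n x)
  rw [abs_sub_comm ((q0 : R) x)] at h10
  have := hn x
  have := h9 x
  rw [Real.dist_eq]
  linarith

/-- the dual frame -/
def L (i : Fin 3) (y : E4) : E4 →L[ℝ] ℝ := (‖y‖ ^ 2)⁻¹ • innerSL ℝ (mat (eM i) y)

theorem L_apply (i : Fin 3) (y v : E4) : L i y v = (‖y‖ ^ 2)⁻¹ * ⟪mat (eM i) y, v⟫ := rfl

theorem L_smooth (i : Fin 3) {y : E4} (hy : y ≠ 0) : ContDiffAt ℝ ∞ (L i) y :=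
  (((contDiffAt_norm ℝ hy).pow 2).inv (pow_ne_zero 2 (norm_ne_zero_iff.2 hy))).smul
    ((innerSL ℝ (E := E4)).contDiff.comp (mat (eM i)).contDiff).contDiffAt

theorem L_frame (i j : Fin 3) (x : S3) : L i x (mat (eM j) x) = if i = j then 1 else 0 := by
  have h := EuclideanSpace.real_norm_sq_eq (x : E4)
  rw [S3.norm, Fin.sum_univ_four] at h
  rw [L_apply, S3.norm, PiLp.inner_apply]
  fin_cases i <;> fin_cases j <;>
    simp [mat, eM, Fin.sum_univ_four, Matrix.mulVec, dotProduct] <;> linarith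

theorem frame_dec (y v : E4) :
    (‖y‖ ^ 2) • v = ⟪y, v⟫ • y + ∑ i, ⟪mat (eM i) y, v⟫ • mat (eM i) y := by
  rw [EuclideanSpace.real_norm_sq_eq]
  ext k
  fin_cases k <;>
    simp [mat, eM, PiLp.inner_apply, Fin.sum_univ_four, Fin.sum_univ_three, Matrix.mulVec,
      dotProduct] <;> ring

theorem fderiv_radial (u : R) {y : E4} (hy : y ≠ 0) : fderiv ℝ (hom u) y y = 0 := by
  have h1 : HasDerivAt (fun t : ℝ => t • y) y 1 := by
    simpa using (hasDerivAt_id (1 : ℝ)).smul_const y
  have h2 := (u.diff hy).hasFDerivAt.comp_hasDerivAt_of_eq 1 h1 (one_smul ℝ y).symm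
  have h3 : (hom u ∘ fun t : ℝ => t • y) =ᶠ[𝓝 1] fun _ => hom u y := by
    filter_upwards [lt_mem_nhds (zero_lt_one' ℝ)] with t ht
    simp [hom, pr_smul ht]
  exact h2.unique ((hasDerivAt_const _ _).congr_of_eventuallyEq h3)

theorem fderiv_frame (u : R) {y : E4} (hy : y ≠ 0) :
    fderiv ℝ (hom u) y = ∑ i, hom (E i u) y • L i y := by
  ext v
  have h0 : ‖y‖ ^ 2 ≠ 0 := pow_ne_zero 2 (norm_ne_zero_iff.2 hy)
  have h := congrArg (fderiv ℝ (hom u) y) (frame_dec y v)
  have h1 : ∀ i, fderiv ℝ (hom u) y (mat (eM i) y) = hom (E i u) y :=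
    fun i => (hom_D (mat (eM i)) u hy).symm
  simp only [map_smul, map_add, fderiv_radial u hy, h1, smul_eq_mul, Fin.sum_univ_three]
    at h
  simp only [Fin.sum_univ_three, add_apply, smul_apply, L_apply, smul_eq_mul]
  field_simp
  linarith

theorem hasFDerivAt_lim {ι : Type*} {l : Filter ι} [l.NeBot] {v : ι → R} {g : S3 → ℝ}
    {g' : Fin 3 → S3 → ℝ} (h : TendstoUniformly (fun n => (v n : S3 → ℝ)) g l)
    (h' : ∀ i, TendstoUniformly (fun n => (E i (v n) : S3 → ℝ)) (g' i) l) {x : E4} (hx : x ≠ 0) :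
    HasFDerivAt (hom g) (∑ i, hom (g' i) x • L i x) x := by
  have hr : 0 < ‖x‖ / 2 := by have := norm_pos_iff.2 hx; positivity
  have hs : ∀ y ∈ Metric.closedBall x (‖x‖ / 2), y ≠ 0 := by
    rintro y hy rfl
    rw [Metric.mem_closedBall, dist_zero_left] at hy
    linarith
  have hb : ∀ i, ∃ K, ∀ y ∈ Metric.closedBall x (‖x‖ / 2), ‖L i y‖ ≤ K := fun i =>
    (isCompact_closedBall x _).exists_bound_of_continuousOn fun y hy =>
      (L_smooth i (hs y hy)).continuousAt.continuousWithinAt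
  choose K hK using hb
  have hK0 : ∀ i, 0 ≤ K i := fun i =>
    (norm_nonneg _).trans (hK i x (Metric.mem_closedBall_self hr.le))
  refine hasFDerivAt_of_tendstoUniformlyOn (l := l) (s := Metric.ball x (‖x‖ / 2))
    (f := fun n => hom (v n)) (f' := fun n y => ∑ i, hom (E i (v n)) y • L i y)
    (g' := fun y => ∑ i, hom (g' i) y • L i y) Metric.isOpen_ball ?_ ?_ ?_
    (Metric.mem_ball_self hr)
  · refine Metric.tendstoUniformlyOn_iff.2 fun ε hε => ?_
    have hS : 0 < ∑ i, K i + 1 := by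
      have := Finset.sum_nonneg fun i (_ : i ∈ Finset.univ) => hK0 i
      linarith
    filter_upwards [eventually_all.2 fun i => Metric.tendstoUniformly_iff.1 (h' i)
      (ε / (∑ i, K i + 1)) (by positivity)] with n hn y hy
    rw [dist_eq_norm, ← Finset.sum_sub_distrib]
    calc ‖∑ i, (hom (g' i) y • L i y - hom (E i (v n)) y • L i y)‖
        ≤ ∑ i, ε / (∑ i, K i + 1) * K i := by
          refine norm_sum_le_of_le _ fun i _ => ?_
          refine ((congrArg norm (sub_smul _ _ (L i y)).symm).trans (norm_smul _ _)).trans_le ?_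
          exact mul_le_mul (hn i (pr y)).le (hK i y (Metric.ball_subset_closedBall hy))
            (norm_nonneg _) (by positivity)
      _ < ε := by
          rw [← Finset.mul_sum, div_mul_eq_mul_div, div_lt_iff₀ hS]
          nlinarith
  · intro n y hy
    have hy0 := hs y (Metric.ball_subset_closedBall hy)
    rw [← fderiv_frame _ hy0]
    exact ((v n).diff hy0).hasFDerivAt
  · exact fun y _ => h.tendsto_at (pr y)

end Lim

open Lim in
/-- uniform limits of all words come from a smooth function -/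
theorem smooth_of_unif {ι : Type*} {l : Filter ι} [l.NeBot] {w : ι → R}
    {g : List (Fin 3) → S3 → ℝ}
    (h : ∀ J, TendstoUniformly (fun n => (W J (w n) : S3 → ℝ)) (g J) l) :
    ∃ w0 : R, ∀ J, (W J w0 : S3 → ℝ) = g J := by
  have hd : ∀ J {x : E4}, x ≠ 0 → HasFDerivAt (hom (g J)) (∑ i, hom (g (i :: J)) x • L i x) x :=
    fun J _ hx => hasFDerivAt_lim (h J) (fun i => h (i :: J)) hx
  have hO : IsOpen {x : E4 | x ≠ 0} := isOpen_ne
  have hk : ∀ (k : ℕ) J, ContDiffOn ℝ k (hom (g J)) {x : E4 | x ≠ 0} := by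
    intro k
    induction k with
    | zero =>
      exact fun J => contDiffOn_zero.2 fun x hx => (hd J hx).continuousAt.continuousWithinAt
    | succ k ih =>
      intro J
      rw [Nat.cast_succ, contDiffOn_succ_iff_fderiv_of_isOpen hO]
      refine ⟨fun x hx => (hd J hx).differentiableAt.differentiableWithinAt, by simp, ?_⟩
      refine ContDiffOn.congr (f := fun x => ∑ i, hom (g (i :: J)) x • L i x) ?_
        fun x hx => (hd J hx).fderiv
      exact ContDiffOn.sum fun i _ => (ih (i :: J)).smul fun x hx =>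
        ((L_smooth i hx).of_le (by exact_mod_cast le_top)).contDiffWithinAt
  let u : List (Fin 3) → R := fun J => Subtype.mk (g J) fun x hx =>
    (contDiffOn_infty.2 fun k => hk k J).contDiffAt (hO.mem_nhds hx)
  have hu : ∀ J i, E i (u J) = u (i :: J) := fun J i => R.ext fun x => by
    change fderiv ℝ (hom (g J)) x (mat (eM i) x) = g (i :: J) x
    rw [(hd J (S3.ne x)).fderiv]
    simp [L_frame]
  refine ⟨u [], fun J => ?_⟩
  have e : W J (u []) = u J := by
    induction J with
    | nil => rfl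
    | cons i J ih => rw [W, ih, hu]
  rw [e]

/-- sequences that are bounded in all Sobolev norms converge along every ultrafilter -/
theorem exists_limit {ι : Type*} (w : ι → R) (hw : ∀ k, ∃ M, ∀ n, P k (w n) ≤ M)
    (U : Ultrafilter ι) : ∃ w0 : R, ∀ J : List (Fin 3),
      TendstoUniformly (fun n => (W J (w n) : S3 → ℝ)) (W J w0 : S3 → ℝ) U := by
  have h : ∀ J : List (Fin 3), ∃ g : S3 → ℝ,
      TendstoUniformly (fun n => (W J (w n) : S3 → ℝ)) g U := fun J => by
    obtain ⟨M, hM⟩ := hw (2 + J.length)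
    exact Lim.exists_unif (fun n => (Lim.P_W J 2 (w n)).trans (hM n)) U
  choose g hg using h
  obtain ⟨w0, h0⟩ := smooth_of_unif hg
  exact ⟨w0, fun J => by rw [h0]; exact hg J⟩

end Pool.Agent.MP_48470b_gt.Sph
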