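import Pool.Agent.MP_48470b_gt.Sph.S4a
import Pool.Agent.MP_48470b_gt.Sph.Lim

/-! Solvability of linear elliptic equations among invariant smooth functions. -/

open scoped RealInnerProductSpace ContDiff Topology
open MeasureTheory Filter

noncomputable section

namespace Pool.Agent.MP_48470b_gt.Sph

theorem tendsto_norm_of_unif {σ : Type} {w : σ → R} {w0 : R} {U : Filter σ}
    (h : TendstoUniformly (fun s => (w s : S3 → ℝ)) w0 U) : Tendsto w U (𝓝 w0) := by
  rw [Metric.tendsto_nhds]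
  intro ε hε
  filter_upwards [Metric.tendstoUniformly_iff.1 h (ε / 2) (by positivity)] with s hs
  rw [dist_comm, dist_eq_norm]
  exact (norm_le_of_abs_le (by positivity) fun x => (hs x).le).trans_lt (half_lt_self hε)

theorem act_act_symm4 (g : E4 ≃ₗᵢ[ℝ] E4) (p : R) : act g (act g.symm p) = p :=
  R.ext fun x => by
    rw [act_apply, act_apply]
    exact congrArg (fun y : S3 => p y) (Subtype.ext (g.symm_apply_apply x))

/-- invariant functions -/
def invSub (G : Set (E4 ≃ₗᵢ[ℝ] E4)) : Submodule ℝ R where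
  carrier := {u | ∀ g ∈ G, act g u = u}
  add_mem' := fun ha hb g hg => by rw [map_add, ha g hg, hb g hg]
  zero_mem' := fun g _ => map_zero _
  smul_mem' := fun c _ ha g hg => by rw [map_smul, ha g hg]

theorem galerkin (G : Set (E4 ≃ₗᵢ[ℝ] E4)) (L : R →ₗ[ℝ] R)
    (hL : ∀ u ∈ invSub G, L u ∈ invSub G) {h : R} (hh : h ∈ invSub G) (N : ℕ) :
    ∃ (t : ℝ) (w : R), 0 ≤ t ∧ t + ‖w‖ = 1 ∧ w ∈ V N ∧ w ∈ invSub G ∧
      ∀ p ∈ V N, ⟪L w - t • h, p⟫ = 0 := by
  have : CompleteSpace (V N) := FiniteDimensional.complete ℝ (V N)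
  let Q : R →ₗ[ℝ] R := ((V N).starProjection : R →L[ℝ] R)
  have Q1 : ∀ z, Q z ∈ V N := fun z => (V N).starProjection_apply_mem z
  have Q2 : ∀ z, ∀ p ∈ V N, ⟪z - Q z, p⟫ = 0 := fun z => (V N).starProjection_inner_eq_zero z
  have Q3 : ∀ z ∈ invSub G, Q z ∈ invSub G := fun z hz g hg => by
    refine (Submodule.eq_starProjection_of_mem_of_inner_eq_zero (act_mem_V g (Q1 z))
      fun p hp => ?_).symm
    have h1 := Q2 z _ (act_mem_V g.symm hp)
    rw [← inner_act g, act_act_symm4, map_sub, hz g hg] at h1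
    exact h1
  have Q4 : ∀ z, Q z = 0 → ∀ p ∈ V N, ⟪z, p⟫ = 0 := fun z hz p hp => by
    simpa [hz] using Q2 z p hp
  let U : Submodule ℝ R := V N ⊓ invSub G
  have : FiniteDimensional ℝ U := Submodule.finiteDimensional_inf_left _ _
  have hU : ∀ u ∈ U, (Q ∘ₗ L) u ∈ U := fun u hu => ⟨Q1 _, Q3 _ (hL u hu.2)⟩
  by_cases hi : Function.Injective ((Q ∘ₗ L).restrict hU)
  · obtain ⟨u, hu⟩ := LinearMap.injective_iff_surjective.1 hi ⟨Q h, Q1 _, Q3 _ hh⟩
    have hu' : Q (L u) = Q h := congrArg (fun y : U => (y : R)) hu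
    have h0 : 0 < 1 + ‖(u : R)‖ := by positivity
    refine ⟨(1 + ‖(u : R)‖)⁻¹, (1 + ‖(u : R)‖)⁻¹ • (u : R), by positivity, ?_,
      (V N).smul_mem _ u.2.1, (invSub G).smul_mem _ u.2.2, Q4 _ ?_⟩
    · rw [norm_smul, Real.norm_of_nonneg (by positivity)]
      field_simp
    · simp only [map_sub, map_smul, hu', sub_self]
  · rw [← LinearMap.ker_eq_bot, Submodule.eq_bot_iff] at hi
    push Not at hi
    obtain ⟨u, hu, hu0⟩ := hi
    have hu' : Q (L u) = 0 := congrArg (fun y : U => (y : R)) (LinearMap.mem_ker.1 hu)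
    have h0 : ‖(u : R)‖ ≠ 0 := norm_ne_zero_iff.2 fun h => hu0 (Subtype.ext h)
    refine ⟨0, ‖(u : R)‖⁻¹ • (u : R), le_rfl, ?_, (V N).smul_mem _ u.2.1,
      (invSub G).smul_mem _ u.2.2, Q4 _ ?_⟩
    · rw [norm_smul, norm_inv, norm_norm, zero_add, inv_mul_cancel₀ h0]
    · simp only [map_sub, map_smul, hu', zero_smul, smul_zero, map_zero, sub_self]

/-- an operator of second order in divergence form -/
def Lop (al : Fin 3 → Fin 3 → R) (be : Fin 3 → R) (ga : R) : R →ₗ[ℝ] R where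
  toFun u := ∑ i, E i (∑ j, al i j * E j u) + (∑ i, be i * E i u + ga * u)
  map_add' u v := by
    simp only [map_add, mul_add, Finset.sum_add_distrib]; ring
  map_smul' c u := by
    simp only [Derivation.map_smul, mul_smul_comm, ← Finset.smul_sum, smul_add, RingHom.id_apply]

theorem Lop_apply (al : Fin 3 → Fin 3 → R) (be : Fin 3 → R) (ga u : R) :
    Lop al be ga u = ∑ i, E i (∑ j, al i j * E j u) + (∑ i, be i * E i u + ga * u) := rfl

theorem inner_mul_left (c u v : R) : ⟪c * u, v⟫ = ⟪u, c * v⟫ := by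
  rw [inner_def, inner_def]; congr 1; ring

theorem inner_Lop (al : Fin 3 → Fin 3 → R) (be : Fin 3 → R) (ga u p : R) :
    ⟪Lop al be ga u, p⟫ = -∑ i, ∑ j, ⟪E j u, al i j * E i p⟫
      + (∑ i, ⟪E i u, be i * p⟫ + ⟪u, ga * p⟫) := by
  simp only [Lop_apply, inner_add_left, sum_inner, pre_ibpE, inner_mul_left,
    Finset.sum_neg_distrib]

/-- linear solvability from injectivity -/
theorem solve (G : Set (E4 ≃ₗᵢ[ℝ] E4)) {al : Fin 3 → Fin 3 → R} {be : Fin 3 → R} {ga : R}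
    {lam : ℝ} (hl : 0 < lam)
    (hal : ∀ (x : S3) (ξ : Fin 3 → ℝ), lam * ∑ i, ξ i ^ 2 ≤ ∑ i, ∑ j, al i j x * ξ i * ξ j)
    (hL : ∀ u ∈ invSub G, Lop al be ga u ∈ invSub G)
    (hi : ∀ u ∈ invSub G, Lop al be ga u = 0 → u = 0) {h : R} (hh : h ∈ invSub G) :
    ∃ u ∈ invSub G, Lop al be ga u = h := by
  choose t w t0 t1 wV wG he using galerkin G (Lop al be ga) hL hh
  have ht : ∀ N, t N ≤ 1 := fun N => by linarith [t1 N, norm_nonneg (w N)]
  have b0 : Bd 0 w := ⟨1, fun N => pow_le_one₀ (norm_nonneg _) (by linarith [t1 N, t0 N])⟩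
  have hb : ∀ k, Bd k w := fun k => by
    refine (ell_est (be := be) (ga := ga) hl hal id k w (fun N => t N • h) (fun _ _ => 0) wV
      (fun N p hp => ?_) b0 (Bd.rsmul (fun N => by rw [abs_of_nonneg (t0 N)]; exact ht N) h)
      (fun _ => Bd.const _ _)).pred
    have h1 := he N p hp
    rw [Lop_apply, add_sub_assoc, inner_add_left, sum_inner] at h1
    simp only [pre_ibpE _ _ p, Finset.sum_neg_distrib] at h1
    simp only [sub_zero]
    linarith
  obtain ⟨w0, hw⟩ := exists_limit w hb (hyperfilter ℕ)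
  obtain ⟨s, -, hs⟩ := (isCompact_Icc (a := (0 : ℝ)) (b := 1)).ultrafilter_le_nhds
    ((hyperfilter ℕ).map t)
    (by rw [Ultrafilter.coe_map, le_principal_iff, mem_map]
        exact Eventually.of_forall fun N => ⟨t0 N, ht N⟩)
  have hs' : Tendsto t (hyperfilter ℕ) (𝓝 s) := hs
  have c0 : Tendsto w (hyperfilter ℕ) (𝓝 w0) := tendsto_norm_of_unif (hw [])
  have c1 : ∀ i, Tendsto (fun N => E i (w N)) (hyperfilter ℕ) (𝓝 (E i w0)) := fun i =>
    tendsto_norm_of_unif (hw [i])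
  have e1 : s + ‖w0‖ = 1 :=
    tendsto_nhds_unique (hs'.add c0.norm) (by simp only [t1]; exact tendsto_const_nhds)
  have e2 : w0 ∈ invSub G := fun g hg => R.ext fun x => by
    have a1 : Tendsto (fun N => w N (sph g x)) _ (𝓝 (w0 (sph g x))) := (hw []).tendsto_at _
    have a2 : Tendsto (fun N => w N x) _ (𝓝 (w0 x)) := (hw []).tendsto_at _
    have a3 : ∀ N, w N (sph g x) = w N x := fun N => by rw [← act_apply, wG N g hg]
    simp only [a3] at a1
    rw [act_apply]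
    exact tendsto_nhds_unique a1 a2
  have e3 : Lop al be ga w0 - s • h = 0 := pre_dense fun M p hp => by
    have a1 : Tendsto (fun N => ⟪Lop al be ga (w N) - t N • h, p⟫) (hyperfilter ℕ)
        (𝓝 ⟪Lop al be ga w0 - s • h, p⟫) := by
      simp only [inner_sub_left, inner_Lop]
      exact ((tendsto_finsetSum _ fun i _ => tendsto_finsetSum _ fun j _ =>
        (c1 j).inner tendsto_const_nhds).neg.add ((tendsto_finsetSum _ fun i _ =>
        (c1 i).inner tendsto_const_nhds).add (c0.inner tendsto_const_nhds))).sub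
        ((hs'.smul_const h).inner tendsto_const_nhds)
    refine tendsto_nhds_unique a1 (tendsto_const_nhds.congr' ?_)
    filter_upwards [Nat.hyperfilter_le_atTop (eventually_ge_atTop M)] with N hN
    exact (he N p (V_mono hN hp)).symm
  have hs0 : s ≠ 0 := fun h0 => by
    rw [h0, zero_smul, sub_zero] at e3
    rw [h0, hi w0 e2 e3] at e1
    simp at e1
  refine ⟨s⁻¹ • w0, (invSub G).smul_mem _ e2, ?_⟩
  rw [map_smul, sub_eq_zero.1 e3, smul_smul, inv_mul_cancel₀ hs0, one_smul]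

/-- the same for an operator that is known through its weak form -/
theorem solve_weak (G : Set (E4 ≃ₗᵢ[ℝ] E4)) (L : R →ₗ[ℝ] R) {al : Fin 3 → Fin 3 → R}
    {be : Fin 3 → R} {ga : R} {lam : ℝ} (hl : 0 < lam)
    (hal : ∀ (x : S3) (ξ : Fin 3 → ℝ), lam * ∑ i, ξ i ^ 2 ≤ ∑ i, ∑ j, al i j x * ξ i * ξ j)
    (hw : ∀ u, L u = ∑ i, ∑ j, al i j * E i (E j u) + (∑ i, be i * E i u + ga * u))
    (hL : ∀ u ∈ invSub G, L u ∈ invSub G)
    (hi : ∀ u ∈ invSub G, L u = 0 → u = 0) {h : R} (hh : h ∈ invSub G) :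
    ∃ u ∈ invSub G, L u = h := by
  have e : L = Lop al (fun j => be j - ∑ i, E i (al i j)) ga := LinearMap.ext fun u => by
    rw [hw, Lop_apply]
    simp only [Fin.sum_univ_three, map_add, Derivation.leibniz, smul_eq_mul]
    ring
  rw [e] at hL hi ⊢
  exact solve G hl hal hL hi hh

/-- pointwise positivity gives a uniform ellipticity constant -/
theorem exists_lam {al : Fin 3 → Fin 3 → R}
    (h : ∀ (x : S3) (ξ : Fin 3 → ℝ), ξ ≠ 0 → 0 < ∑ i, ∑ j, al i j x * ξ i * ξ j) :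
    ∃ lam : ℝ, 0 < lam ∧
      ∀ (x : S3) (ξ : Fin 3 → ℝ), lam * ∑ i, ξ i ^ 2 ≤ ∑ i, ∑ j, al i j x * ξ i * ξ j := by
  let φ : S3 × (Fin 3 → ℝ) → ℝ := fun q => ∑ i, ∑ j, al i j q.1 * q.2 i * q.2 j
  have hc : Continuous φ := continuous_finsetSum _ fun i _ => continuous_finsetSum _ fun j _ =>
    (((al i j).continuous.comp continuous_fst).mul
      ((continuous_apply i).comp continuous_snd)).mul ((continuous_apply j).comp continuous_snd)
  have hK : IsCompact ((Set.univ : Set S3) ×ˢ Metric.sphere (0 : Fin 3 → ℝ) 1) :=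
    isCompact_univ.prod (isCompact_sphere _ _)
  obtain ⟨q, hq, hm⟩ := hK.exists_isMinOn
    ⟨(pr 0, fun _ => 1), trivial, by simp⟩ hc.continuousOn
  have hq0 : 0 < φ q := h _ _ (ne_zero_of_mem_sphere one_ne_zero ⟨q.2, hq.2⟩)
  refine ⟨φ q / 3, by positivity, fun x ξ => ?_⟩
  by_cases h0 : ξ = 0
  · simp [h0]
  have hn : 0 < ‖ξ‖ := norm_pos_iff.2 h0
  have h1 : φ q ≤ φ (x, ‖ξ‖⁻¹ • ξ) :=
    hm (a := (x, ‖ξ‖⁻¹ • ξ)) ⟨trivial, by simp [norm_smul, hn.ne']⟩
  have h2 : φ (x, ‖ξ‖⁻¹ • ξ) * ‖ξ‖ ^ 2 = ∑ i, ∑ j, al i j x * ξ i * ξ j := by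
    simp only [φ, Finset.sum_mul, Pi.smul_apply, smul_eq_mul]
    refine Finset.sum_congr rfl fun i _ => Finset.sum_congr rfl fun j _ => ?_
    field_simp
  have h3 : ∑ i, ξ i ^ 2 ≤ 3 * ‖ξ‖ ^ 2 := by
    have h4 : ∀ i, ξ i ^ 2 ≤ ‖ξ‖ ^ 2 := fun i => by
      rw [← sq_abs]; exact pow_le_pow_left₀ (abs_nonneg _) (norm_le_pi_norm ξ i) 2
    rw [Fin.sum_univ_three]
    linarith [h4 0, h4 1, h4 2]
  rw [← h2]
  nlinarith [mul_le_mul_of_nonneg_right h1 (sq_nonneg ‖ξ‖)]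

end Pool.Agent.MP_48470b_gt.Sph
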