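import Pool.Agent.MP_48470b_gt.Sph.S2b

/-! Sup bounds through the reproducing kernel of the spherical harmonics. -/

open scoped RealInnerProductSpace ContDiff
open MeasureTheory Filter Topology

noncomputable section

namespace Pool.Agent.MP_48470b_gt.Sph

theorem exists_sph (x y : S3) : ∃ g : E4 ≃ₗᵢ[ℝ] E4, sph g x = y :=
  ⟨Submodule.reflection (ℝ ∙ ((x : E4) - y))ᗮ,
    Subtype.ext (Submodule.reflection_sub (by rw [S3.norm, S3.norm]))⟩

/-- values of functions in an invariant finite dimensional space -/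
theorem kernel_bound (K : Submodule ℝ R) [FiniteDimensional ℝ K]
    (hK : ∀ g, ∀ w ∈ K, act g w ∈ K) {w : R} (hw : w ∈ K) (x : S3) :
    w x ^ 2 ≤ (Module.finrank ℝ K : ℝ) * ‖w‖ ^ 2 := by
  let b := stdOrthonormalBasis ℝ K
  let k : R := ∑ j, (b j : R) ^ 2
  have hk : ∀ y, k y = ∑ j, (b j : R) y ^ 2 := fun y => by simp [k]
  have hk0 : ∀ y, 0 ≤ k y := fun y => by rw [hk]; positivity
  have h1 : ∀ v ∈ K, ∀ y, v y ^ 2 ≤ k y * ‖v‖ ^ 2 := by
    intro v hv y
    have e := congrArg (fun t : K => (t : R) y) (b.sum_repr' ⟨v, hv⟩)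
    simp only [Submodule.coe_sum, Submodule.coe_smul, R.sum_apply, R.smul_apply] at e
    have e2 := b.sum_sq_inner_right ⟨v, hv⟩
    have e3 : ‖(⟨v, hv⟩ : K)‖ = ‖v‖ := rfl
    rw [← e, hk, ← e3, ← e2, mul_comm]
    exact Finset.sum_mul_sq_le_sq_mul_sq _ _ _
  have h2 : ∀ y z, k y ≤ k z := by
    intro y z
    obtain ⟨g, hg⟩ := exists_sph z y
    let v : K := ∑ j, (b j : R) y • b j
    have hv : (v : R) y = k y := by simp [v, hk, sq]
    have hn : ‖(v : R)‖ ^ 2 = k y := by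
      change ‖v‖ ^ 2 = _
      rw [← b.sum_sq_inner_right v, hk]
      refine Finset.sum_congr rfl fun j _ => ?_
      rw [b.orthonormal.inner_right_fintype]
    have h3 := h1 _ (hK g _ v.2) z
    rw [act_apply, hg, hv, norm_act, hn] at h3
    rcases (hk0 y).eq_or_lt with h | h
    · rw [← h]; exact hk0 z
    · nlinarith
  have h4 : I k = Module.finrank ℝ K := by
    simp only [k, map_sum, ← norm_sq]
    have : ∀ j, ‖(b j : R)‖ = 1 := fun j => b.orthonormal.1 j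
    simp [this]
  have h5 : k x ≤ Module.finrank ℝ K := by
    have h6 : I (k x • (1 : R)) ≤ I k := I_mono fun y => by simpa using h2 x y
    rw [h4] at h6
    simpa using h6
  exact (h1 w hw x).trans (mul_le_mul_of_nonneg_right h5 (sq_nonneg _))

/-- values of a spherical harmonic -/
theorem H_sq_le {l : ℕ} {w : R} (hw : w ∈ H l) (x : S3) :
    w x ^ 2 ≤ ((l : ℝ) + 1) ^ 2 * ‖w‖ ^ 2 := by
  refine (kernel_bound (H l) (fun g w hw => (adm_act g).mem_H hw) hw x).trans ?_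
  have h : (Module.finrank ℝ (H l) : ℝ) ≤ ((l : ℝ) + 1) ^ 2 := by exact_mod_cast finrank_H l
  exact mul_le_mul_of_nonneg_right h (sq_nonneg _)

/-- a uniform bound passes to limits in the mean -/
theorem abs_le_of_tendsto {z : R} {p : ℕ → R} {c : ℝ} (hc : ∀ n x, |p n x| ≤ c)
    (h : Tendsto (fun n => ‖z - p n‖) atTop (𝓝 0)) (x : S3) : |z x| ≤ c := by
  let f : S3 → ℝ := fun y => (max (|z y| - c) 0) ^ 2
  have hf : Continuous f := ((z.continuous.abs.sub continuous_const).max continuous_const).pow 2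
  have hi : Integrable f sig :=
    hf.integrable_of_hasCompactSupport (HasCompactSupport.of_compactSpace _)
  have h0 : 0 ≤ f := fun y => sq_nonneg _
  have h1 : ∀ n, ∫ y, f y ∂sig ≤ ‖z - p n‖ ^ 2 := fun n => by
    rw [norm_sq, I_def]
    refine integral_mono hi (R.integrable _) fun y => ?_
    have h2 := hc n y
    have h3 := abs_sub_abs_le_abs_sub (z y) (p n y)
    simp only [f, R.pow_apply, R.sub_apply]
    rw [← sq_abs (z y - p n y)]
    exact pow_le_pow_left₀ (le_max_right _ _) (max_le (by linarith) (abs_nonneg _)) 2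
  have h4 : ∫ y, f y ∂sig ≤ 0 := ge_of_tendsto' (by simpa using h.pow 2) h1
  have h5 := (integral_eq_zero_iff_of_nonneg h0 hi).1 (le_antisymm h4 (integral_nonneg h0))
  have h6 := congrFun ((Continuous.ae_eq_iff_eq sig hf continuous_zero).1 h5) x
  have h7 : max (|z x| - c) 0 = 0 := pow_eq_zero_iff two_ne_zero |>.1 h6
  have := le_max_left (|z x| - c) 0
  linarith

/-- the general sup bound -/
theorem Spec.sup {Q : R → ℝ} (hQ : Spec Q) {z : R} {a : ℕ → ℝ} {S : ℝ} (ha : ∀ l, 0 ≤ a l)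
    (h : ∀ l : ℕ, ((l : ℝ) + 1) ^ 2 * ‖har l z‖ ^ 2 ≤ a l * Q (har l z))
    (hS : ∀ N, ∑ l ∈ Finset.range (N + 1), a l ≤ S) (x : S3) : z x ^ 2 ≤ S * Q z := by
  have hS0 : 0 ≤ S := (Finset.sum_nonneg fun l _ => ha l).trans (hS 0)
  have h0 : 0 ≤ S * Q z := mul_nonneg hS0 (hQ.nonneg z)
  refine (Real.sq_le h0).2 (abs_le.1 (abs_le_of_tendsto (fun N y => Real.abs_le_sqrt ?_)
    (tendsto_proj z) x))
  have h1 := Finset.sum_sq_le_sum_mul_sum_of_sq_le_mul (Finset.range (N + 1))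
    (r := fun l => har l z y) (fun l _ => ha l) (fun l _ => hQ.nonneg (har l z))
    fun l _ => (H_sq_le (har_mem l z) y).trans (h l)
  rw [← hQ.proj_sum, ← R.sum_apply, ← proj_eq_sum] at h1
  exact h1.trans (mul_le_mul (hS N) (hQ.proj_le N z) (hQ.nonneg _) hS0)

/-- the sup bound for functions whose components lie in a set `T` of degrees -/
theorem Spec.sup_on {Q : R → ℝ} (hQ : Spec Q) (T : ℕ → Prop) [DecidablePred T] {μ : ℕ → ℝ}
    (hμ : ∀ l, T l → 0 < μ l) (hQμ : ∀ l, T l → ∀ w ∈ H l, μ l * ‖w‖ ^ 2 ≤ Q w) {S : ℝ}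
    (hS : ∀ N, ∑ l ∈ Finset.range (N + 1), (if T l then ((l : ℝ) + 1) ^ 2 / μ l else 0) ≤ S)
    {z : R} (hz : ∀ l, ¬T l → z ∈ (H l)ᗮ) (x : S3) : z x ^ 2 ≤ S * Q z := by
  refine hQ.sup (fun l => ?_) (fun l => ?_) hS x
  · split_ifs with h
    · have := hμ l h; positivity
    · exact le_rfl
  · split_ifs with h
    · have h1 := hμ l h
      have h2 := hQμ l h _ (har_mem l z)
      calc ((l : ℝ) + 1) ^ 2 * ‖har l z‖ ^ 2
          = ((l : ℝ) + 1) ^ 2 / μ l * (μ l * ‖har l z‖ ^ 2) := by field_simp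
        _ ≤ _ := by gcongr
    · rw [har_eq_zero.2 (hz l h)]; simp

theorem norm_sub_Lap_H (s : ℝ) {l : ℕ} {w : R} (hw : w ∈ H l) :
    ‖s • w - Lap w‖ ^ 2 = (s + l * (l + 2)) ^ 2 * ‖w‖ ^ 2 := by
  have e : s • w - Lap w = (s + l * (l + 2)) • w := by rw [Lap_H hw]; module
  rw [e, norm_smul, mul_pow, Real.norm_eq_abs, sq_abs]

theorem spec_sub_Lap (s : ℝ) : Spec fun u => ‖s • u - Lap u‖ ^ 2 :=
  spec_norm.comp ((Adm.id.smul s).sub adm_Lap)

/-- the sup bound with a parameter -/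
theorem sup_s {s C : ℝ} (hs : 0 < s)
    (hC : ∀ N, ∑ k ∈ Finset.range (N + 1), ((k : ℝ) + 1) ^ 2 / (s + k * (k + 2)) ^ 2 ≤ C)
    (z : R) (x : S3) : z x ^ 2 ≤ C * ‖s • z - Lap z‖ ^ 2 :=
  (spec_sub_Lap s).sup_on (fun _ => True) (μ := fun k => (s + k * (k + 2)) ^ 2)
    (fun _ _ => by positivity) (fun _ _ _ hw => (norm_sub_Lap_H s hw).ge) (by simpa using hC)
    (fun _ h => absurd trivial h) x

theorem sum_inv_sq_le (N : ℕ) :
    ∑ l ∈ Finset.range (N + 1), 1 / ((l : ℝ) + 1) ^ 2 ≤ Real.pi ^ 2 / 6 := by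
  have h := sum_le_hasSum (Finset.range (N + 2)) (fun i _ => by positivity) hasSum_zeta_two
  rw [Finset.sum_range_succ'] at h
  simpa using h

/-- the sup bound by the second Sobolev norm -/
theorem sup_P (z : R) (x : S3) : z x ^ 2 ≤ Real.pi ^ 2 / 6 * P 2 z :=
  (spec_P 2).sup (a := fun l => 1 / ((l : ℝ) + 1) ^ 2) (fun _ => by positivity)
    (fun l => by rw [P_H 2 (har_mem l z)]; exact le_of_eq (by field_simp; ring)) sum_inv_sq_le x

theorem sup_P' (z : R) (x : S3) : z x ^ 2 ≤ 2 * P 2 z := by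
  refine (sup_P z x).trans (mul_le_mul_of_nonneg_right ?_ ((spec_P 2).nonneg z))
  nlinarith [Real.pi_lt_d2, Real.pi_pos]

theorem sum_tail_le (N M : ℕ) :
    ∑ l ∈ Finset.range (M + 1), (if N < l then 1 / ((l : ℝ) + 1) ^ 2 else 0) ≤
      1 / ((N : ℝ) + 1) - 1 / (((max N M : ℕ) : ℝ) + 1) := by
  induction M with
  | zero => simp
  | succ M ih =>
    rw [Finset.sum_range_succ]
    split_ifs with h
    · rw [max_eq_right (by omega : N ≤ M)] at ih
      rw [max_eq_right (by omega : N ≤ M + 1)]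
      have h1 : 1 / (((M + 1 : ℕ) : ℝ) + 1) ^ 2 ≤
          1 / ((M : ℝ) + 1) - 1 / (((M + 1 : ℕ) : ℝ) + 1) := by
        push_cast
        rw [div_sub_div _ _ (by positivity) (by positivity), div_le_div_iff₀ (by positivity)
          (by positivity)]
        nlinarith [(Nat.cast_nonneg M : (0 : ℝ) ≤ M)]
      linarith
    · rw [max_eq_left (by omega : M ≤ N)] at ih
      rw [max_eq_left (by omega : M + 1 ≤ N)]
      linarith

/-- the sup bound on the complement of the polynomials -/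
theorem sup_orth {N : ℕ} {z : R} (hz : z ∈ (V N)ᗮ) (x : S3) :
    z x ^ 2 ≤ 1 / ((N : ℝ) + 1) * P 2 z := by
  refine (spec_P 2).sup (a := fun l => if N < l then 1 / ((l : ℝ) + 1) ^ 2 else 0)
    (fun l => by split_ifs <;> positivity) (fun l => ?_) (fun M => ?_) x
  · split_ifs with h
    · rw [P_H 2 (har_mem l z)]; exact le_of_eq (by field_simp; ring)
    · rw [har_eq_zero_of_orth hz (not_lt.1 h)]; simp
  · have := sum_tail_le N M
    have h2 : 0 ≤ 1 / (((max N M : ℕ) : ℝ) + 1) := by positivity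
    linarith

theorem sup_sub_proj (N : ℕ) (z : R) (x : S3) :
    (z x - proj N z x) ^ 2 ≤ 1 / ((N : ℝ) + 1) * P 2 z :=
  (sup_orth (sub_proj_mem N z) x).trans
    (mul_le_mul_of_nonneg_left ((spec_P 2).sub_proj_le N z) (by positivity))

theorem V_sq_le {N : ℕ} {p : R} (hp : p ∈ V N) (x : S3) :
    p x ^ 2 ≤ (Module.finrank ℝ (V N) : ℝ) * ‖p‖ ^ 2 :=
  kernel_bound (V N) (fun g _ hw => act_mem_V g hw) hp x

/-- the sup bound with a small factor in front of the second Sobolev norm -/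
theorem sup_eta {η : ℝ} (hη : 0 < η) :
    ∃ C : ℝ, 0 ≤ C ∧ ∀ (z : R) (x : S3), |z x| ≤ η * √(P 2 z) + C * ‖z‖ := by
  obtain ⟨N, hN⟩ := exists_nat_one_div_lt (pow_pos hη 2)
  refine ⟨√(Module.finrank ℝ (V N) : ℝ), Real.sqrt_nonneg _, fun z x => ?_⟩
  have hP := (spec_P 2).nonneg z
  have h1 : |z x - proj N z x| ≤ η * √(P 2 z) := by
    refine abs_le_of_sq_le_sq' ?_ (by positivity) |> abs_le.2
    rw [mul_pow, Real.sq_sqrt hP]
    exact (sup_sub_proj N z x).trans (mul_le_mul_of_nonneg_right hN.le hP)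
  have h2 : |proj N z x| ≤ √(Module.finrank ℝ (V N) : ℝ) * ‖z‖ := by
    refine abs_le_of_sq_le_sq' ?_ (by positivity) |> abs_le.2
    rw [mul_pow, Real.sq_sqrt (Nat.cast_nonneg _)]
    refine (V_sq_le (proj_mem N z) x).trans ?_
    have := norm_proj_le N z
    gcongr
  have h3 := abs_add_le (z x - proj N z x) (proj N z x)
  rw [sub_add_cancel] at h3
  linarith

/-- interpolation between Sobolev norms -/
theorem P_interp (k : ℕ) {η : ℝ} (hη : 0 < η) :
    ∃ C : ℝ, 0 ≤ C ∧ ∀ z : R, P k z ≤ η * P (k + 1) z + C * ‖z‖ ^ 2 := by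
  obtain ⟨N, hN⟩ := exists_nat_one_div_lt hη
  refine ⟨((N : ℝ) + 1) ^ (2 * k), by positivity, fun z => ?_⟩
  refine (spec_P k).le (((spec_P _).smul hη.le).add (spec_norm.smul (by positivity))) fun l => ?_
  rw [P_H _ (har_mem l z), P_H _ (har_mem l z)]
  have h0 : 0 ≤ ‖har l z‖ ^ 2 := sq_nonneg _
  have hl0 : (0 : ℝ) ≤ l := Nat.cast_nonneg l
  rcases le_or_gt l N with hl | hl
  · have h1 : (l : ℝ) ≤ N := by exact_mod_cast hl
    have h2 : ((l : ℝ) + 1) ^ (2 * k) ≤ ((N : ℝ) + 1) ^ (2 * k) := by gcongr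
    have h3 : 0 ≤ η * (((l : ℝ) + 1) ^ (2 * (k + 1)) * ‖har l z‖ ^ 2) := by positivity
    nlinarith
  · have h1 : (N : ℝ) ≤ l := by exact_mod_cast hl.le
    rw [div_lt_iff₀ (by positivity)] at hN
    have h2 : 1 ≤ η * ((l : ℝ) + 1) ^ 2 := by nlinarith [mul_nonneg hη.le hl0]
    have h3 : 0 ≤ ((N : ℝ) + 1) ^ (2 * k) * ‖har l z‖ ^ 2 := by positivity
    have h4 := mul_le_mul_of_nonneg_right h2
      (by positivity : 0 ≤ ((l : ℝ) + 1) ^ (2 * k) * ‖har l z‖ ^ 2)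
    have e : η * (((l : ℝ) + 1) ^ (2 * (k + 1)) * ‖har l z‖ ^ 2) =
        η * ((l : ℝ) + 1) ^ 2 * (((l : ℝ) + 1) ^ (2 * k) * ‖har l z‖ ^ 2) := by ring
    linarith

/-- the fourth power of a derivative, by parts -/
theorem L4_der (T : Derivation ℝ R R) (hT : ∀ u, I (T u) = 0) {g : R} {M : ℝ}
    (hM : ∀ x, |g x| ≤ M) : I (T g ^ 4) ≤ 9 * M ^ 2 * ‖T (T g)‖ ^ 2 := by
  have h1 := hT (g * T g ^ 3)
  have e : T (g * T g ^ 3) = T g ^ 4 + (3 : ℝ) • (T g ^ 2 * (g * T (T g))) := by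
    rw [Derivation.leibniz, Derivation.leibniz_pow]
    ext x
    have h3 : (3 : R) x = 3 := R.ofNat_apply 3 x
    simp [h3]; ring
  rw [e, map_add, map_smul, smul_eq_mul, ← inner_def] at h1
  have h2 := abs_real_inner_le_norm (T g ^ 2) (g * T (T g))
  have h3 : ‖T g ^ 2‖ ^ 2 = I (T g ^ 4) := by rw [norm_sq, ← pow_mul]
  have h4 : ‖g * T (T g)‖ ^ 2 ≤ M ^ 2 * ‖T (T g)‖ ^ 2 := by
    rw [norm_sq, norm_sq, ← smul_eq_mul (M ^ 2), ← map_smul]
    refine I_mono fun x => ?_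
    have := sq_le_sq' (abs_le.1 (hM x)).1 (abs_le.1 (hM x)).2
    simp only [R.pow_apply, R.mul_apply, R.smul_apply, mul_pow]
    exact mul_le_mul_of_nonneg_right this (sq_nonneg _)
  have h5 := neg_abs_le ⟪T g ^ 2, g * T (T g)⟫
  nlinarith [sq_nonneg (‖T g ^ 2‖ - 3 * ‖g * T (T g)‖)]

end Pool.Agent.MP_48470b_gt.Sph
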