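import Pool.Agent.MP_48470b_gt.Sph.Defs

open scoped RealInnerProductSpace ContDiff Manifold Topology
open MeasureTheory Filter

noncomputable section

namespace Pool.Agent.MP_48470b_gt.Sph

/-! The two frames as matrices. -/

/-- the field is tangent to the spheres -/
abbrev Skew (A : E4 →L[ℝ] E4) : Prop := ∀ x, ⟪A x, x⟫ = 0

theorem mat_apply (M : Matrix (Fin 4) (Fin 4) ℝ) (x : E4) (i : Fin 4) :
    mat M x i = ∑ j, M i j * x j := rfl

theorem mat_mul (M N : Matrix (Fin 4) (Fin 4) ℝ) : mat (M * N) = (mat M).comp (mat N) :=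
  map_mul (Matrix.toEuclideanCLM (𝕜 := ℝ)) M N

theorem mat_add (M N : Matrix (Fin 4) (Fin 4) ℝ) : mat (M + N) = mat M + mat N :=
  map_add (Matrix.toEuclideanCLM (𝕜 := ℝ)) M N

theorem mat_sub (M N : Matrix (Fin 4) (Fin 4) ℝ) : mat (M - N) = mat M - mat N :=
  map_sub (Matrix.toEuclideanCLM (𝕜 := ℝ)) M N

theorem mat_smul (c : ℝ) (M : Matrix (Fin 4) (Fin 4) ℝ) : mat (c • M) = c • mat M :=
  map_smul (Matrix.toEuclideanCLM (𝕜 := ℝ)) c M

theorem mat_zero : mat 0 = 0 := map_zero (Matrix.toEuclideanCLM (𝕜 := ℝ))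

theorem inner4 (x y : E4) : ⟪x, y⟫ = x 0 * y 0 + x 1 * y 1 + x 2 * y 2 + x 3 * y 3 := by
  simp [PiLp.inner_apply, Fin.sum_univ_four, mul_comm]

theorem normsq4 (x : E4) : ‖x‖ ^ 2 = x 0 ^ 2 + x 1 ^ 2 + x 2 ^ 2 + x 3 ^ 2 := by
  rw [← real_inner_self_eq_norm_sq, inner4]; ring

theorem skew_e (i : Fin 3) : Skew (mat (eM i)) := by
  intro x
  fin_cases i <;> simp [inner4, mat_apply, eM, Fin.sum_univ_four] <;> ring

theorem skew_f (i : Fin 3) : Skew (mat (fM i)) := by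
  intro x
  fin_cases i <;> simp [inner4, mat_apply, fM, Fin.sum_univ_four] <;> ring

theorem Skew.adj {A : E4 →L[ℝ] E4} (h : Skew A) (x y : E4) : ⟪A x, y⟫ = -⟪x, A y⟫ := by
  have h1 := h (x + y)
  rw [map_add, inner_add_left, inner_add_right, inner_add_right, h x, h y,
    real_inner_comm x (A y)] at h1
  rw [real_inner_comm (A y) x] at *
  linarith

theorem e_sq (i : Fin 3) (x : E4) : mat (eM i) (mat (eM i) x) = -x := by
  ext a
  fin_cases i <;> fin_cases a <;> simp [mat_apply, eM, Fin.sum_univ_four]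

theorem f_sq (i : Fin 3) (x : E4) : mat (fM i) (mat (fM i) x) = -x := by
  ext a
  fin_cases i <;> fin_cases a <;> simp [mat_apply, fM, Fin.sum_univ_four]

theorem e_frame (x v : E4) :
    (‖x‖ ^ 2) • v = ⟪x, v⟫ • x + ∑ i, ⟪mat (eM i) x, v⟫ • mat (eM i) x := by
  ext a
  rw [normsq4]
  fin_cases a <;>
    simp [inner4, mat_apply, eM, Fin.sum_univ_four, Fin.sum_univ_three] <;> ring

theorem f_frame (x v : E4) :
    (‖x‖ ^ 2) • v = ⟪x, v⟫ • x + ∑ i, ⟪mat (fM i) x, v⟫ • mat (fM i) x := by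
  ext a
  rw [normsq4]
  fin_cases a <;>
    simp [inner4, mat_apply, fM, Fin.sum_univ_four, Fin.sum_univ_three] <;> ring

theorem e_inner (i j : Fin 3) (x : E4) :
    ⟪mat (eM i) x, mat (eM j) x⟫ = if i = j then ‖x‖ ^ 2 else 0 := by
  rw [normsq4, inner4]
  fin_cases i <;> fin_cases j <;> simp [mat_apply, eM, Fin.sum_univ_four] <;> ring

theorem f_inner (i j : Fin 3) (x : E4) :
    ⟪mat (fM i) x, mat (fM j) x⟫ = if i = j then ‖x‖ ^ 2 else 0 := by
  rw [normsq4, inner4]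
  fin_cases i <;> fin_cases j <;> simp [mat_apply, fM, Fin.sum_univ_four] <;> ring

theorem eM_01 : eM 1 * eM 0 - eM 0 * eM 1 = (2 : ℝ) • eM 2 := by
  ext a b; fin_cases a <;> fin_cases b <;> simp [eM] <;> norm_num

theorem eM_12 : eM 2 * eM 1 - eM 1 * eM 2 = (2 : ℝ) • eM 0 := by
  ext a b; fin_cases a <;> fin_cases b <;> simp [eM] <;> norm_num

theorem eM_20 : eM 0 * eM 2 - eM 2 * eM 0 = (2 : ℝ) • eM 1 := by
  ext a b; fin_cases a <;> fin_cases b <;> simp [eM] <;> norm_num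

theorem fM_01 : fM 1 * fM 0 - fM 0 * fM 1 = (-2 : ℝ) • fM 2 := by
  ext a b; fin_cases a <;> fin_cases b <;> simp [fM] <;> norm_num

theorem fM_12 : fM 2 * fM 1 - fM 1 * fM 2 = (-2 : ℝ) • fM 0 := by
  ext a b; fin_cases a <;> fin_cases b <;> simp [fM] <;> norm_num

theorem fM_20 : fM 0 * fM 2 - fM 2 * fM 0 = (-2 : ℝ) • fM 1 := by
  ext a b; fin_cases a <;> fin_cases b <;> simp [fM] <;> norm_num

theorem fM_eM (i j : Fin 3) : fM j * eM i - eM i * fM j = 0 := by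
  rw [sub_eq_zero]
  fin_cases i <;> fin_cases j <;> simp [eM, fM]

end Pool.Agent.MP_48470b_gt.Sph
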