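import Pool.Agent.MP_48470b_gt.Sph.B0

open scoped RealInnerProductSpace ContDiff Manifold Topology
open MeasureTheory Filter

noncomputable section

namespace Pool.Agent.MP_48470b_gt.Sph

/-! First order calculus of the derivations. -/

theorem D_add (A B : E4 →L[ℝ] E4) (u : R) : D (A + B) u = D A u + D B u :=
  R.ext fun x => by simp [D_apply]

theorem D_sub (A B : E4 →L[ℝ] E4) (u : R) : D (A - B) u = D A u - D B u :=
  R.ext fun x => by simp [D_apply]

theorem D_smul (c : ℝ) (A : E4 →L[ℝ] E4) (u : R) : D (c • A) u = c • D A u :=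
  R.ext fun x => by simp [D_apply]

theorem D_zero (u : R) : D 0 u = 0 :=
  R.ext fun x => by simp [D_apply]

theorem hom_D_apply (A : E4 →L[ℝ] E4) (u : R) {x : E4} (hx : x ≠ 0) :
    hom (D A u) x = fderiv ℝ (hom u) x (A x) := hom_D A u hx

/-- no radial derivative -/
theorem fderiv_hom_self (u : R) {x : E4} (hx : x ≠ 0) : fderiv ℝ (hom u) x x = 0 := by
  have h1 : HasDerivAt (fun t : ℝ => t • x) x 1 := by
    simpa using (hasDerivAt_id (1 : ℝ)).smul_const x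
  have h2 : HasFDerivAt (hom u) (fderiv ℝ (hom u) x) ((fun t : ℝ => t • x) 1) := by
    simpa using (u.diff hx).hasFDerivAt
  have h3 := h2.comp_hasDerivAt (1 : ℝ) h1
  have h4 : (hom u ∘ fun t : ℝ => t • x) =ᶠ[𝓝 1] fun _ => hom u x := by
    filter_upwards [lt_mem_nhds (zero_lt_one' ℝ)] with t ht
    simp [hom, pr_smul ht]
  exact (h3.congr_of_eventuallyEq h4.symm).unique (hasDerivAt_const _ _)

theorem fderiv_hom_frame (u : R) {x : E4} (hx : x ≠ 0) (v : E4) :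
    fderiv ℝ (hom u) x v = ∑ i, ⟪mat (eM i) x, v⟫ / ‖x‖ ^ 2 * hom (E i u) x := by
  have h := congrArg (fderiv ℝ (hom u) x) (e_frame x v)
  have hn : ‖x‖ ^ 2 ≠ 0 := pow_ne_zero _ (norm_ne_zero_iff.2 hx)
  simp only [map_smul, map_add, map_sum, fderiv_hom_self u hx, smul_eq_mul, mul_zero,
    zero_add] at h
  apply mul_left_cancel₀ hn
  rw [h, Finset.mul_sum]
  refine Finset.sum_congr rfl fun i _ => ?_
  rw [E, hom_D_apply _ _ hx]
  field_simp

theorem D_frame (A : E4 →L[ℝ] E4) (u : R) (x : S3) :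
    D A u x = ∑ i, ⟪mat (eM i) x, A x⟫ * E i u x := by
  rw [D_apply, fderiv_hom_frame u (S3.ne x)]
  simp

theorem hasFDerivAt_unit (x : S3) {v : E4} (hv : ⟪(x : E4), v⟫ = 0) :
    fderiv ℝ (fun y : E4 => ‖y‖⁻¹ • y) x v = v := by
  have hn : DifferentiableAt ℝ (fun y : E4 => ‖y‖) x :=
    (contDiffAt_norm ℝ (n := 1) (S3.ne x)).differentiableAt (by simp)
  have h0 : fderiv ℝ (fun y : E4 => ‖y‖) x v = 0 := by
    have h1 := (hn.hasFDerivAt.pow 2).fderiv
    have h2 : fderiv ℝ (fun y : E4 => ‖y‖ ^ 2) x = 2 • innerSL ℝ (x : E4) :=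
      (hasStrictFDerivAt_norm_sq (x : E4)).hasFDerivAt.fderiv
    have h3 := congrArg (fun T : E4 →L[ℝ] ℝ => T v) (h1.symm.trans h2)
    simpa [hv] using h3
  have hi : HasFDerivAt (fun y : E4 => ‖y‖⁻¹)
      ((-(‖(x : E4)‖ ^ 2)⁻¹) • fderiv ℝ (fun y : E4 => ‖y‖) x) x :=
    (hasDerivAt_inv (norm_ne_zero_iff.2 (S3.ne x))).comp_hasFDerivAt (x : E4) hn.hasFDerivAt
  have h := (hi.smul (hasFDerivAt_id (x : E4))).fderiv
  change fderiv ℝ (fun y : E4 => ‖y‖⁻¹ • y) x = _ at h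
  rw [h]
  simp [h0]

/-- on tangent vectors the derivative does not depend on the extension -/
theorem fderiv_hom_res (U : E4 → ℝ) (h : ∀ x : S3, ContDiffAt ℝ ∞ U x) (x : S3) {v : E4}
    (hv : ⟪(x : E4), v⟫ = 0) : fderiv ℝ (hom (res U h)) x v = fderiv ℝ U x v := by
  have h1 : hom (res U h) =ᶠ[𝓝 (x : E4)] U ∘ fun y => ‖y‖⁻¹ • y := hom_eventually U (S3.ne x)
  have hx : ‖(x : E4)‖⁻¹ • (x : E4) = x := by simp
  rw [h1.fderiv_eq, fderiv_comp _ (by rw [hx]; exact (h x).differentiableAt (by simp))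
    ((contDiffAt_unit (S3.ne x)).differentiableAt (by simp)), ContinuousLinearMap.comp_apply,
    hasFDerivAt_unit x hv, hx]

theorem D_res {A : E4 →L[ℝ] E4} (hA : Skew A) (U : E4 → ℝ) (h : ∀ x : S3, ContDiffAt ℝ ∞ U x)
    (x : S3) : D A (res U h) x = fderiv ℝ U x (A x) :=
  fderiv_hom_res U h x (by rw [real_inner_comm]; exact hA x)

theorem D_X {A : E4 →L[ℝ] E4} (hA : Skew A) (a : Fin 4) (x : S3) : D A (X a) x = A x a := by
  rw [X, D_res hA]
  exact congrArg (fun T : E4 →L[ℝ] ℝ => T (A x))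
    (EuclideanSpace.proj (𝕜 := ℝ) a : E4 →L[ℝ] ℝ).fderiv

theorem D_mat_X {M : Matrix (Fin 4) (Fin 4) ℝ} (hA : Skew (mat M)) (a : Fin 4) :
    D (mat M) (X a) = ∑ b, M a b • X b :=
  R.ext fun x => by rw [D_X hA, mat_apply]; simp

theorem sum_X_sq' : ∑ a, X a ^ 2 = 1 :=
  R.ext fun x => by
    have := normsq4 (x : E4)
    rw [S3.norm] at this
    simp [Fin.sum_univ_four]; linarith

theorem D_comp (A : E4 →L[ℝ] E4) (φ : ℝ → ℝ) (u : R) (h : ∀ x, ContDiffAt ℝ ∞ φ (u x)) (x : S3) :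
    D A (R.comp φ u h) x = deriv φ (u x) * D A u x := by
  have h1 : HasDerivAt φ (deriv φ (u x)) (hom u x) := by
    rw [hom_coe]; exact ((h x).differentiableAt (by simp)).hasDerivAt
  have h2 := (h1.comp_hasFDerivAt (x : E4) (u.diff (S3.ne x)).hasFDerivAt).fderiv
  change fderiv ℝ (φ ∘ hom u) x (A x) = _
  rw [h2]; rfl

theorem act_X (g : E4 ≃ₗᵢ[ℝ] E4) (a : Fin 4) :
    act g (X a) = ∑ b, g (EuclideanSpace.single b 1) a • X b :=
  R.ext fun x => by
    have : (x : E4) = ∑ b, (x : E4) b • EuclideanSpace.single b (1 : ℝ) := by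
      ext c; simp [Pi.single_apply]
    rw [act_apply, X_apply, sph_coe]
    conv_lhs => rw [this]
    simp [mul_comm]

theorem act_act_symm (g : E4 ≃ₗᵢ[ℝ] E4) (u : R) : act g (act g.symm u) = u :=
  R.ext fun x => by
    rw [act_apply, act_apply]
    exact congrArg (fun y => u y) (Subtype.ext (g.symm_apply_apply x))

theorem act_injective (g : E4 ≃ₗᵢ[ℝ] E4) : Function.Injective (act g) :=
  Function.LeftInverse.injective (g := act g.symm) (act_act_symm g.symm)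

theorem pr_act (g : E4 ≃ₗᵢ[ℝ] E4) {x : E4} (hx : x ≠ 0) : pr (g x) = sph g (pr x) :=
  Subtype.ext (by
    rw [pr_val (by simpa using hx), sph_coe, pr_val hx, map_smul, g.norm_map])

theorem hom_act (g : E4 ≃ₗᵢ[ℝ] E4) (u : R) {x : E4} (hx : x ≠ 0) :
    hom (act g u) x = hom u (g x) := by
  simp [hom, pr_act g hx]

theorem fderiv_hom_act (g : E4 ≃ₗᵢ[ℝ] E4) (u : R) {x : E4} (hx : x ≠ 0) (v : E4) :
    fderiv ℝ (hom (act g u)) x v = fderiv ℝ (hom u) (g x) (g v) := by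
  have h1 : hom (act g u) =ᶠ[𝓝 x] hom u ∘ (g.toContinuousLinearEquiv : E4 →L[ℝ] E4) := by
    filter_upwards [isOpen_ne.mem_nhds hx] with y hy using hom_act g u hy
  rw [h1.fderiv_eq, fderiv_comp _ (u.diff (by simpa using hx)) (ContinuousLinearMap.differentiableAt _),
    ContinuousLinearMap.fderiv]
  rfl

/-- the conjugate `g⁻¹ A g` -/
def conj (g : E4 ≃ₗᵢ[ℝ] E4) (A : E4 →L[ℝ] E4) : E4 →L[ℝ] E4 :=
  (g.symm.toContinuousLinearEquiv : E4 →L[ℝ] E4).comp
    (A.comp (g.toContinuousLinearEquiv : E4 →L[ℝ] E4))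

@[simp] theorem conj_apply (g : E4 ≃ₗᵢ[ℝ] E4) (A : E4 →L[ℝ] E4) (x : E4) :
    conj g A x = g.symm (A (g x)) := rfl

theorem act_D (g : E4 ≃ₗᵢ[ℝ] E4) (A : E4 →L[ℝ] E4) (u : R) :
    act g (D A u) = D (conj g A) (act g u) :=
  R.ext fun x => by
    rw [act_apply, D_apply, D_apply, fderiv_hom_act g u (S3.ne x)]; simp

theorem R.contMDiff (u : R) : ContMDiff (𝓡 3) 𝓘(ℝ, ℝ) ∞ (u : S3 → ℝ) := by
  have : Fact (Module.finrank ℝ E4 = 3 + 1) := ⟨by simp⟩
  have : (u : S3 → ℝ) = hom u ∘ fun x : S3 => (x : E4) := by ext x; simp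
  rw [this]
  intro x
  exact (u.sm (S3.ne x)).contMDiffAt.comp x (contMDiff_coe_sphere x)

/-- the map to the four dimensional space with the given components -/
def vec (f : Fin 4 → R) (x : S3) : E4 := WithLp.toLp 2 fun a => f a x

@[simp] theorem vec_apply (f : Fin 4 → R) (x : S3) (a : Fin 4) : vec f x a = f a x := rfl

/-- a function without zeros is a unit -/
theorem exists_inv (u : R) (h : ∀ x, u x ≠ 0) : ∃ v : R, u * v = 1 :=
  ⟨R.comp (fun t => t⁻¹) u (fun x => contDiffAt_inv ℝ (h x)),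
    R.ext fun x => by simp [h x]⟩

theorem exists_sqrt (u : R) (h : ∀ x, 0 < u x) : ∃ v : R, v ^ 2 = u ∧ ∀ x, 0 < v x :=
  ⟨R.comp Real.sqrt u (fun x => Real.contDiffAt_sqrt (h x).ne'),
    R.ext fun x => by simp [Real.sq_sqrt (h x).le], fun x => by simpa using h x⟩

theorem exists_exp (u : R) :
    ∃ v : R, (∀ x, v x = Real.exp (u x)) ∧ ∀ A, D A v = v * D A u :=
  ⟨R.comp Real.exp u (fun _ => Real.contDiff_exp.contDiffAt), fun _ => rfl,
    fun A => R.ext fun x => by rw [D_comp]; simp⟩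

theorem exists_bound (u : R) : ∃ C, 0 ≤ C ∧ ∀ x, |u x| ≤ C := by
  obtain ⟨C, hC⟩ := isCompact_univ.exists_bound_of_continuousOn u.continuous.continuousOn
  exact ⟨max C 0, le_max_right _ _, fun x => (hC x trivial).trans (le_max_left _ _)⟩

theorem exists_lower (u : R) (h : ∀ x, 0 < u x) : ∃ m, 0 < m ∧ ∀ x, m ≤ u x := by
  obtain ⟨x, -, hx⟩ := isCompact_univ.exists_isMinOn ⟨pr 0, trivial⟩ u.continuous.continuousOn
  exact ⟨u x, h x, fun y => hx trivial⟩

end Pool.Agent.MP_48470b_gt.Sph
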