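import Pool.Agent.MP_48470b_gt.Sph.Defs

/-! Invariance of the integral and integration by parts on the sphere. -/

open scoped RealInnerProductSpace ContDiff Pointwise
open MeasureTheory

noncomputable section

namespace Pool.Agent.MP_48470b_gt.Sph

theorem tcontinuous_sph (g : E4 ≃ₗᵢ[ℝ] E4) : Continuous (sph g) :=
  (g.continuous.comp continuous_subtype_val).subtype_mk _

theorem tsph_preserving (g : E4 ≃ₗᵢ[ℝ] E4) : MeasurePreserving (sph g) sig sig := by
  have hm := (tcontinuous_sph g).measurable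
  refine ⟨hm, Measure.ext fun s hs => ?_⟩
  rw [Measure.map_apply hm hs, sig, Measure.smul_apply, Measure.smul_apply,
    Measure.toSphere_apply' _ hs, Measure.toSphere_apply' _ (hm hs)]
  have e : Set.Ioo (0 : ℝ) 1 • ((↑) '' (sph g ⁻¹' s) : Set E4) =
      g.toMeasurableEquiv ⁻¹' (Set.Ioo (0 : ℝ) 1 • ((↑) '' s : Set E4)) := by
    ext y
    constructor
    · rintro ⟨t, ht, _, ⟨x, hx, rfl⟩, rfl⟩
      exact ⟨t, ht, _, ⟨sph g x, hx, rfl⟩, by simp⟩
    · rintro ⟨t, ht, _, ⟨x, hx, rfl⟩, h⟩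
      refine ⟨t, ht, _, ⟨sph g.symm x, ?_, rfl⟩, ?_⟩
      · have : sph g (sph g.symm x) = x := Subtype.ext (by simp)
        simpa [this] using hx
      · apply g.injective
        simpa using h
  have hp : MeasurePreserving g.toMeasurableEquiv (volume : Measure E4) volume :=
    g.measurePreserving
  rw [e, hp.measure_preimage_equiv]

theorem tI_act (g : E4 ≃ₗᵢ[ℝ] E4) (u : R) : I (act g u) = I u := by
  simp only [I_def, act_apply]
  conv_rhs => rw [← (tsph_preserving g).map_eq]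
  rw [integral_map (tcontinuous_sph g).aemeasurable u.continuous.aestronglyMeasurable]

theorem tskew {A : E4 →L[ℝ] E4} (hA : ∀ x, ⟪A x, x⟫ = 0) :
    A ∈ skewAdjoint (E4 →L[ℝ] E4) := by
  rw [skewAdjoint.mem_iff, ContinuousLinearMap.star_eq_adjoint, eq_comm,
    ContinuousLinearMap.eq_adjoint_iff]
  intro x y
  have h := hA (x + y)
  simp only [map_add, inner_add_left, inner_add_right, hA] at h
  rw [neg_apply, inner_neg_left, real_inner_comm (A y)]
  linarith

theorem tflow {A : E4 →L[ℝ] E4} (hA : ∀ x, ⟪A x, x⟫ = 0) :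
    ∃ g : ℝ → E4 ≃ₗᵢ[ℝ] E4, (∀ x, g 0 x = x) ∧
      ∀ x t, HasDerivAt (fun s => g s x) (A (g t x)) t := by
  let _ : NormedAlgebra ℚ (E4 →L[ℝ] E4) := NormedAlgebra.restrictScalars ℚ ℝ _
  let g : ℝ → E4 ≃ₗᵢ[ℝ] E4 := fun t => Unitary.linearIsometryEquiv
    ⟨NormedSpace.exp (t • A), NormedSpace.exp_mem_unitary_of_mem_skewAdjoint
      (skewAdjoint.smul_mem t (tskew hA))⟩
  have hg : ∀ t x, g t x = NormedSpace.exp (t • A) x := fun _ _ => rfl
  refine ⟨g, fun x => ?_, fun x t => ?_⟩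
  · have e : (0 : ℝ) • A = 0 := by ext; simp
    rw [hg, e, NormedSpace.exp_zero]; rfl
  simpa [hg] using (hasDerivAt_exp_smul_const' A t).clm_apply (hasDerivAt_const t x)

theorem tI_D {A : E4 →L[ℝ] E4} (hA : ∀ x, ⟪A x, x⟫ = 0) (u : R) : I (D A u) = 0 := by
  obtain ⟨g, -, hg⟩ := tflow hA
  obtain ⟨M, hM⟩ := (isCompact_univ (X := S3)).exists_bound_of_continuousOn
    (D A u).continuous.continuousOn
  have hd : ∀ (x : S3) (t : ℝ), HasDerivAt (fun s => act (g s) u x) (act (g t) (D A u) x) t := by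
    intro x t
    have h2 := (u.diff (S3.ne (sph (g t) x))).hasFDerivAt.comp_hasDerivAt t (hg x t)
    rw [act_apply, D_apply]
    exact h2
  have h := (hasDerivAt_integral_of_dominated_loc_of_deriv_le (μ := sig) (s := Set.univ)
    (F := fun s x => act (g s) u x) (F' := fun s x => act (g s) (D A u) x) (x₀ := (0 : ℝ))
    (bound := fun _ => M) Filter.univ_mem
    (Filter.Eventually.of_forall fun s => (R.continuous _).aestronglyMeasurable)
    (R.integrable _) (R.continuous _).aestronglyMeasurable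
    (Filter.Eventually.of_forall fun x s _ => by rw [act_apply]; exact hM _ (Set.mem_univ _))
    (integrable_const M) (Filter.Eventually.of_forall fun x s _ => hd x s)).2
  simp only [← I_def, tI_act] at h
  exact h.unique (hasDerivAt_const _ _)

theorem tD_res {A : E4 →L[ℝ] E4} (hA : ∀ x, ⟪A x, x⟫ = 0) (U : E4 → ℝ) (h) (x : S3) :
    D A (res U h) x = fderiv ℝ U x (A x) := by
  obtain ⟨g, h0, hg⟩ := tflow hA
  have h1 := ((res U h).diff (S3.ne x)).hasFDerivAt.comp_hasDerivAt_of_eq 0 (hg x 0) (h0 x).symm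
  have h2 := ((h x).differentiableAt (by simp)).hasFDerivAt.comp_hasDerivAt_of_eq 0 (hg x 0)
    (h0 x).symm
  have e : (hom (res U h) ∘ fun s => g s x) = U ∘ fun s => g s x :=
    funext fun s => hom_coe (res U h) (sph (g s) x)
  rw [e] at h1
  have h3 := h1.unique h2
  rwa [h0] at h3

theorem tD_X {A : E4 →L[ℝ] E4} (hA : ∀ x, ⟪A x, x⟫ = 0) (i : Fin 4) (x : S3) :
    D A (X i) x = A x i := by
  have h : HasFDerivAt (fun y : E4 => y i) (EuclideanSpace.proj i : E4 →L[ℝ] ℝ) (x : E4) :=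
    (EuclideanSpace.proj i : E4 →L[ℝ] ℝ).hasFDerivAt
  rw [X, tD_res hA, h.fderiv]
  rfl

theorem teM_skew (i : Fin 3) (x : E4) : ⟪mat (eM i) x, x⟫ = 0 := by
  fin_cases i <;>
    simp [mat, eM, PiLp.inner_apply, Fin.sum_univ_four, Matrix.mulVec, dotProduct] <;> ring

theorem tfM_skew (i : Fin 3) (x : E4) : ⟪mat (fM i) x, x⟫ = 0 := by
  fin_cases i <;>
    simp [mat, fM, PiLp.inner_apply, Fin.sum_univ_four, Matrix.mulVec, dotProduct] <;> ring

end Pool.Agent.MP_48470b_gt.Sph
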