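import Pool.Agent.MP_48470b_gt.Sph.S2Base

/-! Polynomials on the sphere: closure properties, the Laplace operator modulo lower degree,
and the dimension count. -/

open scoped RealInnerProductSpace ContDiff
open MeasureTheory

noncomputable section

namespace Pool.Agent.MP_48470b_gt.Sph

theorem V_le_succ (N : ℕ) : V N ≤ V (N + 1) := le_sup_left

theorem V_mono {N M : ℕ} (h : N ≤ M) : V N ≤ V M :=
  monotone_nat_of_le_succ V_le_succ h

theorem one_mem_V (N : ℕ) : (1 : R) ∈ V N :=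
  V_mono (Nat.zero_le N) (Submodule.subset_span rfl)

theorem const_mem_V (N : ℕ) (c : ℝ) : algebraMap ℝ R c ∈ V N := by
  rw [Algebra.algebraMap_eq_smul_one]; exact Submodule.smul_mem _ _ (one_mem_V N)

theorem X_mul_mem {N : ℕ} {p : R} (i : Fin 4) (hp : p ∈ V N) : X i * p ∈ V (N + 1) :=
  Submodule.mem_sup_right (Submodule.mem_iSup_of_mem i ⟨p, hp, rfl⟩)

theorem V_zero_eq {p : R} (hp : p ∈ V 0) : ∃ c : ℝ, p = c • (1 : R) := by
  obtain ⟨c, hc⟩ := Submodule.mem_span_singleton.1 hp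
  exact ⟨c, hc.symm⟩

/-- a linear map sends `V (N+1)` into `K` as soon as it does so on the generators -/
theorem V_succ_map {M : Type*} [AddCommGroup M] [Module ℝ M] {N : ℕ} (T : R →ₗ[ℝ] M)
    (K : Submodule ℝ M) (h1 : ∀ p ∈ V N, T p ∈ K) (h2 : ∀ i, ∀ p ∈ V N, T (X i * p) ∈ K)
    {p : R} (hp : p ∈ V (N + 1)) : T p ∈ K := by
  have h : V (N + 1) ≤ K.comap T := by
    refine sup_le (fun p hp => h1 p hp) (iSup_le fun i => ?_)
    rintro _ ⟨q, hq, rfl⟩
    exact h2 i q hq
  exact h hp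

instance V_fd : ∀ N : ℕ, FiniteDimensional ℝ (V N)
  | 0 => FiniteDimensional.span_singleton ℝ (1 : R)
  | N + 1 => by
    have := V_fd N
    change FiniteDimensional ℝ ↥(V N ⊔ ⨆ i, (V N).map (LinearMap.mulLeft ℝ (X i)))
    infer_instance

theorem X_mem_V (i : Fin 4) : X i ∈ V 1 := by
  simpa using X_mul_mem i (one_mem_V 0)

theorem mul_mem_V {N M : ℕ} {p q : R} (hp : p ∈ V N) (hq : q ∈ V M) : p * q ∈ V (N + M) := by
  induction N generalizing p with
  | zero =>
    obtain ⟨c, rfl⟩ := V_zero_eq hp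
    simpa using Submodule.smul_mem _ c hq
  | succ N ih =>
    refine V_succ_map (LinearMap.mulRight ℝ q) _ (fun p hp => ?_) (fun i p hp => ?_) hp
    · exact V_mono (by omega) (ih hp)
    · have h := X_mul_mem i (ih hp)
      rw [show N + M + 1 = N + 1 + M by omega, ← mul_assoc] at h
      exact h

theorem pow_mem_V {N : ℕ} {p : R} (hp : p ∈ V N) (k : ℕ) : p ^ k ∈ V (k * N) := by
  induction k with
  | zero => simpa using one_mem_V 0
  | succ k ih => rw [pow_succ, Nat.succ_mul]; exact mul_mem_V ih hp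

theorem lin_eq_sum (l : E4 →L[ℝ] ℝ) (x : E4) :
    l x = ∑ i, l (EuclideanSpace.single i 1) * x i := by
  have e : x = ∑ i, x i • EuclideanSpace.single i (1 : ℝ) := by
    ext j
    fin_cases j <;> simp [Fin.sum_univ_four]
  conv_lhs => rw [e]
  simp [map_sum, mul_comm]

theorem lin_mem_V {u : R} (l : E4 →L[ℝ] ℝ) (h : ∀ x : S3, u x = l x) : u ∈ V 1 := by
  have e : u = ∑ i, l (EuclideanSpace.single i 1) • X i := by
    ext x; rw [h, lin_eq_sum l x]; simp
  rw [e]
  exact Submodule.sum_mem _ fun i _ => Submodule.smul_mem _ _ (X_mem_V i)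

theorem D_X_mem {A : E4 →L[ℝ] E4} (hA : ∀ x, ⟪A x, x⟫ = 0) (i : Fin 4) : D A (X i) ∈ V 1 :=
  lin_mem_V ((EuclideanSpace.proj i : E4 →L[ℝ] ℝ).comp A) fun x => tD_X hA i x

theorem der_mem_V (T : Derivation ℝ R R) (hT : ∀ i, T (X i) ∈ V 1) {N : ℕ} {p : R}
    (hp : p ∈ V N) : T p ∈ V N := by
  induction N generalizing p with
  | zero => obtain ⟨c, rfl⟩ := V_zero_eq hp; simp
  | succ N ih =>
    refine V_succ_map (T : R →ₗ[ℝ] R) _ (fun p hp => V_le_succ N (ih hp)) (fun i p hp => ?_) hp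
    have h := mul_mem_V hp (hT i)
    simp only [Derivation.coeFn_coe, Derivation.leibniz, smul_eq_mul]
    exact Submodule.add_mem _ (X_mul_mem i (ih hp)) h

theorem D_mem_V {A : E4 →L[ℝ] E4} (hA : ∀ x, ⟪A x, x⟫ = 0) {N : ℕ} {p : R} (hp : p ∈ V N) :
    D A p ∈ V N := der_mem_V _ (D_X_mem hA) hp

theorem E_mem_V (i : Fin 3) {N : ℕ} {p : R} (hp : p ∈ V N) : E i p ∈ V N :=
  D_mem_V (teM_skew i) hp

theorem F_mem_V (i : Fin 3) {N : ℕ} {p : R} (hp : p ∈ V N) : F i p ∈ V N :=
  D_mem_V (tfM_skew i) hp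

theorem Lap_mem_V {N : ℕ} {p : R} (hp : p ∈ V N) : Lap p ∈ V N := by
  rw [Lap_apply]
  exact Submodule.sum_mem _ fun i _ => E_mem_V i (E_mem_V i hp)

theorem act_mem_V (g : E4 ≃ₗᵢ[ℝ] E4) {N : ℕ} {p : R} (hp : p ∈ V N) : act g p ∈ V N := by
  induction N generalizing p with
  | zero => obtain ⟨c, rfl⟩ := V_zero_eq hp; simpa using Submodule.smul_mem _ c (one_mem_V 0)
  | succ N ih =>
    refine V_succ_map (act g).toLinearMap _ (fun p hp => V_le_succ N (ih hp)) (fun i p hp => ?_) hp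
    have h1 : act g (X i) ∈ V 1 :=
      lin_mem_V ((EuclideanSpace.proj i : E4 →L[ℝ] ℝ).comp
        (g.toContinuousLinearEquiv : E4 →L[ℝ] E4)) fun x => by simp
    have h := mul_mem_V h1 (ih hp)
    rw [add_comm] at h
    simpa using h

theorem sum_X_sq : X 0 ^ 2 + X 1 ^ 2 + X 2 ^ 2 + X 3 ^ 2 = 1 := by
  ext x
  have h := EuclideanSpace.real_norm_sq_eq (x : E4)
  rw [S3.norm, Fin.sum_univ_four] at h
  simpa using h.symm

theorem E_X (a : Fin 3) (i : Fin 4) : E a (X i) = ∑ j, eM a i j • X j := by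
  ext x
  rw [E, tD_X (teM_skew a)]
  simp [mat, Matrix.mulVec, dotProduct]

theorem Lap_X (i : Fin 4) : Lap (X i) = -(3 : ℝ) • X i := by
  rw [Lap_apply]
  simp only [E_X, map_add, Derivation.map_smul, Fin.sum_univ_four, Fin.sum_univ_three]
  fin_cases i <;> simp [eM] <;> module

theorem gam_X (i j : Fin 4) :
    ∑ a, E a (X i) * E a (X j) = (if i = j then 1 else 0) - X i * X j := by
  have h := sum_X_sq
  simp only [E_X, Fin.sum_univ_four, Fin.sum_univ_three]
  fin_cases i <;> fin_cases j <;> simp [eM] <;> first | linear_combination h | ring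

theorem gam_mem {N : ℕ} {p : R} (i : Fin 4) (hp : p ∈ V N) :
    ∑ a, E a (X i) * E a p + (N : ℝ) • (X i * p) ∈ V N := by
  induction N generalizing p with
  | zero => obtain ⟨c, rfl⟩ := V_zero_eq hp; simp
  | succ N ih =>
    let T : R →ₗ[ℝ] R := ∑ a, (LinearMap.mulLeft ℝ (E a (X i))).comp (E a : R →ₗ[ℝ] R) +
      ((N + 1 : ℕ) : ℝ) • LinearMap.mulLeft ℝ (X i)
    have hT : ∀ p, T p = ∑ a, E a (X i) * E a p + ((N + 1 : ℕ) : ℝ) • (X i * p) := by
      intro p; simp [T]
    rw [← hT]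
    refine V_succ_map T _ (fun p hp => ?_) (fun j p hp => ?_) hp
    · have e : T p = (∑ a, E a (X i) * E a p + (N : ℝ) • (X i * p)) + X i * p := by
        rw [hT]; push_cast; module
      rw [e]; exact Submodule.add_mem _ (V_le_succ N (ih hp)) (X_mul_mem i hp)
    · have e : T (X j * p) = X j * (∑ a, E a (X i) * E a p + (N : ℝ) • (X i * p)) +
          (if i = j then 1 else 0) * p := by
        have h := gam_X i j
        rw [hT]
        simp only [Derivation.leibniz, smul_eq_mul, Fin.sum_univ_three, Algebra.smul_def] at h ⊢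
        push_cast
        linear_combination p * h
      rw [e]
      refine Submodule.add_mem _ (X_mul_mem j (ih hp)) ?_
      split_ifs
      · simpa using V_le_succ N hp
      · simp

theorem Lap_mul (u v : R) : Lap (u * v) = u * Lap v + 2 * ∑ a, E a u * E a v + Lap u * v := by
  simp only [Lap_apply, Derivation.leibniz, smul_eq_mul, map_add, Fin.sum_univ_three]
  ring

/-- the Laplace operator acts as a scalar modulo lower degree -/
theorem Lap_add_mem {N : ℕ} {p : R} (hp : p ∈ V (N + 1)) :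
    Lap p + (((N : ℝ) + 1) * (N + 3)) • p ∈ V N := by
  induction N generalizing p with
  | zero =>
    refine V_succ_map (Lap + ((((0 : ℕ) : ℝ) + 1) * ((0 : ℕ) + 3)) • LinearMap.id) _
      (fun p hp => ?_) (fun j p hp => ?_) hp
    · exact Submodule.add_mem _ (Lap_mem_V hp) (Submodule.smul_mem _ _ hp)
    · obtain ⟨c, rfl⟩ := V_zero_eq hp
      simp [Lap_X]
  | succ N ih =>
    refine V_succ_map (Lap + ((((N + 1 : ℕ) : ℝ) + 1) * ((N + 1 : ℕ) + 3)) • LinearMap.id) _
      (fun p hp => ?_) (fun j p hp => ?_) hp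
    · exact Submodule.add_mem _ (Lap_mem_V hp) (Submodule.smul_mem _ _ hp)
    · have e : (Lap + ((((N + 1 : ℕ) : ℝ) + 1) * ((N + 1 : ℕ) + 3)) • LinearMap.id :
          Module.End ℝ R) (X j * p) = X j * (Lap p + (((N : ℝ) + 1) * (N + 3)) • p) +
          (2 : ℝ) • (∑ a, E a (X j) * E a p + ((N + 1 : ℕ) : ℝ) • (X j * p)) := by
        simp only [LinearMap.add_apply, LinearMap.smul_apply, LinearMap.id_apply, Lap_mul, Lap_X]
        ext x
        have h2 : (2 : R) x = 2 := R.ofNat_apply 2 x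
        simp [h2]
        ring
      rw [e]
      exact Submodule.add_mem _ (X_mul_mem j (ih hp)) (Submodule.smul_mem _ _ (gam_mem j hp))

/-- generators of degree `l` modulo lower degree -/
def gen (l : ℕ) (ij : Fin (l + 1) × Fin (l + 1)) : R :=
  if (ij.1 : ℕ) + ij.2 ≤ l then X 1 ^ (ij.1 : ℕ) * X 2 ^ (ij.2 : ℕ) * X 3 ^ (l - ij.1 - ij.2)
  else X 0 * X 1 ^ (l - ij.1) * X 2 ^ (l - ij.2) * X 3 ^ (ij.1 + ij.2 - l - 1)

/-- the span of the generators -/
def U (l : ℕ) : Submodule ℝ R := Submodule.span ℝ (Set.range (gen l))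

theorem finrank_U (l : ℕ) : Module.finrank ℝ (U l) ≤ (l + 1) ^ 2 := by
  have h := finrank_range_le_card (R := ℝ) (gen l)
  simp only [Fintype.card_prod, Fintype.card_fin, ← sq] at h
  exact h

instance U_fd (l : ℕ) : FiniteDimensional ℝ (U l) :=
  FiniteDimensional.span_of_finite ℝ (Set.finite_range _)

theorem m0_mem {l b c d : ℕ} (h : b + c + d = l) : X 1 ^ b * X 2 ^ c * X 3 ^ d ∈ U l := by
  refine Submodule.subset_span ⟨(⟨b, by omega⟩, ⟨c, by omega⟩), ?_⟩
  have h1 : b + c ≤ l := by omega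
  have h2 : l - b - c = d := by omega
  simp [gen, h1, h2]

theorem m1_mem {l b c d : ℕ} (h : b + c + d + 1 = l) :
    X 0 * X 1 ^ b * X 2 ^ c * X 3 ^ d ∈ U l := by
  refine Submodule.subset_span ⟨(⟨l - b, by omega⟩, ⟨l - c, by omega⟩), ?_⟩
  have h1 : ¬ (l - b + (l - c) ≤ l) := by omega
  have h2 : l - (l - b) = b := by omega
  have h3 : l - (l - c) = c := by omega
  have h4 : l - b + (l - c) - l - 1 = d := by omega
  simp only [gen, h1, h2, h3, h4, if_false]

theorem m0_mem_V (b c d : ℕ) : X 1 ^ b * X 2 ^ c * X 3 ^ d ∈ V (b + c + d) := by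
  have h := mul_mem_V (mul_mem_V (pow_mem_V (X_mem_V 1) b) (pow_mem_V (X_mem_V 2) c))
    (pow_mem_V (X_mem_V 3) d)
  simpa using h

theorem X_mul_U {l : ℕ} (j : Fin 4) {u : R} (hu : u ∈ U l) : X j * u ∈ V l ⊔ U (l + 1) := by
  have h : U l ≤ (V l ⊔ U (l + 1)).comap (LinearMap.mulLeft ℝ (X j)) := by
    refine Submodule.span_le.2 ?_
    rintro _ ⟨⟨i, k⟩, rfl⟩
    change X j * gen l (i, k) ∈ V l ⊔ U (l + 1)
    have hi := i.2
    have hk := k.2
    unfold gen
    split_ifs with h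
    · refine Submodule.mem_sup_right ?_
      simp only at h ⊢
      generalize hd : l - i - k = d
      fin_cases j
      · have := m1_mem (l := l + 1) (b := i) (c := k) (d := d) (by omega)
        simpa [mul_assoc] using this
      · have := m0_mem (l := l + 1) (b := i + 1) (c := k) (d := d) (by omega)
        rwa [show X 1 ^ ((i : ℕ) + 1) * X 2 ^ (k : ℕ) * X 3 ^ d =
          X 1 * (X 1 ^ (i : ℕ) * X 2 ^ (k : ℕ) * X 3 ^ d) by ring] at this
      · have := m0_mem (l := l + 1) (b := i) (c := k + 1) (d := d) (by omega)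
        rwa [show X 1 ^ (i : ℕ) * X 2 ^ ((k : ℕ) + 1) * X 3 ^ d =
          X 2 * (X 1 ^ (i : ℕ) * X 2 ^ (k : ℕ) * X 3 ^ d) by ring] at this
      · have := m0_mem (l := l + 1) (b := i) (c := k) (d := d + 1) (by omega)
        rwa [show X 1 ^ (i : ℕ) * X 2 ^ (k : ℕ) * X 3 ^ (d + 1) =
          X 3 * (X 1 ^ (i : ℕ) * X 2 ^ (k : ℕ) * X 3 ^ d) by ring] at this
    · simp only at h ⊢
      generalize hb : l - i = b
      generalize hc : l - k = c
      generalize hd : i + k - l - 1 = d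
      fin_cases j
      · have h0 : X 1 ^ b * X 2 ^ c * X 3 ^ d ∈ V l := V_mono (by omega) (m0_mem_V b c d)
        have h1 := m0_mem (l := l + 1) (b := b + 2) (c := c) (d := d) (by omega)
        have h2 := m0_mem (l := l + 1) (b := b) (c := c + 2) (d := d) (by omega)
        have h3 := m0_mem (l := l + 1) (b := b) (c := c) (d := d + 2) (by omega)
        have e : X 0 * (X 0 * X 1 ^ b * X 2 ^ c * X 3 ^ d) = X 1 ^ b * X 2 ^ c * X 3 ^ d -
            (X 1 ^ (b + 2) * X 2 ^ c * X 3 ^ d + X 1 ^ b * X 2 ^ (c + 2) * X 3 ^ d +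
              X 1 ^ b * X 2 ^ c * X 3 ^ (d + 2)) := by
          linear_combination (X 1 ^ b * X 2 ^ c * X 3 ^ d) * sum_X_sq
        change X 0 * (X 0 * X 1 ^ b * X 2 ^ c * X 3 ^ d) ∈ _
        rw [e]
        exact Submodule.sub_mem _ (Submodule.mem_sup_left h0) (Submodule.mem_sup_right
          (Submodule.add_mem _ (Submodule.add_mem _ h1 h2) h3))
      · refine Submodule.mem_sup_right ?_
        have := m1_mem (l := l + 1) (b := b + 1) (c := c) (d := d) (by omega)
        rwa [show X 0 * X 1 ^ (b + 1) * X 2 ^ c * X 3 ^ d =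
          X 1 * (X 0 * X 1 ^ b * X 2 ^ c * X 3 ^ d) by ring] at this
      · refine Submodule.mem_sup_right ?_
        have := m1_mem (l := l + 1) (b := b) (c := c + 1) (d := d) (by omega)
        rwa [show X 0 * X 1 ^ b * X 2 ^ (c + 1) * X 3 ^ d =
          X 2 * (X 0 * X 1 ^ b * X 2 ^ c * X 3 ^ d) by ring] at this
      · refine Submodule.mem_sup_right ?_
        have := m1_mem (l := l + 1) (b := b) (c := c) (d := d + 1) (by omega)
        rwa [show X 0 * X 1 ^ b * X 2 ^ c * X 3 ^ (d + 1) =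
          X 3 * (X 0 * X 1 ^ b * X 2 ^ c * X 3 ^ d) by ring] at this
  exact h hu

theorem V_succ_le (l : ℕ) : V (l + 1) ≤ V l ⊔ U (l + 1) := by
  induction l with
  | zero =>
    intro p hp
    refine V_succ_map LinearMap.id _ (fun p hp => Submodule.mem_sup_left hp) (fun j p hp => ?_) hp
    obtain ⟨c, rfl⟩ := V_zero_eq hp
    have h1 : (1 : R) ∈ U 0 := by simpa using m0_mem (l := 0) (b := 0) (c := 0) (d := 0) rfl
    exact X_mul_U j (Submodule.smul_mem _ c h1)
  | succ l ih =>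
    intro p hp
    refine V_succ_map LinearMap.id _ (fun p hp => Submodule.mem_sup_left hp) (fun j p hp => ?_) hp
    obtain ⟨v, hv, u, hu, rfl⟩ := Submodule.mem_sup.1 (ih hp)
    rw [LinearMap.id_apply, mul_add]
    exact Submodule.add_mem _ (Submodule.mem_sup_left (X_mul_mem j hv)) (X_mul_U j hu)

/-- spherical harmonics of degree `l` -/
def H : ℕ → Submodule ℝ R
  | 0 => V 0
  | l + 1 => (V l)ᗮ ⊓ V (l + 1)

theorem H_le_V : ∀ l, H l ≤ V l
  | 0 => le_rfl
  | _ + 1 => inf_le_right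

instance H_fd (l : ℕ) : FiniteDimensional ℝ (H l) := Submodule.finiteDimensional_of_le (H_le_V l)

theorem finrank_H : ∀ l, Module.finrank ℝ (H l) ≤ (l + 1) ^ 2
  | 0 => by
    have h := finrank_span_le_card (R := ℝ) ({1} : Set R)
    simp only [Set.toFinset_singleton, Finset.card_singleton] at h
    exact h
  | l + 1 => by
    have h1 := Submodule.finrank_add_inf_finrank_orthogonal (V_le_succ l)
    have h2 := Submodule.finrank_mono (V_succ_le l)
    have h3 := Submodule.finrank_add_le_finrank_add_finrank (V l) (U (l + 1))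
    have h4 := finrank_U (l + 1)
    change Module.finrank ℝ ↥((V l)ᗮ ⊓ V (l + 1)) ≤ _
    omega

end Pool.Agent.MP_48470b_gt.Sph
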