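import Pool.Agent.MP_48470b_gt.Sph.S2a

/-! Orthogonal projections onto the polynomials, density, spectral calculus. -/

open scoped RealInnerProductSpace ContDiff
open MeasureTheory Filter Topology

noncomputable section

namespace Pool.Agent.MP_48470b_gt.Sph

/-- projection onto the polynomials of degree at most `N` -/
def proj (N : ℕ) : R →L[ℝ] R := (V N).starProjection

/-- projection onto the spherical harmonics of degree `l` -/
def har (l : ℕ) : R →L[ℝ] R := (H l).starProjection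

theorem proj_mem (N : ℕ) (z : R) : proj N z ∈ V N := Submodule.starProjection_apply_mem _ _

theorem sub_proj_mem (N : ℕ) (z : R) : z - proj N z ∈ (V N)ᗮ :=
  Submodule.sub_starProjection_mem_orthogonal _

theorem proj_eq {N : ℕ} {z p : R} (hp : p ∈ V N) (h : z - p ∈ (V N)ᗮ) : proj N z = p :=
  Submodule.eq_starProjection_of_mem_orthogonal hp h

theorem proj_self {N : ℕ} {p : R} (hp : p ∈ V N) : proj N p = p :=
  Submodule.starProjection_eq_self_iff.2 hp

theorem proj_eq_zero {N : ℕ} {z : R} : proj N z = 0 ↔ z ∈ (V N)ᗮ :=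
  Submodule.starProjection_apply_eq_zero_iff _

theorem norm_proj_le (N : ℕ) (z : R) : ‖proj N z‖ ≤ ‖z‖ :=
  Submodule.norm_starProjection_apply_le _ _

theorem inner_proj (N : ℕ) (u v : R) : ⟪proj N u, v⟫ = ⟪u, proj N v⟫ :=
  Submodule.inner_starProjection_left_eq_right _ _ _

theorem har_mem (l : ℕ) (z : R) : har l z ∈ H l := Submodule.starProjection_apply_mem _ _

theorem har_eq_zero {l : ℕ} {z : R} : har l z = 0 ↔ z ∈ (H l)ᗮ :=
  Submodule.starProjection_apply_eq_zero_iff _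

theorem har_zero (z : R) : har 0 z = proj 0 z := rfl

theorem har_succ (l : ℕ) (z : R) : har (l + 1) z = proj (l + 1) z - proj l z := by
  refine Submodule.eq_starProjection_of_mem_orthogonal ⟨?_, ?_⟩ ?_
  · have e : proj (l + 1) z - proj l z = (z - proj l z) - (z - proj (l + 1) z) := by abel
    rw [e]
    exact Submodule.sub_mem _ (sub_proj_mem l z)
      (Submodule.orthogonal_le (V_le_succ l) (sub_proj_mem (l + 1) z))
  · exact Submodule.sub_mem _ (proj_mem _ z) (V_le_succ l (proj_mem l z))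
  · have e : z - (proj (l + 1) z - proj l z) = (z - proj (l + 1) z) + proj l z := by abel
    rw [e]
    refine Submodule.add_mem _ (Submodule.orthogonal_le (H_le_V _) (sub_proj_mem _ z)) ?_
    exact Submodule.orthogonal_le (inf_le_left : H (l + 1) ≤ (V l)ᗮ)
      (Submodule.le_orthogonal_orthogonal _ (proj_mem l z))

theorem proj_eq_sum (N : ℕ) (z : R) : proj N z = ∑ l ∈ Finset.range (N + 1), har l z := by
  induction N with
  | zero => simp [har_zero]
  | succ N ih => rw [Finset.sum_range_succ, ← ih, har_succ]; abel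

theorem har_eq_zero_of_orth {N l : ℕ} {z : R} (hz : z ∈ (V N)ᗮ) (h : l ≤ N) : har l z = 0 :=
  har_eq_zero.2 (Submodule.orthogonal_le ((H_le_V l).trans (V_mono h)) hz)

/-- operators that keep the polynomials of each degree and their orthogonal complements -/
structure Adm (T : R →ₗ[ℝ] R) : Prop where
  mem : ∀ N, ∀ p ∈ V N, T p ∈ V N
  orth : ∀ N, ∀ w ∈ (V N)ᗮ, T w ∈ (V N)ᗮ

theorem Adm.of_adj {T T' : R →ₗ[ℝ] R} (h : ∀ N, ∀ p ∈ V N, T p ∈ V N)
    (h' : ∀ N, ∀ p ∈ V N, T' p ∈ V N) (ha : ∀ u v, ⟪u, T v⟫ = ⟪T' u, v⟫) : Adm T :=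
  ⟨h, fun N w hw p hp => by rw [ha]; exact hw _ (h' N p hp)⟩

theorem Adm.id : Adm LinearMap.id := ⟨fun _ _ h => h, fun _ _ h => h⟩

theorem Adm.one : Adm 1 := Adm.id

theorem Adm.mul {S T : R →ₗ[ℝ] R} (hS : Adm S) (hT : Adm T) : Adm (S * T) :=
  ⟨fun N p h => hS.mem N _ (hT.mem N p h), fun N p h => hS.orth N _ (hT.orth N p h)⟩

theorem Adm.add {S T : R →ₗ[ℝ] R} (hS : Adm S) (hT : Adm T) : Adm (S + T) :=
  ⟨fun N p h => Submodule.add_mem _ (hS.mem N p h) (hT.mem N p h),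
    fun N p h => Submodule.add_mem _ (hS.orth N p h) (hT.orth N p h)⟩

theorem Adm.sub {S T : R →ₗ[ℝ] R} (hS : Adm S) (hT : Adm T) : Adm (S - T) :=
  ⟨fun N p h => Submodule.sub_mem _ (hS.mem N p h) (hT.mem N p h),
    fun N p h => Submodule.sub_mem _ (hS.orth N p h) (hT.orth N p h)⟩

theorem Adm.smul {T : R →ₗ[ℝ] R} (c : ℝ) (hT : Adm T) : Adm (c • T) :=
  ⟨fun N p h => Submodule.smul_mem _ c (hT.mem N p h),
    fun N p h => Submodule.smul_mem _ c (hT.orth N p h)⟩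

theorem Adm.pow {T : R →ₗ[ℝ] R} (hT : Adm T) : ∀ k : ℕ, Adm (T ^ k)
  | 0 => Adm.one
  | k + 1 => by rw [pow_succ]; exact (hT.pow k).mul hT

theorem Adm.proj_comm {T : R →ₗ[ℝ] R} (hT : Adm T) (N : ℕ) (z : R) :
    proj N (T z) = T (proj N z) :=
  proj_eq (hT.mem N _ (proj_mem N z)) (by rw [← map_sub]; exact hT.orth N _ (sub_proj_mem N z))

theorem Adm.har_comm {T : R →ₗ[ℝ] R} (hT : Adm T) : ∀ (l : ℕ) (z : R), har l (T z) = T (har l z)
  | 0, z => hT.proj_comm 0 z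
  | l + 1, z => by rw [har_succ, har_succ, hT.proj_comm, hT.proj_comm, map_sub]

theorem Adm.mem_H {T : R →ₗ[ℝ] R} (hT : Adm T) : ∀ {l : ℕ} {w : R}, w ∈ H l → T w ∈ H l
  | 0, w, h => hT.mem 0 w h
  | l + 1, w, h => ⟨hT.orth l w h.1, hT.mem _ w h.2⟩

theorem inner_D {A : E4 →L[ℝ] E4} (hA : ∀ x, ⟪A x, x⟫ = 0) (u v : R) :
    ⟪u, D A v⟫ = -⟪D A u, v⟫ := by
  have h := tI_D hA (u * v)
  rw [Derivation.leibniz, map_add, smul_eq_mul, smul_eq_mul, mul_comm v] at h
  rw [inner_def, inner_def]; linarith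

theorem adm_D {A : E4 →L[ℝ] E4} (hA : ∀ x, ⟪A x, x⟫ = 0) : Adm (D A : R →ₗ[ℝ] R) :=
  Adm.of_adj (T' := -(D A : R →ₗ[ℝ] R)) (fun _ _ h => D_mem_V hA h)
    (fun _ _ h => Submodule.neg_mem _ (D_mem_V hA h)) fun u v => by
      simp [inner_D hA]

theorem adm_E (i : Fin 3) : Adm (E i : R →ₗ[ℝ] R) := adm_D (teM_skew i)

theorem adm_F (i : Fin 3) : Adm (F i : R →ₗ[ℝ] R) := adm_D (tfM_skew i)

theorem adm_Lap : Adm Lap := by
  rw [Lap, Fin.sum_univ_three]
  exact (((adm_E 0).mul (adm_E 0)).add ((adm_E 1).mul (adm_E 1))).add ((adm_E 2).mul (adm_E 2))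

theorem act_symm_act (g : E4 ≃ₗᵢ[ℝ] E4) (u : R) : act g.symm (act g u) = u := by
  ext x
  rw [act_apply, act_apply]
  exact congrArg u (Subtype.ext (by simp))

theorem inner_act (g : E4 ≃ₗᵢ[ℝ] E4) (u v : R) : ⟪act g u, act g v⟫ = ⟪u, v⟫ := by
  rw [inner_def, inner_def, ← map_mul, tI_act]

theorem norm_act (g : E4 ≃ₗᵢ[ℝ] E4) (u : R) : ‖act g u‖ = ‖u‖ := by
  rw [norm_eq_sqrt_real_inner, inner_act, ← norm_eq_sqrt_real_inner]

theorem adm_act (g : E4 ≃ₗᵢ[ℝ] E4) : Adm (act g).toLinearMap :=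
  Adm.of_adj (T' := (act g.symm).toLinearMap) (fun _ _ h => act_mem_V g h)
    (fun _ _ h => act_mem_V g.symm h) fun u v => by
      have h := inner_act g.symm u (act g v)
      rw [act_symm_act] at h
      exact h.symm

theorem proj_D {A : E4 →L[ℝ] E4} (hA : ∀ x, ⟪A x, x⟫ = 0) (N : ℕ) (z : R) :
    proj N (D A z) = D A (proj N z) := (adm_D hA).proj_comm N z

theorem proj_E (i : Fin 3) (N : ℕ) (z : R) : proj N (E i z) = E i (proj N z) :=
  (adm_E i).proj_comm N z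

theorem proj_F (i : Fin 3) (N : ℕ) (z : R) : proj N (F i z) = F i (proj N z) :=
  (adm_F i).proj_comm N z

theorem proj_Lap (N : ℕ) (z : R) : proj N (Lap z) = Lap (proj N z) := adm_Lap.proj_comm N z

theorem proj_act (g : E4 ≃ₗᵢ[ℝ] E4) (N : ℕ) (z : R) : proj N (act g z) = act g (proj N z) :=
  (adm_act g).proj_comm N z

/-- an invariant function orthogonal to the invariant polynomials is orthogonal to all of them -/
theorem orth_of_inv {G : Set (E4 ≃ₗᵢ[ℝ] E4)} {N : ℕ} {z : R} (hz : ∀ g ∈ G, act g z = z)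
    (h : ∀ p ∈ V N, (∀ g ∈ G, act g p = p) → ⟪p, z⟫ = 0) : z ∈ (V N)ᗮ := by
  have h1 := h _ (proj_mem N z) fun g hg => by rw [← proj_act, hz g hg]
  have h2 := sub_proj_mem N z _ (proj_mem N z)
  rw [inner_sub_right, h1, zero_sub, neg_eq_zero, inner_self_eq_zero] at h2
  exact proj_eq_zero.1 h2

theorem Lap_H : ∀ {l : ℕ} {w : R}, w ∈ H l → Lap w = -((l : ℝ) * (l + 2)) • w
  | 0, w, h => by obtain ⟨c, rfl⟩ := V_zero_eq h; simp [Lap_apply]
  | l + 1, w, h => by
    have h1 := Lap_add_mem h.2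
    have h2 : Lap w + (((l : ℝ) + 1) * (l + 3)) • w ∈ (V l)ᗮ :=
      Submodule.add_mem _ (adm_Lap.orth l w h.1) (Submodule.smul_mem _ _ h.1)
    have h3 := inner_self_eq_zero.1 (h2 _ h1)
    push_cast
    linear_combination (norm := module) h3

theorem sum_norm_E (u : R) : ∑ i, ‖E i u‖ ^ 2 = -⟪Lap u, u⟫ := by
  rw [Lap_apply, sum_inner, ← Finset.sum_neg_distrib]
  refine Finset.sum_congr rfl fun i _ => ?_
  rw [← real_inner_self_eq_norm_sq]
  exact inner_D (teM_skew i) _ _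

theorem sum_norm_E_H {l : ℕ} {w : R} (h : w ∈ H l) :
    ∑ i, ‖E i w‖ ^ 2 = (l : ℝ) * (l + 2) * ‖w‖ ^ 2 := by
  rw [sum_norm_E, Lap_H h, real_inner_smul_left, real_inner_self_eq_norm_sq]; ring

theorem P_H (k : ℕ) : ∀ {l : ℕ} {w : R}, w ∈ H l → P k w = ((l : ℝ) + 1) ^ (2 * k) * ‖w‖ ^ 2 := by
  induction k with
  | zero => intro l w _; simp [P]
  | succ k ih =>
    intro l w h
    have h1 : ∑ i, P k (E i w) = ((l : ℝ) + 1) ^ (2 * k) * ∑ i, ‖E i w‖ ^ 2 := by
      rw [Finset.mul_sum]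
      exact Finset.sum_congr rfl fun i _ => ih ((adm_E i).mem_H h)
    rw [P, h1, ih h, sum_norm_E_H h]; ring

/-- restriction as a continuous map -/
def toC : R →ₐ[ℝ] C(S3, ℝ) where
  toFun u := ⟨u, u.continuous⟩
  map_one' := rfl
  map_mul' _ _ := rfl
  map_zero' := rfl
  map_add' _ _ := rfl
  commutes' _ := rfl

/-- all polynomials -/
def polys : Subalgebra ℝ R where
  carrier := {p | ∃ N, p ∈ V N}
  mul_mem' := fun ⟨_, h1⟩ ⟨_, h2⟩ => ⟨_, mul_mem_V h1 h2⟩
  add_mem' := fun ⟨N, h1⟩ ⟨M, h2⟩ => ⟨N + M, Submodule.add_mem _ (V_mono (by omega) h1)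
    (V_mono (by omega) h2)⟩
  algebraMap_mem' := fun c => ⟨0, const_mem_V 0 c⟩

/-- uniform approximation of continuous functions by polynomials -/
theorem exists_poly_near {f : S3 → ℝ} (hf : Continuous f) {ε : ℝ} (hε : 0 < ε) :
    ∃ N, ∃ p ∈ V N, ∀ x, |p x - f x| < ε := by
  have hs : (polys.map toC).SeparatesPoints := by
    intro x y hxy
    have : ∃ i, (x : E4) i ≠ (y : E4) i := by
      by_contra hc
      push Not at hc
      exact hxy (Subtype.ext (by ext i; exact hc i))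
    obtain ⟨i, hi⟩ := this
    exact ⟨_, ⟨toC (X i), ⟨X i, ⟨1, X_mem_V i⟩, rfl⟩, rfl⟩, hi⟩
  obtain ⟨⟨_, p, ⟨N, hp⟩, rfl⟩, h⟩ :=
    ContinuousMap.exists_mem_subalgebra_near_continuous_of_separatesPoints _ hs f hf ε hε
  exact ⟨N, p, hp, h⟩

theorem norm_le_of_abs_le {u : R} {c : ℝ} (hc : 0 ≤ c) (h : ∀ x, |u x| ≤ c) : ‖u‖ ≤ c := by
  refine le_of_pow_le_pow_left₀ two_ne_zero hc ?_
  have h1 : I (u ^ 2) ≤ I ((c ^ 2) • (1 : R)) := I_mono fun x => by
    simpa using sq_le_sq' (abs_le.1 (h x)).1 (abs_le.1 (h x)).2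
  rw [norm_sq]
  simpa using h1

theorem norm_sub_proj_le {N : ℕ} {p : R} (hp : p ∈ V N) (z : R) :
    ‖z - proj N z‖ ≤ ‖z - p‖ := by
  have h := sub_proj_mem N z _ (Submodule.sub_mem _ (proj_mem N z) hp)
  have h2 := norm_add_sq_real (proj N z - p) (z - proj N z)
  rw [h, show proj N z - p + (z - proj N z) = z - p by abel] at h2
  refine le_of_pow_le_pow_left₀ two_ne_zero (norm_nonneg _) ?_
  nlinarith [sq_nonneg ‖proj N z - p‖]

/-- density of the polynomials -/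
theorem tendsto_proj (z : R) : Tendsto (fun N => ‖z - proj N z‖) atTop (𝓝 0) := by
  refine Metric.tendsto_atTop.2 fun ε hε => ?_
  obtain ⟨N, p, hp, h⟩ := exists_poly_near z.continuous (half_pos hε)
  refine ⟨N, fun M hM => ?_⟩
  have h1 := norm_sub_proj_le (V_mono hM hp) z
  have h2 : ‖z - p‖ ≤ ε / 2 := norm_le_of_abs_le (half_pos hε).le fun x => by
    rw [R.sub_apply, abs_sub_comm]; exact (h x).le
  rw [Real.dist_eq, sub_zero, abs_of_nonneg (norm_nonneg _)]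
  linarith

theorem eq_zero_of_orth {z : R} (h : ∀ N, z ∈ (V N)ᗮ) : z = 0 := by
  have h1 := tendsto_proj z
  simp only [fun N => proj_eq_zero.2 (h N), sub_zero] at h1
  exact norm_eq_zero.1 (tendsto_nhds_unique tendsto_const_nhds h1)

theorem eq_of_har {u v : R} (h : ∀ l, har l u = har l v) : u = v := by
  refine sub_eq_zero.1 (eq_zero_of_orth fun N => proj_eq_zero.1 ?_)
  rw [proj_eq_sum]
  exact Finset.sum_eq_zero fun l _ => by rw [map_sub, h, sub_self]

theorem Adm.comm_Lap {T : R →ₗ[ℝ] R} (hT : Adm T) (z : R) : Lap (T z) = T (Lap z) :=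
  eq_of_har fun l => by
    rw [adm_Lap.har_comm, hT.har_comm, hT.har_comm, adm_Lap.har_comm, Lap_H (har_mem l z),
      Lap_H (hT.mem_H (har_mem l z)), map_smul]

/-- quadratic functionals that split along the spherical harmonics -/
structure Spec (Q : R → ℝ) : Prop where
  nonneg : ∀ u, 0 ≤ Q u
  split : ∀ N, ∀ p ∈ V N, ∀ w ∈ (V N)ᗮ, Q (p + w) = Q p + Q w
  lim : ∀ z, Tendsto (fun N => Q (z - proj N z)) atTop (𝓝 0)

theorem spec_norm : Spec fun u => ‖u‖ ^ 2 :=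
  ⟨fun _ => sq_nonneg _, fun N p hp w hw => by rw [norm_add_sq_real, hw p hp]; ring,
    fun z => by simpa using (tendsto_proj z).pow 2⟩

theorem Spec.comp {Q : R → ℝ} (hQ : Spec Q) {T : R →ₗ[ℝ] R} (hT : Adm T) :
    Spec fun u => Q (T u) :=
  ⟨fun _ => hQ.nonneg _, fun N p hp w hw => by
    rw [map_add]; exact hQ.split N _ (hT.mem N p hp) _ (hT.orth N w hw),
    fun z => by simpa only [map_sub, ← hT.proj_comm] using hQ.lim (T z)⟩

theorem Spec.add {Q Q' : R → ℝ} (hQ : Spec Q) (hQ' : Spec Q') : Spec fun u => Q u + Q' u :=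
  ⟨fun u => add_nonneg (hQ.nonneg u) (hQ'.nonneg u), fun N p hp w hw => by
    rw [hQ.split N p hp w hw, hQ'.split N p hp w hw]; ring,
    fun z => by simpa using (hQ.lim z).add (hQ'.lim z)⟩

theorem Spec.smul {Q : R → ℝ} (hQ : Spec Q) {c : ℝ} (hc : 0 ≤ c) : Spec fun u => c * Q u :=
  ⟨fun u => mul_nonneg hc (hQ.nonneg u), fun N p hp w hw => by
    rw [hQ.split N p hp w hw]; ring,
    fun z => by simpa using (hQ.lim z).const_mul c⟩

theorem Spec.sum {ι : Type*} [Fintype ι] {Q : ι → R → ℝ} (hQ : ∀ i, Spec (Q i)) :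
    Spec fun u => ∑ i, Q i u :=
  ⟨fun u => Finset.sum_nonneg fun i _ => (hQ i).nonneg u, fun N p hp w hw => by
    rw [← Finset.sum_add_distrib]
    exact Finset.sum_congr rfl fun i _ => (hQ i).split N p hp w hw,
    fun z => by simpa using tendsto_finsetSum Finset.univ fun i _ => (hQ i).lim z⟩

theorem spec_P : ∀ k, Spec (P k)
  | 0 => spec_norm
  | k + 1 => (spec_P k).add (Spec.sum fun i => (spec_P k).comp (adm_E i))

theorem spec_grad : Spec fun u => ∑ i, ‖E i u‖ ^ 2 := Spec.sum fun i => spec_norm.comp (adm_E i)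

theorem Spec.zero {Q : R → ℝ} (hQ : Spec Q) : Q 0 = 0 := by
  have h := hQ.split 0 0 (Submodule.zero_mem _) 0 (Submodule.zero_mem _)
  rw [add_zero] at h; linarith

theorem Spec.proj_add {Q : R → ℝ} (hQ : Spec Q) (N : ℕ) (z : R) :
    Q z = Q (proj N z) + Q (z - proj N z) := by
  rw [← hQ.split N _ (proj_mem N z) _ (sub_proj_mem N z), add_sub_cancel]

theorem Spec.proj_le {Q : R → ℝ} (hQ : Spec Q) (N : ℕ) (z : R) : Q (proj N z) ≤ Q z := by
  have := hQ.proj_add N z; have := hQ.nonneg (z - proj N z); linarith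

theorem Spec.sub_proj_le {Q : R → ℝ} (hQ : Spec Q) (N : ℕ) (z : R) :
    Q (z - proj N z) ≤ Q z := by
  have := hQ.proj_add N z; have := hQ.nonneg (proj N z); linarith

theorem Spec.proj_sum {Q : R → ℝ} (hQ : Spec Q) (N : ℕ) (z : R) :
    Q (proj N z) = ∑ l ∈ Finset.range (N + 1), Q (har l z) := by
  induction N with
  | zero => simp [har_zero]
  | succ N ih =>
    rw [Finset.sum_range_succ, ← ih, ← hQ.split N _ (proj_mem N z) _ (har_mem (N + 1) z).1,
      har_succ, add_sub_cancel]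

theorem Spec.tendsto {Q : R → ℝ} (hQ : Spec Q) (z : R) :
    Tendsto (fun N => Q (proj N z)) atTop (𝓝 (Q z)) := by
  have h := (hQ.lim z).const_sub (Q z)
  rw [sub_zero] at h
  refine h.congr fun N => ?_
  have := hQ.proj_add N z; linarith

/-- comparison of two functionals degree by degree -/
theorem Spec.le {Q Q' : R → ℝ} (hQ : Spec Q) (hQ' : Spec Q') {z : R}
    (h : ∀ l, Q (har l z) ≤ Q' (har l z)) : Q z ≤ Q' z :=
  le_of_tendsto_of_tendsto' (hQ.tendsto z) (hQ'.tendsto z) fun N => by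
    rw [hQ.proj_sum, hQ'.proj_sum]; exact Finset.sum_le_sum fun l _ => h l

theorem Spec.eq {Q Q' : R → ℝ} (hQ : Spec Q) (hQ' : Spec Q')
    (h : ∀ l, ∀ w ∈ H l, Q w = Q' w) (z : R) : Q z = Q' z :=
  le_antisymm (hQ.le hQ' fun l => (h l _ (har_mem l z)).le)
    (hQ'.le hQ fun l => (h l _ (har_mem l z)).ge)

/-- comparison on the orthogonal complement of the polynomials of degree at most `N` -/
theorem Spec.le_orth {Q Q' : R → ℝ} (hQ : Spec Q) (hQ' : Spec Q') {N : ℕ} {z : R}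
    (hz : z ∈ (V N)ᗮ) (h : ∀ l, N < l → ∀ w ∈ H l, Q w ≤ Q' w) : Q z ≤ Q' z :=
  hQ.le hQ' fun l => by
    rcases le_or_gt l N with hl | hl
    · rw [har_eq_zero_of_orth hz hl, hQ.zero, hQ'.zero]
    · exact h l hl _ (har_mem l z)

/-- the Jackson bound -/
theorem jackson {N : ℕ} {z : R} (hz : z ∈ (V N)ᗮ) :
    ((N : ℝ) + 1) * (N + 3) * ‖z‖ ^ 2 ≤ ∑ i, ‖E i z‖ ^ 2 :=
  (spec_norm.smul (c := ((N : ℝ) + 1) * (N + 3)) (by positivity)).le_orth spec_grad hz
    fun l hl w hw => by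
      rw [sum_norm_E_H hw]
      have h1 : (N : ℝ) + 1 ≤ l := by exact_mod_cast hl
      have h2 : (0 : ℝ) ≤ N := Nat.cast_nonneg N
      exact mul_le_mul_of_nonneg_right (by nlinarith) (sq_nonneg _)

/-- the Jackson bound in the Sobolev norms -/
theorem jackson_P (k j : ℕ) {N : ℕ} {z : R} (hz : z ∈ (V N)ᗮ) :
    ((N : ℝ) + 2) ^ (2 * j) * P k z ≤ P (k + j) z :=
  ((spec_P k).smul (c := ((N : ℝ) + 2) ^ (2 * j)) (by positivity)).le_orth (spec_P _) hz
    fun l hl w hw => by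
      have h1 : (N : ℝ) + 1 ≤ l := by exact_mod_cast hl
      have h2 : ((N : ℝ) + 2) ^ (2 * j) ≤ ((l : ℝ) + 1) ^ (2 * j) :=
        pow_le_pow_left₀ (by positivity) (by linarith) _
      have h3 := mul_le_mul_of_nonneg_right h2 ((spec_P k).nonneg w)
      refine h3.trans_eq ?_
      rw [P_H k hw, P_H _ hw]; ring

theorem P_two_add (k : ℕ) (z : R) : P (k + 2) z = P k (z - Lap z) :=
  (spec_P _).eq ((spec_P k).comp (Adm.one.sub adm_Lap)) (fun l w hw => by
    have h := (Adm.one.sub adm_Lap).mem_H hw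
    have e : ((1 : R →ₗ[ℝ] R) - Lap) w = (((l : ℝ) + 1) ^ 2) • w := by
      rw [LinearMap.sub_apply, Lap_H hw, Module.End.one_apply]; module
    rw [P_H _ hw, P_H _ h, e, norm_smul, Real.norm_of_nonneg (by positivity)]
    ring) z

theorem P_two (z : R) : P 2 z = ‖z - Lap z‖ ^ 2 := P_two_add 0 z

end Pool.Agent.MP_48470b_gt.Sph
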