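import Pool.Agent.MP_48470b_gt.Sph.S3a

/-! Facts on the two frames used by the linear theory. -/

open scoped RealInnerProductSpace ContDiff
open MeasureTheory

noncomputable section

namespace Pool.Agent.MP_48470b_gt.Sph

theorem pre_ibpE (i : Fin 3) (u v : R) : ⟪E i u, v⟫ = -⟪u, E i v⟫ := by
  rw [E, inner_D (teM_skew i), neg_neg]

theorem pre_ibpF (i : Fin 3) (u v : R) : ⟪F i u, v⟫ = -⟪u, F i v⟫ := by
  rw [F, inner_D (tfM_skew i), neg_neg]

theorem pre_F_X (a : Fin 3) (i : Fin 4) : F a (X i) = ∑ j, fM a i j • X j := by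
  ext x
  rw [F, tD_X (tfM_skew a)]
  simp [mat, Matrix.mulVec, dotProduct]

theorem pre_EF_X (i l : Fin 3) (j : Fin 4) : E i (F l (X j)) = F l (E i (X j)) := by
  simp only [E_X, pre_F_X, map_add, Derivation.map_smul, Fin.sum_univ_four]
  fin_cases i <;> fin_cases l <;> fin_cases j <;> simp [eM, fM]

theorem pre_EF_V (i l : Fin 3) {N : ℕ} {p : R} (hp : p ∈ V N) : E i (F l p) = F l (E i p) := by
  induction N generalizing p with
  | zero => obtain ⟨c, rfl⟩ := V_zero_eq hp; simp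
  | succ N ih =>
    have h := V_succ_map ((E i : R →ₗ[ℝ] R) ∘ₗ (F l : R →ₗ[ℝ] R)
      - (F l : R →ₗ[ℝ] R) ∘ₗ (E i : R →ₗ[ℝ] R)) ⊥
      (fun q hq => by simp [ih hq])
      (fun j q hq => by
        simp only [LinearMap.sub_apply, LinearMap.comp_apply, Derivation.coeFn_coe,
          Derivation.leibniz, smul_eq_mul, map_add, ih hq, pre_EF_X, Submodule.mem_bot]
        ring) hp
    simpa [sub_eq_zero] using h

theorem pre_dense {z : R} (h : ∀ N, ∀ p ∈ V N, ⟪z, p⟫ = 0) : z = 0 :=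
  eq_zero_of_orth fun N => (Submodule.mem_orthogonal' _ _).2 (h N)

theorem pre_EF (i l : Fin 3) (u : R) : E i (F l u) = F l (E i u) :=
  sub_eq_zero.1 (pre_dense fun N p hp => by
    rw [inner_sub_left, pre_ibpE, pre_ibpF, pre_ibpF, pre_ibpE, pre_EF_V i l hp, sub_self])

theorem pre_radial (u : R) (x : S3) : fderiv ℝ (hom u) x x = 0 := by
  have h1 : HasDerivAt (fun t : ℝ => hom u (t • (x : E4))) (fderiv ℝ (hom u) x x) 1 := by
    have h2 : HasFDerivAt (hom u) (fderiv ℝ (hom u) x) ((1 : ℝ) • (x : E4)) := by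
      rw [one_smul]; exact (u.diff (S3.ne x)).hasFDerivAt
    have h4 := h2.comp_hasDerivAt (1 : ℝ) ((hasDerivAt_id (1 : ℝ)).smul_const (x : E4))
    rw [one_smul] at h4
    exact h4
  have h3 : (fun t : ℝ => hom u (t • (x : E4))) =ᶠ[nhds 1] fun _ => u x := by
    filter_upwards [lt_mem_nhds (zero_lt_one' ℝ)] with t ht
    simp [hom, pr_smul ht]
  exact h1.unique ((hasDerivAt_const (1 : ℝ) (u x)).congr_of_eventuallyEq h3)

theorem pre_sq (x : S3) : (x : E4) 0 ^ 2 + (x : E4) 1 ^ 2 + (x : E4) 2 ^ 2 + (x : E4) 3 ^ 2 = 1 := by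
  simpa using congrArg (fun u : R => u x) sum_X_sq

theorem pre_frame (x : S3) (v : E4) :
    v = ⟪(x : E4), v⟫ • (x : E4) + ∑ i, ⟪mat (eM i) x, v⟫ • mat (eM i) x := by
  have h := pre_sq x
  ext j
  fin_cases j <;>
    simp [mat, eM, Matrix.mulVec, dotProduct, Fin.sum_univ_four, Fin.sum_univ_three,
      PiLp.inner_apply] <;>
    linear_combination (-(v _)) * h

theorem pre_fderiv (u : R) (x : S3) (v : E4) :
    fderiv ℝ (hom u) x v = ∑ i, ⟪mat (eM i) x, v⟫ * E i u x := by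
  conv_lhs => rw [pre_frame x v]
  simp only [map_add, map_smul, map_sum, pre_radial, smul_eq_mul, mul_zero, zero_add]
  rfl

theorem pre_sumF_pt (v : R) (x : S3) : ∑ l, F l v x ^ 2 = ∑ i, E i v x ^ 2 := by
  have h := pre_sq x
  have e : ∀ l, F l v x = ∑ i, ⟪mat (eM i) x, mat (fM l) x⟫ * E i v x := fun l => pre_fderiv v x _
  have e2 : ∀ a : Fin 3 → ℝ,
      ∑ l, (∑ i, ⟪mat (eM i) x, mat (fM l) x⟫ * a i) ^ 2 = ∑ i, a i ^ 2 := fun a => by
    simp [mat, eM, fM, Matrix.mulVec, dotProduct, Fin.sum_univ_four, Fin.sum_univ_three,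
      PiLp.inner_apply]
    linear_combination (a 0 ^ 2 + a 1 ^ 2 + a 2 ^ 2)
      * ((x : E4) 0 ^ 2 + (x : E4) 1 ^ 2 + (x : E4) 2 ^ 2 + (x : E4) 3 ^ 2 + 1) * h
  simp only [e]
  exact e2 _

theorem pre_sumF (v : R) : ∑ l, ‖F l v‖ ^ 2 = ∑ i, ‖E i v‖ ^ 2 := by
  simp only [norm_sq]
  rw [← map_sum, ← map_sum]
  congr 1
  ext x
  simpa using pre_sumF_pt v x

theorem pre_FV (l : Fin 3) {N : ℕ} {u : R} (h : u ∈ V N) : F l u ∈ V N := F_mem_V l h
theorem pre_sup : ∃ C : ℝ, ∀ (v : R) (x : S3), v x ^ 2 ≤ C * P 2 v := ⟨2, sup_P'⟩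

end Pool.Agent.MP_48470b_gt.Sph
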