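import Pool.Agent.MP_48470b_gt.Sph.Defs

/-! Words in the frame, elementary bounds, and four classes of sequences. -/

open scoped RealInnerProductSpace

noncomputable section

namespace Pool.Agent.MP_48470b_gt.Sph.S5

open Pool.Agent.MP_48470b_gt.Sph

theorem W_append (J K : List (Fin 3)) (u : R) : W (J ++ K) u = W J (W K u) := by
  induction J with
  | nil => rfl
  | cons i J ih => simp [W, ih]

theorem W_add (J : List (Fin 3)) (u v : R) : W J (u + v) = W J u + W J v := by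
  induction J with
  | nil => rfl
  | cons i J ih => simp [W, ih]

theorem W_zero (J : List (Fin 3)) : W J 0 = 0 := by
  induction J with
  | nil => rfl
  | cons i J ih => simp [W, ih]

theorem W_sub (J : List (Fin 3)) (u v : R) : W J (u - v) = W J u - W J v := by
  induction J with
  | nil => rfl
  | cons i J ih => simp [W, ih]

theorem W_sum {ι : Type*} (J : List (Fin 3)) (s : Finset ι) (f : ι → R) :
    W J (∑ i ∈ s, f i) = ∑ i ∈ s, W J (f i) := by
  induction J with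
  | nil => rfl
  | cons i J ih => simp [W, ih]

theorem P_nonneg : ∀ (k : ℕ) (u : R), 0 ≤ P k u
  | 0, u => by simp only [P]; positivity
  | k + 1, u => by
    simp only [P]
    exact add_nonneg (P_nonneg k u) (Finset.sum_nonneg fun i _ => P_nonneg k _)

theorem P_E_le (k : ℕ) (i : Fin 3) (u : R) : P k (E i u) ≤ P (k + 1) u := by
  have h1 : P k (E i u) ≤ ∑ j, P k (E j u) :=
    Finset.single_le_sum (f := fun j => P k (E j u)) (fun j _ => P_nonneg k _) (Finset.mem_univ i)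
  have := P_nonneg k u
  simp only [P]; linarith

theorem P_le_succ (k : ℕ) (u : R) : P k u ≤ P (k + 1) u := by
  have : 0 ≤ ∑ j, P k (E j u) := Finset.sum_nonneg fun i _ => P_nonneg k _
  simp only [P]; linarith

theorem P_mono {k l : ℕ} (h : k ≤ l) (u : R) : P k u ≤ P l u := by
  induction h with
  | refl => exact le_rfl
  | step _ ih => exact ih.trans (P_le_succ _ u)

theorem P_W_le (J : List (Fin 3)) : ∀ (k : ℕ) (u : R), P k (W J u) ≤ P (k + J.length) u := by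
  induction J with
  | nil => intro k u; exact le_rfl
  | cons i J ih =>
    intro k u
    refine (P_E_le k i _).trans ((ih (k + 1) u).trans (le_of_eq ?_))
    simp only [List.length_cons]; congr 1; omega

theorem W_sq_le {J : List (Fin 3)} {k : ℕ} (h : J.length ≤ k) (u : R) : ‖W J u‖ ^ 2 ≤ P k u :=
  (P_W_le J 0 u).trans (P_mono (by simpa using h) u)

theorem W_le {J : List (Fin 3)} {k : ℕ} (h : J.length ≤ k) (u : R) : ‖W J u‖ ≤ √(P k u) :=
  Real.le_sqrt_of_sq_le (W_sq_le h u)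

theorem P_le_of_words : ∀ (k : ℕ) (u : R) (B : ℝ),
    (∀ J : List (Fin 3), J.length ≤ k → ‖W J u‖ ^ 2 ≤ B) → P k u ≤ 4 ^ k * B
  | 0, u, B, h => by simpa [P, W] using h [] le_rfl
  | k + 1, u, B, h => by
    have h1 := P_le_of_words k u B fun J hJ => h J (by omega)
    have h2 : ∀ i, P k (E i u) ≤ 4 ^ k * B := fun i => P_le_of_words k _ B fun J hJ => by
      have := h (J ++ [i]) (by simp; omega)
      rwa [W_append] at this
    simp only [P, Fin.sum_univ_three]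
    have := h2 0; have := h2 1; have := h2 2
    rw [pow_succ]; linarith

theorem bdd (c : R) : ∃ C, 0 ≤ C ∧ ∀ x, |c x| ≤ C := by
  obtain ⟨C, hC⟩ := isCompact_univ.exists_bound_of_continuousOn c.continuous.continuousOn
  exact ⟨max C 0, le_max_right _ _, fun x => (hC x trivial).trans (le_max_left _ _)⟩

theorem norm_le_of_sq {f g : R} {C : ℝ} (hC : 0 ≤ C) (h : ∀ x, f x ^ 2 ≤ C ^ 2 * g x ^ 2) :
    ‖f‖ ≤ C * ‖g‖ := by
  refine (sq_le_sq₀ (norm_nonneg _) (by positivity)).1 ?_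
  rw [mul_pow, norm_sq, norm_sq, ← smul_eq_mul, ← map_smul]
  exact I_mono fun x => by simpa using h x

theorem norm_mul_le_sup {f g : R} {C : ℝ} (h : ∀ x, |f x| ≤ C) : ‖f * g‖ ≤ C * ‖g‖ := by
  have hC : 0 ≤ C := (abs_nonneg _).trans (h (pr 0))
  refine norm_le_of_sq hC fun x => ?_
  rw [R.mul_apply, mul_pow]
  exact mul_le_mul_of_nonneg_right (sq_le_sq' (abs_le.1 (h x)).1 (abs_le.1 (h x)).2) (sq_nonneg _)

theorem norm_one : ‖(1 : R)‖ = 1 := by
  have h : ‖(1 : R)‖ ^ 2 = 1 := by rw [norm_sq]; simp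
  nlinarith [norm_nonneg (1 : R)]

theorem norm_le_sup {f : R} {C : ℝ} (h : ∀ x, |f x| ≤ C) : ‖f‖ ≤ C := by
  simpa [norm_one] using norm_mul_le_sup (g := 1) h

theorem abs_I_mul (f g : R) : |I (f * g)| ≤ ‖f‖ * ‖g‖ := by
  rw [← inner_def]; exact abs_real_inner_le_norm f g

theorem norm_mul_sq_le (f g : R) : ‖f * g‖ ^ 2 ≤ ‖f ^ 2‖ * ‖g ^ 2‖ := by
  rw [norm_sq, mul_pow]; exact (le_abs_self _).trans (abs_I_mul _ _)

theorem norm_add_sq_le (f g : R) : ‖(f + g) ^ 2‖ ≤ 2 * (‖f ^ 2‖ + ‖g ^ 2‖) := by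
  refine (norm_le_of_sq (g := f ^ 2 + g ^ 2) (by norm_num) fun x => ?_).trans
    (mul_le_mul_of_nonneg_left (norm_add_le _ _) (by norm_num))
  simp only [R.pow_apply, R.add_apply]
  rw [← mul_pow]
  exact pow_le_pow_left₀ (sq_nonneg _) (by nlinarith [sq_nonneg (f x - g x)]) 2

/-- uniformly bounded -/
def S0 (f : ℕ → R) : Prop := ∃ C, ∀ n x, |f n x| ≤ C

/-- bounded in the fourth power mean, uniformly small relative to `Y` -/
def S1 (Y : ℕ → ℝ) (f : ℕ → R) : Prop :=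
  (∃ C, ∀ n, ‖f n ^ 2‖ ≤ C) ∧ ∀ η : ℝ, 0 < η → ∃ C, ∀ n x, |f n x| ≤ η * Y n + C

/-- bounded in the quadratic mean -/
def S2 (f : ℕ → R) : Prop := ∃ C, ∀ n, ‖f n‖ ≤ C

/-- small in the quadratic mean relative to `Y` -/
def S3' (Y : ℕ → ℝ) (f : ℕ → R) : Prop := ∀ η : ℝ, 0 < η → ∃ C, ∀ n, ‖f n‖ ≤ η * Y n + C

variable {Y : ℕ → ℝ} {f g : ℕ → R}

theorem S0.s1 (hY : ∀ n, 0 ≤ Y n) (h : S0 f) : S1 Y f := by
  obtain ⟨C, hC⟩ := h
  refine ⟨⟨C ^ 2, fun n => norm_le_sup fun x => ?_⟩, fun η hη => ⟨C, fun n x => ?_⟩⟩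
  · rw [R.pow_apply, abs_pow]; exact pow_le_pow_left₀ (abs_nonneg _) (hC n x) 2
  · have := mul_nonneg hη.le (hY n); linarith [hC n x]

theorem S1.s2 (h : S1 Y f) : S2 f := by
  obtain ⟨⟨C, hC⟩, -⟩ := h
  refine ⟨√C, fun n => Real.le_sqrt_of_sq_le ?_⟩
  have := norm_mul_sq_le (f n) 1
  rw [mul_one, one_pow, norm_one, mul_one] at this
  exact this.trans (hC n)

theorem S2.s3 (hY : ∀ n, 0 ≤ Y n) (h : S2 f) : S3' Y f := by
  obtain ⟨C, hC⟩ := h
  refine fun η hη => ⟨C, fun n => ?_⟩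
  have := mul_nonneg hη.le (hY n); linarith [hC n]

theorem S0.add (hf : S0 f) (hg : S0 g) : S0 (f + g) := by
  obtain ⟨C, hC⟩ := hf
  obtain ⟨D, hD⟩ := hg
  exact ⟨C + D, fun n x => (abs_add_le _ _).trans (add_le_add (hC n x) (hD n x))⟩

theorem S1.add (hf : S1 Y f) (hg : S1 Y g) : S1 Y (f + g) := by
  obtain ⟨⟨C, hC⟩, h1⟩ := hf
  obtain ⟨⟨D, hD⟩, h2⟩ := hg
  refine ⟨⟨2 * (C + D), fun n => (norm_add_sq_le _ _).trans ?_⟩, fun η hη => ?_⟩
  · linarith [hC n, hD n]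
  · obtain ⟨A, hA⟩ := h1 (η / 2) (by positivity)
    obtain ⟨B, hB⟩ := h2 (η / 2) (by positivity)
    refine ⟨A + B, fun n x => (abs_add_le (f n x) (g n x)).trans ?_⟩
    linarith [hA n x, hB n x]

theorem S2.add (hf : S2 f) (hg : S2 g) : S2 (f + g) := by
  obtain ⟨C, hC⟩ := hf
  obtain ⟨D, hD⟩ := hg
  exact ⟨C + D, fun n => (norm_add_le _ _).trans (add_le_add (hC n) (hD n))⟩

theorem S3'.add (hf : S3' Y f) (hg : S3' Y g) : S3' Y (f + g) := by
  intro η hη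
  obtain ⟨A, hA⟩ := hf (η / 2) (by positivity)
  obtain ⟨B, hB⟩ := hg (η / 2) (by positivity)
  refine ⟨A + B, fun n => (norm_add_le (f n) (g n)).trans ?_⟩
  linarith [hA n, hB n]

theorem S0.pos (hf : S0 f) : ∃ C, 0 < C ∧ ∀ n x, |f n x| ≤ C := by
  obtain ⟨C, hC⟩ := hf
  exact ⟨max C 1, by positivity, fun n x => (hC n x).trans (le_max_left _ _)⟩

theorem S2.pos (hf : S2 f) : ∃ C, 0 < C ∧ ∀ n, ‖f n‖ ≤ C := by
  obtain ⟨C, hC⟩ := hf
  exact ⟨max C 1, by positivity, fun n => (hC n).trans (le_max_left _ _)⟩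

theorem mul00 (hf : S0 f) (hg : S0 g) : S0 (f * g) := by
  obtain ⟨C, hC0, hC⟩ := hf.pos
  obtain ⟨D, hD⟩ := hg
  refine ⟨C * D, fun n x => ?_⟩
  change |f n x * g n x| ≤ _
  rw [abs_mul]
  exact mul_le_mul (hC n x) (hD n x) (abs_nonneg _) hC0.le

theorem mul01 (hf : S0 f) (hg : S1 Y g) : S1 Y (f * g) := by
  obtain ⟨C, hC0, hC⟩ := hf.pos
  obtain ⟨⟨D, hD⟩, h2⟩ := hg
  refine ⟨⟨C ^ 2 * D, fun n => ?_⟩, fun η hη => ?_⟩
  · change ‖(f n * g n) ^ 2‖ ≤ _
    rw [mul_pow]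
    refine (norm_mul_le_sup (C := C ^ 2) fun x => ?_).trans
      (mul_le_mul_of_nonneg_left (hD n) (by positivity))
    rw [R.pow_apply, abs_pow]; exact pow_le_pow_left₀ (abs_nonneg _) (hC n x) 2
  · obtain ⟨B, hB⟩ := h2 (η / C) (by positivity)
    refine ⟨C * B, fun n x => ?_⟩
    change |f n x * g n x| ≤ _
    rw [abs_mul]
    refine (mul_le_mul (hC n x) (hB n x) (abs_nonneg _) hC0.le).trans (le_of_eq ?_)
    field_simp

theorem mul02 (hf : S0 f) (hg : S2 g) : S2 (f * g) := by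
  obtain ⟨C, hC0, hC⟩ := hf.pos
  obtain ⟨D, hD⟩ := hg
  exact ⟨C * D, fun n => (norm_mul_le_sup (hC n)).trans (mul_le_mul_of_nonneg_left (hD n) hC0.le)⟩

theorem mul03 (hf : S0 f) (hg : S3' Y g) : S3' Y (f * g) := by
  obtain ⟨C, hC0, hC⟩ := hf.pos
  intro η hη
  obtain ⟨B, hB⟩ := hg (η / C) (by positivity)
  refine ⟨C * B, fun n => (norm_mul_le_sup (hC n)).trans
    ((mul_le_mul_of_nonneg_left (hB n) hC0.le).trans (le_of_eq ?_))⟩
  field_simp

theorem mul11 (hf : S1 Y f) (hg : S1 Y g) : S2 (f * g) := by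
  obtain ⟨⟨C, hC⟩, -⟩ := hf
  obtain ⟨⟨D, hD⟩, -⟩ := hg
  refine ⟨√(C * D), fun n => Real.le_sqrt_of_sq_le ((norm_mul_sq_le _ _).trans ?_)⟩
  exact mul_le_mul (hC n) (hD n) (norm_nonneg _) ((norm_nonneg _).trans (hC n))

theorem mul12 (hf : S1 Y f) (hg : S2 g) : S3' Y (f * g) := by
  obtain ⟨D, hD0, hD⟩ := hg.pos
  intro η hη
  obtain ⟨B, hB⟩ := hf.2 (η / D) (by positivity)
  refine ⟨B * D, fun n => (norm_mul_le_sup (hB n)).trans
    ((mul_le_mul_of_nonneg_left (hD n) ((abs_nonneg _).trans (hB n (pr 0)))).trans (le_of_eq ?_))⟩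
  field_simp

/-- the four classes as one graded family -/
def T (Y : ℕ → ℝ) : ℕ → (ℕ → R) → Prop
  | 0, f => S0 f
  | 1, f => S1 Y f
  | 2, f => S2 f
  | _ + 3, f => S3' Y f

theorem T.succ (hY : ∀ n, 0 ≤ Y n) : ∀ {t : ℕ}, T Y t f → T Y (t + 1) f
  | 0, h => S0.s1 hY h
  | 1, h => S1.s2 h
  | 2, h => S2.s3 hY h
  | _ + 3, h => h

theorem T.mono (hY : ∀ n, 0 ≤ Y n) {s t : ℕ} (hst : s ≤ t) (h : T Y s f) : T Y t f := by
  induction hst with
  | refl => exact h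
  | step _ ih => exact T.succ hY ih

theorem T.add : ∀ {t : ℕ}, T Y t f → T Y t g → T Y t (f + g)
  | 0, h, k => S0.add h k
  | 1, h, k => S1.add h k
  | 2, h, k => S2.add h k
  | _ + 3, h, k => S3'.add h k

theorem T.mul {s t : ℕ} (hst : s + t ≤ 3) (hf : T Y s f) (hg : T Y t g) :
    T Y (s + t) (f * g) := by
  have hs : s ≤ 3 := by omega
  have ht : t ≤ 3 := by omega
  interval_cases s <;> interval_cases t <;> first
    | omega
    | exact mul00 hf hg
    | exact mul01 hf hg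
    | exact mul02 hf hg
    | exact mul03 hf hg
    | exact mul11 hf hg
    | exact mul12 hf hg
    | (rw [mul_comm]; first
        | exact mul01 hg hf
        | exact mul02 hg hf
        | exact mul03 hg hf
        | exact mul12 hg hf)

end Pool.Agent.MP_48470b_gt.Sph.S5
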