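import Pool.Agent.MP_48470b_gt.Sph.S4Pre
import Pool.Agent.MP_48470b_gt.Sph.S5a

/-! Bounded families of smooth functions and the elliptic estimate for Galerkin solutions. -/

open scoped RealInnerProductSpace ContDiff
open MeasureTheory

noncomputable section

namespace Pool.Agent.MP_48470b_gt.Sph

open S5 (P_nonneg P_E_le P_le_succ)

theorem sum_P_F (k : ℕ) (u : R) : ∑ i, P k (E i u) = ∑ l, P k (F l u) := by
  induction k generalizing u with
  | zero => exact (pre_sumF u).symm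
  | succ k ih =>
    simp only [P, Finset.sum_add_distrib]
    rw [ih u]
    congr 1
    simp only [ih (E _ u)]
    rw [Finset.sum_comm]
    simp only [pre_EF]

theorem P_succ_F (k : ℕ) (u : R) : P (k + 1) u = P k u + ∑ l, P k (F l u) := by
  rw [← sum_P_F]; rfl

theorem P_F_le (k : ℕ) (l : Fin 3) (u : R) : P k (F l u) ≤ P (k + 1) u := by
  rw [P_succ_F]
  exact le_add_of_nonneg_of_le (P_nonneg _ _)
    (Finset.single_le_sum (f := fun l => P k (F l u)) (fun _ _ => P_nonneg _ _) (Finset.mem_univ l))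

theorem P_add_le (k : ℕ) (u v : R) : P k (u + v) ≤ 2 * P k u + 2 * P k v := by
  induction k generalizing u v with
  | zero =>
    simp only [P]
    have h := norm_add_le u v
    have h0 := norm_nonneg (u + v)
    nlinarith [sq_nonneg (‖u‖ - ‖v‖)]
  | succ k ih =>
    simp only [P, map_add]
    have h1 := ih u v
    have h2 : ∑ i, P k (E i u + E i v) ≤ ∑ i, (2 * P k (E i u) + 2 * P k (E i v)) :=
      Finset.sum_le_sum fun i _ => ih _ _
    rw [Finset.sum_add_distrib, ← Finset.mul_sum, ← Finset.mul_sum] at h2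
    linarith

theorem P_smul (k : ℕ) (c : ℝ) (u : R) : P k (c • u) = c ^ 2 * P k u := by
  induction k generalizing u with
  | zero => simp only [P, norm_smul, mul_pow, Real.norm_eq_abs, sq_abs]
  | succ k ih =>
    simp only [P, Derivation.map_smul, ih, mul_add, Finset.mul_sum]

theorem R.bdd (c : R) : ∃ M : ℝ, ∀ x, c x ^ 2 ≤ M := by
  obtain ⟨M, hM⟩ := (isCompact_range (c.continuous.pow 2)).bddAbove
  exact ⟨M, fun x => hM ⟨x, rfl⟩⟩

theorem P_mul_le (k : ℕ) (c : R) : ∃ C : ℝ, 0 ≤ C ∧ ∀ v : R, P k (c * v) ≤ C * P k v := by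
  induction k generalizing c with
  | zero =>
    obtain ⟨M, hM⟩ := c.bdd
    refine ⟨max M 0, le_max_right _ _, fun v => ?_⟩
    simp only [P, norm_sq]
    rw [← smul_eq_mul (max M 0), ← map_smul]
    refine I_mono fun x => ?_
    simp only [R.pow_apply, R.mul_apply, R.smul_apply, mul_pow]
    exact mul_le_mul_of_nonneg_right ((hM x).trans (le_max_left _ _)) (sq_nonneg _)
  | succ k ih =>
    obtain ⟨C, hC, h⟩ := ih c
    choose C' hC' h' using fun i => ih (E i c)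
    have hs : 0 ≤ ∑ i, (C + C' i) := Finset.sum_nonneg fun i _ => add_nonneg hC (hC' i)
    refine ⟨C + 2 * ∑ i, (C + C' i), by positivity, fun v => ?_⟩
    have h1 : ∀ i, P k (E i (c * v)) ≤ 2 * ((C + C' i) * P (k + 1) v) := fun i => by
      rw [Derivation.leibniz, smul_eq_mul, smul_eq_mul, mul_comm v]
      have a1 := (h (E i v)).trans (mul_le_mul_of_nonneg_left (P_E_le k i v) hC)
      have a2 := (h' i v).trans (mul_le_mul_of_nonneg_left (P_le_succ k v) (hC' i))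
      have a3 := P_add_le k (c * E i v) (E i c * v)
      linarith
    have h2 := Finset.sum_le_sum fun i (_ : i ∈ Finset.univ) => h1 i
    rw [← Finset.mul_sum, ← Finset.sum_mul] at h2
    have h3 := (h v).trans (mul_le_mul_of_nonneg_left (P_le_succ k v) hC)
    change P k (c * v) + _ ≤ _
    linarith

variable {σ : Type}

/-- a family that is bounded in the Sobolev norm of order `k` -/
def Bd (k : ℕ) (f : σ → R) : Prop := ∃ C : ℝ, ∀ s, P k (f s) ≤ C

theorem Bd.add {k : ℕ} {f g : σ → R} (hf : Bd k f) (hg : Bd k g) : Bd k fun s => f s + g s := by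
  obtain ⟨C, h⟩ := hf
  obtain ⟨C', h'⟩ := hg
  exact ⟨2 * C + 2 * C', fun s => by linarith [P_add_le k (f s) (g s), h s, h' s]⟩

theorem Bd.mul {k : ℕ} {f : σ → R} (c : R) (hf : Bd k f) : Bd k fun s => c * f s := by
  obtain ⟨C, h⟩ := hf
  obtain ⟨C', h0, h'⟩ := P_mul_le k c
  exact ⟨C' * C, fun s => (h' _).trans (mul_le_mul_of_nonneg_left (h s) h0)⟩

theorem Bd.neg {k : ℕ} {f : σ → R} (hf : Bd k f) : Bd k fun s => -f s := by
  simpa using hf.mul (-1)

theorem Bd.sub {k : ℕ} {f g : σ → R} (hf : Bd k f) (hg : Bd k g) : Bd k fun s => f s - g s := by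
  simpa only [sub_eq_add_neg] using hf.add hg.neg

theorem Bd.const (k : ℕ) (c : R) : Bd k fun _ : σ => c := ⟨P k c, fun _ => le_rfl⟩

theorem Bd.sum {k : ℕ} {ι : Type} (t : Finset ι) {f : ι → σ → R} (hf : ∀ i, Bd k (f i)) :
    Bd k fun s => ∑ i ∈ t, f i s := by
  classical
  induction t using Finset.induction_on with
  | empty => simpa using Bd.const k 0
  | insert a t ha ih => simpa only [Finset.sum_insert ha] using (hf a).add ih

theorem Bd.pred {k : ℕ} {f : σ → R} (hf : Bd (k + 1) f) : Bd k f :=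
  let ⟨C, h⟩ := hf; ⟨C, fun s => (P_le_succ _ _).trans (h s)⟩

theorem Bd.of_le {k m : ℕ} {f : σ → R} (hf : Bd m f) (h : k ≤ m) : Bd k f := by
  induction h with
  | refl => exact hf
  | step _ ih => exact ih hf.pred

theorem Bd.E {k : ℕ} {f : σ → R} (hf : Bd (k + 1) f) (i : Fin 3) : Bd k fun s => E i (f s) :=
  let ⟨C, h⟩ := hf; ⟨C, fun s => (P_E_le _ _ _).trans (h s)⟩

theorem Bd.F {k : ℕ} {f : σ → R} (hf : Bd (k + 1) f) (i : Fin 3) : Bd k fun s => F i (f s) :=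
  let ⟨C, h⟩ := hf; ⟨C, fun s => (P_F_le _ _ _).trans (h s)⟩

theorem Bd.succ_E {k : ℕ} {f : σ → R} (hf : Bd k f) (h : ∀ i, Bd k fun s => Sph.E i (f s)) :
    Bd (k + 1) f := by
  obtain ⟨C, hC⟩ := hf
  choose C' hC' using h
  exact ⟨C + ∑ i, C' i, fun s => add_le_add (hC s) (Finset.sum_le_sum fun i _ => hC' i s)⟩

theorem Bd.succ_F {k : ℕ} {f : σ → R} (hf : Bd k f) (h : ∀ i, Bd k fun s => Sph.F i (f s)) :
    Bd (k + 1) f := by
  obtain ⟨C, hC⟩ := hf
  choose C' hC' using h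
  exact ⟨C + ∑ i, C' i, fun s => by
    rw [P_succ_F]; exact add_le_add (hC s) (Finset.sum_le_sum fun i _ => hC' i s)⟩

theorem Bd.rsmul {k : ℕ} {t : σ → ℝ} (ht : ∀ s, |t s| ≤ 1) (c : R) : Bd k fun s => t s • c :=
  ⟨P k c, fun s => by
    rw [P_smul]
    have h1 : t s ^ 2 ≤ 1 := by rw [← sq_abs]; exact pow_le_one₀ (abs_nonneg _) (ht s)
    nlinarith [P_nonneg k c]⟩

/-- the weak equation `div a + b = 0` tested on a space of functions -/
def Weak (U : Submodule ℝ R) (a : Fin 3 → R) (b : R) : Prop :=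
  ∀ p ∈ U, ∑ i, ⟪a i, E i p⟫ = ⟪b, p⟫

theorem Weak.F {N : ℕ} {a : Fin 3 → R} {b : R} (h : Weak (V N) a b) (l : Fin 3) :
    Weak (V N) (fun i => F l (a i)) (F l b) := fun p hp => by
  simp only [pre_ibpF, ← pre_EF, Finset.sum_neg_distrib]
  rw [h _ (pre_FV l hp)]

theorem inner_le_eps {lam : ℝ} (hl : 0 < lam) (u v : R) :
    ⟪u, v⟫ ≤ lam / 2 * ‖v‖ ^ 2 + (2 * lam)⁻¹ * ‖u‖ ^ 2 := by
  have h := real_inner_le_norm u v
  have h2 : ‖u‖ * ‖v‖ ≤ lam / 2 * ‖v‖ ^ 2 + (2 * lam)⁻¹ * ‖u‖ ^ 2 := by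
    have h3 : lam / 2 * ‖v‖ ^ 2 + (2 * lam)⁻¹ * ‖u‖ ^ 2 - ‖u‖ * ‖v‖
        = (2 * lam)⁻¹ * (lam * ‖v‖ - ‖u‖) ^ 2 := by field_simp; ring
    have h4 : 0 ≤ (2 * lam)⁻¹ * (lam * ‖v‖ - ‖u‖) ^ 2 := by positivity
    linarith
  linarith

variable {al : Fin 3 → Fin 3 → R} {be : Fin 3 → R} {ga : R} {lam : ℝ}

theorem ell_zero (hl : 0 < lam)
    (hal : ∀ (x : S3) (ξ : Fin 3 → ℝ), lam * ∑ i, ξ i ^ 2 ≤ ∑ i, ∑ j, al i j x * ξ i * ξ j)
    (N : σ → ℕ) (w h0 : σ → R) (h : Fin 3 → σ → R) (hw : ∀ s, w s ∈ V (N s))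
    (he : ∀ s, Weak (V (N s)) (fun i => ∑ j, al i j * E j (w s) - h i s)
      (∑ i, be i * E i (w s) + ga * w s - h0 s))
    (b0 : Bd 0 w) (b1 : Bd 0 h0) (b2 : ∀ i, Bd 0 (h i)) : Bd 1 w := by
  choose C1 hC1 using fun i => (b2 i).add (b0.mul (be i))
  obtain ⟨C2, hC2⟩ := (b0.mul ga).sub b1
  obtain ⟨C0, hC0⟩ := b0
  refine ⟨C0 + 2 / lam * ((2 * lam)⁻¹ * ∑ i, C1 i + (C0 + C2) / 2), fun s => ?_⟩
  have e := he s _ (hw s)
  have h1 : lam * ∑ i, ‖E i (w s)‖ ^ 2 ≤ ∑ i, ⟪∑ j, al i j * E j (w s), E i (w s)⟫ := by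
    simp only [norm_sq, inner_def]
    rw [← map_sum, ← map_sum, ← smul_eq_mul, ← map_smul]
    refine I_mono fun x => ?_
    simp only [R.smul_apply, R.sum_apply, R.pow_apply, R.mul_apply, Finset.sum_mul]
    refine (hal x fun i => E i (w s) x).trans (le_of_eq ?_)
    exact Finset.sum_congr rfl fun i _ => Finset.sum_congr rfl fun j _ => by ring
  have h2 : ∑ i, ⟪∑ j, al i j * E j (w s), E i (w s)⟫
      = ∑ i, ⟪h i s + be i * w s, E i (w s)⟫ + ⟪ga * w s - h0 s, w s⟫ := by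
    simp only [inner_sub_left, inner_add_left, Finset.sum_sub_distrib, Finset.sum_add_distrib,
      sum_inner (f := fun i => be i * E i (w s))] at e ⊢
    have h3 : ∀ i, ⟪be i * E i (w s), w s⟫ = ⟪be i * w s, E i (w s)⟫ := fun i => by
      rw [inner_def, inner_def]; congr 1; ring
    simp only [h3] at e
    linarith
  have h4 : ∑ i, ⟪h i s + be i * w s, E i (w s)⟫
      ≤ ∑ i, (lam / 2 * ‖E i (w s)‖ ^ 2 + (2 * lam)⁻¹ * C1 i) :=
    Finset.sum_le_sum fun i _ => (inner_le_eps hl _ _).trans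
      (add_le_add le_rfl (mul_le_mul_of_nonneg_left (hC1 i s) (by positivity)))
  rw [Finset.sum_add_distrib, ← Finset.mul_sum, ← Finset.mul_sum] at h4
  have h5 := inner_le_eps one_pos (ga * w s - h0 s) (w s)
  have h6 : ‖w s‖ ^ 2 ≤ C0 := hC0 s
  have h7 : ‖ga * w s - h0 s‖ ^ 2 ≤ C2 := hC2 s
  have h8 : lam / 2 * ∑ i, ‖E i (w s)‖ ^ 2 ≤ (2 * lam)⁻¹ * ∑ i, C1 i + (C0 + C2) / 2 := by
    norm_num at h5
    linarith
  have h9 : ∑ i, ‖E i (w s)‖ ^ 2 ≤ 2 / lam * ((2 * lam)⁻¹ * ∑ i, C1 i + (C0 + C2) / 2) := by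
    have := mul_le_mul_of_nonneg_left h8 (show 0 ≤ 2 / lam by positivity)
    rwa [← mul_assoc, show 2 / lam * (lam / 2) = 1 by field_simp, one_mul] at this
  exact add_le_add h6 h9

/-- the elliptic estimate for families of Galerkin solutions -/
theorem ell_est (hl : 0 < lam)
    (hal : ∀ (x : S3) (ξ : Fin 3 → ℝ), lam * ∑ i, ξ i ^ 2 ≤ ∑ i, ∑ j, al i j x * ξ i * ξ j)
    (N : σ → ℕ) (k : ℕ) : ∀ (w h0 : σ → R) (h : Fin 3 → σ → R), (∀ s, w s ∈ V (N s)) →
    (∀ s, Weak (V (N s)) (fun i => ∑ j, al i j * E j (w s) - h i s)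
      (∑ i, be i * E i (w s) + ga * w s - h0 s)) →
    Bd 0 w → Bd k h0 → (∀ i, Bd k (h i)) → Bd (k + 1) w := by
  induction k with
  | zero => exact fun w h0 h hw he => ell_zero hl hal N w h0 h hw he
  | succ k ih =>
    intro w h0 h hw he b0 b1 b2
    have b3 := ih w h0 h hw he b0 b1.pred fun i => (b2 i).pred
    refine b3.succ_F fun l => ?_
    refine ih (fun s => F l (w s))
      (fun s => F l (h0 s) - (∑ i, F l (be i) * E i (w s) + F l ga * w s))
      (fun i s => F l (h i s) - ∑ j, F l (al i j) * E j (w s)) (fun s => pre_FV l (hw s))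
      (fun s => ?_) ((b3.of_le (Nat.le_add_left 1 k)).F l)
      ((b1.F l).sub ((Bd.sum _ fun i => (b3.E i).mul _).add (b3.pred.mul _)))
      (fun i => ((b2 i).F l).sub (Bd.sum _ fun j => (b3.E j).mul _))
    convert (he s).F l using 1
    · funext i
      simp only [map_sub, map_sum, Derivation.leibniz, smul_eq_mul, pre_EF, Finset.sum_add_distrib,
        mul_comm (E _ (w s))]
      ring
    · simp only [map_sub, map_add, map_sum, Derivation.leibniz, smul_eq_mul, pre_EF,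
        Finset.sum_add_distrib, mul_comm (E _ (w s))]
      ring

end Pool.Agent.MP_48470b_gt.Sph
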