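import Pool.Agent.MP_48470b_gt.Sph.S5a

/-! A weight calculus for differential polynomials of a sequence. -/

noncomputable section

namespace Pool.Agent.MP_48470b_gt.Sph.S5

open Pool.Agent.MP_48470b_gt.Sph

/-- integration by parts -/
def Ibp : Prop := ∀ (i : Fin 3) (u : R), I (E i u) = 0

/-- the bracket relations -/
def Brk : Prop := ∀ i j : Fin 3, ∃ c : Fin 3 → ℝ, ∀ v : R,
  E i (E j v) - E j (E i v) = ∑ k, c k • E k v

/-- the supremum bound with a small constant in front of the second derivatives -/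
def SupEta : Prop := ∀ η : ℝ, 0 < η → ∃ C : ℝ, ∀ (z : R) (x : S3), |z x| ≤ η * √(P 2 z) + C * ‖z‖

/-- a class of bounded coefficient sequences attached to the sequence `u` -/
structure Cl (u : ℕ → R) (Pp : Set (ℕ → R)) : Prop where
  const : ∀ c : R, (fun _ => c) ∈ Pp
  bdd : ∀ f ∈ Pp, ∃ C, ∀ n x, |f n x| ≤ C
  diff : ∀ f ∈ Pp, ∀ c : Fin 3, ∃ p0 ∈ Pp, ∃ p : Fin 3 → Fin 3 → ℕ → R, (∀ a b, p a b ∈ Pp) ∧
    ∀ n, E c (f n) = p0 n + ∑ a, ∑ b, p a b n * E a (E b (u n))

/-- largest weight of a factor, total weight -/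
inductive G (u : ℕ → R) (Pp : Set (ℕ → R)) : ℕ → ℕ → (ℕ → R) → Prop
  | base {f} : f ∈ Pp → G u Pp 0 0 f
  | word (J : List (Fin 3)) : G u Pp (J.length - 1) (J.length - 1) (fun n => W J (u n))
  | add {m w f g} : G u Pp m w f → G u Pp m w g → G u Pp m w (f + g)
  | mul {m w w' f g} : G u Pp m w f → G u Pp m w' g → G u Pp m (w + w') (f * g)
  | mono {m w m' w' f} : m ≤ m' → w ≤ w' → G u Pp m w f → G u Pp m' w' f

variable {u : ℕ → R} {Pp : Set (ℕ → R)}

theorem G.of_eq {m w : ℕ} {f g : ℕ → R} (h : G u Pp m w f) (e : ∀ n, g n = f n) : G u Pp m w g := by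
  rwa [show g = f from funext e]

theorem G.const (h : Cl u Pp) (c : R) (m w : ℕ) : G u Pp m w (fun _ => c) :=
  (G.base (h.const c)).mono (Nat.zero_le _) (Nat.zero_le _)

theorem G.cmul (h : Cl u Pp) (c : R) {m w : ℕ} {f : ℕ → R} (hf : G u Pp m w f) :
    G u Pp m w (fun n => c * f n) :=
  ((G.const h c m 0).mul hf).mono le_rfl (by omega)

theorem G.sum (h : Cl u Pp) {ι : Type*} (s : Finset ι) {m w : ℕ} {f : ι → ℕ → R}
    (hf : ∀ i, G u Pp m w (f i)) : G u Pp m w (fun n => ∑ i ∈ s, f i n) := by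
  classical
  induction s using Finset.induction_on with
  | empty => exact (G.const h 0 m w).of_eq fun n => by simp
  | insert a s ha ih => exact ((hf a).add ih).of_eq fun n => by simp [Finset.sum_insert ha]

theorem G.word' (J : List (Fin 3)) {m w : ℕ} (hm : J.length ≤ m + 1) (hw : J.length ≤ w + 1) :
    G u Pp m w (fun n => W J (u n)) := (G.word J).mono (by omega) (by omega)

theorem G.der (h : Cl u Pp) (c : Fin 3) {m w : ℕ} {f : ℕ → R} (hf : G u Pp m w f) :
    G u Pp (m + 1) (w + 1) (fun n => E c (f n)) := by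
  induction hf with
  | base hf =>
    obtain ⟨p0, hp0, p, hp, e⟩ := h.diff _ hf c
    refine (((G.base hp0).mono (Nat.zero_le 1) (Nat.zero_le 1)).add
      (G.sum h Finset.univ fun a => G.sum h Finset.univ fun b =>
        (((G.base (hp a b)).mono (Nat.zero_le 1) le_rfl).mul
          (G.word' [a, b] (w := 1) le_rfl le_rfl)))).of_eq fun n => ?_
    rw [e n]; rfl
  | word J => exact G.word' (c :: J) (by simp; omega) (by simp; omega)
  | add _ _ i1 i2 => exact (i1.add i2).of_eq fun n => by simp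
  | @mul m w w' f g h1 h2 i1 i2 =>
    refine ((((h1.mono (Nat.le_succ m) le_rfl).mul i2).mono le_rfl (w' := w + w' + 1)
      (by omega)).add ((((h2.mono (Nat.le_succ m) le_rfl).mul i1).mono le_rfl
        (by omega)))).of_eq fun n => ?_
    simp
  | mono hm hw _ i => exact i.mono (by omega) (by omega)

theorem G.words (h : Cl u Pp) {f : ℕ → R} (hf : f ∈ Pp) (J : List (Fin 3)) :
    G u Pp J.length J.length (fun n => W J (f n)) := by
  induction J with
  | nil => exact G.base hf
  | cons c J ih => exact ih.der h c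

theorem G.leib (h : Cl u Pp) {b : ℕ → R} (hb : b ∈ Pp) (i j : Fin 3) (J : List (Fin 3)) :
    G u Pp J.length (J.length + 1)
      (fun n => W J (b n * E i (E j (u n))) - b n * W (J ++ [i, j]) (u n)) := by
  induction J with
  | nil => exact (G.const h 0 _ _).of_eq fun n => by simp [W]
  | cons c J ih =>
    refine ((ih.der h c).add (((((G.base hb).der h c).mono (m' := J.length + 1) (by omega)
      le_rfl).mul (G.word' (J ++ [i, j]) (w := J.length + 1) (by simp) (by simp))).mono le_rfl
        (by omega))).of_eq fun n => ?_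
    simp only [W, List.cons_append, Pi.add_apply, Pi.mul_apply, map_sub, Derivation.leibniz,
      smul_eq_mul]
    ring

theorem G.brk (h : Cl u Pp) (hB : Brk) (i j : Fin 3) (K : List (Fin 3)) :
    G u Pp K.length K.length (fun n => W (i :: j :: K) (u n) - W (j :: i :: K) (u n)) := by
  obtain ⟨c, hc⟩ := hB i j
  refine (G.sum h Finset.univ fun k => G.cmul h (algebraMap ℝ R (c k))
    (G.word' (k :: K) (by simp) (by simp))).of_eq fun n => ?_
  simp only [W, hc, Algebra.smul_def]

theorem G.comm (h : Cl u Pp) (hB : Brk) (i : Fin 3) (K J : List (Fin 3)) : ∀ j : Fin 3,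
    G u Pp (J.length + K.length) (J.length + K.length)
      (fun n => W (j :: J ++ i :: K) (u n) - W (i :: j :: J ++ K) (u n)) := by
  induction J with
  | nil => intro j; simpa using G.brk h hB j i K
  | cons c J ih =>
    intro j
    refine ((((ih c).der h j).mono (m' := (c :: J).length + K.length)
      (w' := (c :: J).length + K.length) (by simp only [List.length_cons]; omega)
      (by simp only [List.length_cons]; omega)).add
        ((G.brk h hB j i (c :: J ++ K)).mono (by simp only [List.length_append]; omega)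
          (by simp only [List.length_append]; omega))).of_eq fun n => ?_
    simp only [W, List.cons_append, Pi.add_apply, map_sub]
    ring

/-- the remainder of a differentiated equation -/
theorem G.rem (h : Cl u Pp) (hB : Brk) {b : Fin 3 → Fin 3 → ℕ → R} (hb : ∀ i j, b i j ∈ Pp)
    {c : ℕ → R} (hc : c ∈ Pp) (a : Fin 3) (J : List (Fin 3)) :
    G u Pp (J.length + 1) (J.length + 2) (fun n =>
      W (a :: J) (∑ i, ∑ j, b i j n * E i (E j (u n)) + c n) -
        ∑ i, ∑ j, b i j n * E i (E j (W (a :: J) (u n)))) := by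
  have h1 : ∀ i j, G u Pp (J.length + 1) (J.length + 2) (fun n =>
      W (a :: J) (b i j n * E i (E j (u n))) - b i j n * E i (E j (W (a :: J) (u n)))) := by
    intro i j
    have e1 := G.leib h (hb i j) i j (a :: J)
    have e2 := G.comm h hB i [j] J a
    have e3 := (G.comm h hB j [] J a).der h i
    refine (e1.add ((((G.base (hb i j)).mono (Nat.zero_le _) le_rfl).mul
      (e2.add e3)).mono le_rfl (by simp))).of_eq fun n => ?_
    simp only [W, List.cons_append, Pi.add_apply, Pi.mul_apply, map_sub, List.append_nil]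
    ring
  refine ((G.sum h Finset.univ fun i => G.sum h Finset.univ fun j => h1 i j).add
    ((G.words h hc (a :: J)).mono le_rfl (by simp))).of_eq fun n => ?_
  simp only [W_add, W_sum, Pi.add_apply, Finset.sum_sub_distrib]
  ring

theorem l4 (hI : Ibp) (i : Fin 3) {v : R} {C : ℝ} (h : ∀ x, |v x| ≤ C) :
    ‖E i v ^ 2‖ ≤ 3 * C * ‖E i (E i v)‖ := by
  have hC : 0 ≤ C := (abs_nonneg _).trans (h (pr 0))
  have e := hI i (v * E i v ^ 3)
  have e2 : E i (v * E i v ^ 3) = (E i v ^ 2) ^ 2 + (3 : ℝ) • (v * E i v ^ 2 * E i (E i v)) := by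
    simp only [Derivation.leibniz, Derivation.leibniz_pow, smul_eq_mul, Algebra.smul_def,
      map_ofNat]
    push_cast; ring
  rw [e2, map_add, map_smul, ← norm_sq, smul_eq_mul] at e
  have e3 := (abs_I_mul (v * E i v ^ 2) (E i (E i v))).trans
    (mul_le_mul_of_nonneg_right (norm_mul_le_sup h) (norm_nonneg _))
  have e4 := (abs_le.1 e3).1
  rcases (norm_nonneg (E i v ^ 2)).eq_or_lt with h0 | h0
  · rw [← h0]; positivity
  · refine le_of_mul_le_mul_left ?_ h0
    nlinarith

theorem word_s2 {k : ℕ} {M : ℝ} (hk : ∀ n, P k (u n) ≤ M) {J : List (Fin 3)} (hJ : J.length ≤ k) :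
    S2 (fun n => W J (u n)) :=
  ⟨√M, fun n => (W_le hJ _).trans (Real.sqrt_le_sqrt (hk n))⟩

theorem word_sup (hS : SupEta) {k l : ℕ} {M : ℝ} (hk : ∀ n, P k (u n) ≤ M) {J : List (Fin 3)}
    (hJ : J.length ≤ k) (hl : J.length + 2 ≤ l) (η : ℝ) (hη : 0 < η) :
    ∃ C, ∀ n x, |W J (u n) x| ≤ η * √(P l (u n)) + C := by
  obtain ⟨C, hC⟩ := hS η hη
  obtain ⟨D, hD⟩ := word_s2 hk hJ
  refine ⟨|C| * D, fun n x => (hC _ x).trans (add_le_add ?_ ?_)⟩
  · exact mul_le_mul_of_nonneg_left (Real.sqrt_le_sqrt ((P_W_le J 2 _).trans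
      (P_mono (by omega) _))) hη.le
  · exact mul_le_mul (le_abs_self C) (hD n) (norm_nonneg _) (abs_nonneg C)

theorem word_s0 (hS : SupEta) {k : ℕ} {M : ℝ} (hk : ∀ n, P k (u n) ≤ M) {J : List (Fin 3)}
    (hJ : J.length + 2 ≤ k) : S0 (fun n => W J (u n)) := by
  obtain ⟨C, hC⟩ := word_sup hS hk (J := J) (by omega) hJ 1 one_pos
  refine ⟨√M + C, fun n x => (hC n x).trans ?_⟩
  linarith [Real.sqrt_le_sqrt (hk n)]

theorem G.toT (h : Cl u Pp) (hI : Ibp) (hS : SupEta) {l : ℕ} {M : ℝ}
    (hk : ∀ n, P (l + 3) (u n) ≤ M) {m w : ℕ} {f : ℕ → R} (hf : G u Pp m w f) :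
    m ≤ l + 2 → w ≤ l + 3 → T (fun n => √(P (l + 4) (u n))) (w - l) f := by
  have hY : ∀ n, 0 ≤ √(P (l + 4) (u n)) := fun n => Real.sqrt_nonneg _
  induction hf with
  | base hf => intro _ _; exact T.mono hY (Nat.zero_le _) (h.bdd _ hf)
  | word J =>
    intro hm _
    rcases (show J.length ≤ l + 1 ∨ J.length = l + 2 ∨ J.length = l + 3 by omega) with e | e | e
    · exact T.mono hY (Nat.zero_le _) (word_s0 hS hk (by omega))
    · refine T.mono hY (s := 1) (by omega) ⟨?_, word_sup hS hk (by omega) (by omega)⟩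
      obtain _ | ⟨i, K⟩ := J
      · simp at e
      · simp only [List.length_cons] at e
        obtain ⟨C, hC0, hC⟩ := (word_s0 hS hk (J := K) (by omega)).pos
        obtain ⟨D, hD⟩ := word_s2 hk (J := i :: i :: K) (by simp; omega)
        exact ⟨3 * C * D, fun n => (l4 hI i (hC n)).trans
          (mul_le_mul_of_nonneg_left (hD n) (by positivity))⟩
    · exact T.mono hY (s := 2) (by omega) (word_s2 hk e.le)
  | add _ _ i1 i2 => intro a b; exact (i1 a b).add (i2 a b)
  | mul _ _ i1 i2 =>
    intro a b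
    exact T.mono hY (by omega) (T.mul (by omega) (i1 a (by omega)) (i2 a (by omega)))
  | mono hm hw _ i => intro a b; exact T.mono hY (by omega) (i (by omega) (by omega))

/-- the remainder is small relative to the next norm -/
theorem rem_small (h : Cl u Pp) (hI : Ibp) (hB : Brk) (hS : SupEta) {l : ℕ} {M : ℝ}
    (hk : ∀ n, P (l + 3) (u n) ≤ M) {b : Fin 3 → Fin 3 → ℕ → R} (hb : ∀ i j, b i j ∈ Pp)
    {c : ℕ → R} (hc : c ∈ Pp) {J : List (Fin 3)} (hJ : J.length = l + 2) :
    S3' (fun n => √(P (l + 4) (u n))) (fun n =>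
      W J (∑ i, ∑ j, b i j n * E i (E j (u n)) + c n) -
        ∑ i, ∑ j, b i j n * E i (E j (W J (u n)))) := by
  obtain _ | ⟨a, K⟩ := J
  · simp at hJ
  · simp only [List.length_cons] at hJ
    have := (G.rem h hB hb hc a K).toT h hI hS hk (by omega) (by omega)
    rwa [show K.length + 2 - l = 3 by omega] at this

end Pool.Agent.MP_48470b_gt.Sph.S5
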