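import Pool.Agent.MP_48470b_gt.Sph.S5b

/-! The second order elliptic estimate with leading constant one. -/

noncomputable section

namespace Pool.Agent.MP_48470b_gt.Sph.S5

open Pool.Agent.MP_48470b_gt.Sph

/-- error terms: first order times second order -/
def Err (φ : R → ℝ) : Prop := ∃ C, 0 ≤ C ∧ ∀ v, |φ v| ≤ C * (√(P 1 v) * √(P 2 v))

theorem Err.of_eq {φ ψ : R → ℝ} (h : Err φ) (e : ∀ v, ψ v = φ v) : Err ψ := by
  rwa [show ψ = φ from funext e]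

theorem Err.add {φ ψ : R → ℝ} (h : Err φ) (k : Err ψ) : Err (fun v => φ v + ψ v) := by
  obtain ⟨C, h0, hC⟩ := h
  obtain ⟨D, k0, hD⟩ := k
  refine ⟨C + D, by positivity, fun v => (abs_add_le _ _).trans ?_⟩
  linarith [hC v, hD v]

theorem Err.sum {ι : Type*} (s : Finset ι) {φ : ι → R → ℝ} (h : ∀ i, Err (φ i)) :
    Err (fun v => ∑ i ∈ s, φ i v) := by
  classical
  induction s using Finset.induction_on with
  | empty => exact ⟨0, le_rfl, fun v => by simp⟩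
  | insert a s ha ih => exact ((h a).add ih).of_eq fun v => by simp [Finset.sum_insert ha]

theorem Err.basic (c : R) (i k l : Fin 3) : Err (fun v => I (c * E i v * E k (E l v))) := by
  obtain ⟨C, h0, hC⟩ := bdd c
  refine ⟨C, h0, fun v => (abs_I_mul _ _).trans ?_⟩
  rw [← mul_assoc]
  refine mul_le_mul ((norm_mul_le_sup hC).trans (mul_le_mul_of_nonneg_left ?_ h0)) ?_
    (norm_nonneg _) (by positivity)
  · exact W_le (J := [i]) le_rfl v
  · exact W_le (J := [k, l]) le_rfl v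

theorem Err.swap (hI : Ibp) (hB : Brk) (c : R) (i j k l : Fin 3) : Err (fun v =>
    I (c * E i (E j v) * E k (E l v)) - I (c * E j (E k v) * E i (E l v))) := by
  obtain ⟨p, hp⟩ := hB i k
  obtain ⟨q, hq⟩ := hB k j
  refine ((((Err.basic (E k c) j i l).add (Err.basic (-E i c) j k l)).add
    (Err.sum Finset.univ fun m => Err.basic (-(p m • c)) j m l)).add
    (Err.sum Finset.univ fun m => Err.basic (q m • c) m i l)).of_eq fun v => ?_
  have e1 := hI i (c * E j v * E k (E l v))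
  have e2 := hI k (c * E j v * E i (E l v))
  have e3 : E i (E k (E l v)) = E k (E i (E l v)) + ∑ m, p m • E m (E l v) := by
    rw [← hp]; ring
  have e4 : E j (E k v) = E k (E j v) - ∑ m, q m • E m v := by rw [← hq]; ring
  rw [← map_sub, ← map_sum, ← map_sum, ← map_add, ← map_add, ← map_add, ← sub_eq_zero, ← map_sub]
  have : I (E i (c * E j v * E k (E l v)) - E k (c * E j v * E i (E l v))) = 0 := by
    rw [map_sub, e1, e2, sub_zero]
  rw [← this]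
  congr 1
  simp only [Derivation.leibniz, smul_eq_mul, e3, e4, Fin.sum_univ_three, Algebra.smul_def]
  ring

/-- the quadratic form of the second derivatives -/
def Nq (A : Fin 3 → Fin 3 → R) (v : R) : R :=
  ∑ a, ∑ b, ∑ c, ∑ d, A a c * A b d * E a (E b v) * E c (E d v)

theorem ell (hI : Ibp) (hB : Brk) {A : Fin 3 → Fin 3 → R} (hA : ∀ i j, A i j = A j i) :
    ∃ C, 0 ≤ C ∧ ∀ v, I (Nq A v) ≤
      ‖∑ i, ∑ j, A i j * E i (E j v)‖ ^ 2 + C * (√(P 1 v) * √(P 2 v)) := by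
  obtain ⟨C, h0, hC⟩ := Err.sum Finset.univ fun i => Err.sum Finset.univ fun j =>
    Err.sum Finset.univ fun k => Err.sum Finset.univ fun l =>
      Err.swap hI hB (A i j * A k l) i j k l
  refine ⟨C, h0, fun v => ?_⟩
  have h := (abs_le.1 (hC v)).1
  have e1 : (∑ i, ∑ j, A i j * E i (E j v)) ^ 2 =
      ∑ i, ∑ j, ∑ k, ∑ l, A i j * A k l * E i (E j v) * E k (E l v) := by
    simp only [Fin.sum_univ_three]; ring
  have e2 : Nq A v = ∑ i, ∑ j, ∑ k, ∑ l, A i j * A k l * E j (E k v) * E i (E l v) := by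
    simp only [Nq, Fin.sum_univ_three, hA 1 0, hA 2 0, hA 2 1]; ring
  rw [norm_sq, e1, e2]
  simp only [map_sum, Finset.sum_sub_distrib] at h ⊢
  linarith

theorem kron_pos {a : Fin 3 → Fin 3 → ℝ} (hs : ∀ i j, a i j = a j i)
    (hp : ∀ ξ : Fin 3 → ℝ, ξ ≠ 0 → 0 < ∑ i, ∑ j, a i j * ξ i * ξ j) {ξ : Fin 3 → Fin 3 → ℝ}
    (h : ξ ≠ 0) : 0 < ∑ i, ∑ j, ∑ k, ∑ l, a i k * a j l * ξ i j * ξ k l := by
  have h1 : (Matrix.of a).PosDef := by
    refine Matrix.PosDef.of_dotProduct_mulVec_pos ?_ fun ξ hξ => ?_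
    · ext i j; simp [hs i j]
    · refine (hp ξ hξ).trans_eq ?_
      simp only [dotProduct, Matrix.mulVec, Fin.sum_univ_three, Matrix.of_apply, Pi.star_apply,
        star_trivial]
      ring
  have h2 := (h1.kronecker h1).dotProduct_mulVec_pos (x := fun p => ξ p.1 p.2) (fun e => h (by
    ext i j; exact congrFun e (i, j)))
  refine h2.trans_eq ?_
  simp only [dotProduct, Matrix.mulVec, Fintype.sum_prod_type, Matrix.kroneckerMap_apply,
    Matrix.of_apply, Pi.star_apply, star_trivial, Finset.mul_sum]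
  refine Finset.sum_congr rfl fun i _ => Finset.sum_congr rfl fun j _ =>
    Finset.sum_congr rfl fun k _ => Finset.sum_congr rfl fun l _ => by ring

theorem kron_low {A : Fin 3 → Fin 3 → R} (hA : ∀ i j, A i j = A j i)
    (hp : ∀ (x : S3) (ξ : Fin 3 → ℝ), ξ ≠ 0 → 0 < ∑ i, ∑ j, A i j x * ξ i * ξ j) :
    ∃ m, 0 < m ∧ ∀ (x : S3) (ξ : Fin 3 → Fin 3 → ℝ) (a b : Fin 3),
      m * ξ a b ^ 2 ≤ ∑ i, ∑ j, ∑ k, ∑ l, A i k x * A j l x * ξ i j * ξ k l := by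
  let Φ : S3 × (Fin 3 → Fin 3 → ℝ) → ℝ := fun p =>
    ∑ i, ∑ j, ∑ k, ∑ l, A i k p.1 * A j l p.1 * p.2 i j * p.2 k l
  have hc : ∀ i j, Continuous (A i j : S3 → ℝ) := fun i j => (A i j).continuous
  have hΦ : Continuous Φ := by fun_prop
  have hK : IsCompact ((Set.univ : Set S3) ×ˢ Metric.sphere (0 : Fin 3 → Fin 3 → ℝ) 1) :=
    isCompact_univ.prod (isCompact_sphere _ _)
  obtain ⟨p, hpK, hmin⟩ := hK.exists_isMinOn
    (Set.Nonempty.prod ⟨pr 0, trivial⟩ (NormedSpace.sphere_nonempty.2 zero_le_one))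
    hΦ.continuousOn
  have hp2 : p.2 ≠ 0 := fun e => by simpa [e] using hpK.2
  refine ⟨Φ p, kron_pos (fun i j => by rw [hA]) (hp p.1) hp2, fun x ξ a b => ?_⟩
  have h0 : 0 < Φ p := kron_pos (fun i j => by rw [hA]) (hp p.1) hp2
  by_cases hξ : ξ = 0
  · simp [hξ]
  have hn : 0 < ‖ξ‖ := norm_pos_iff.2 hξ
  have h1 : Φ p ≤ Φ (x, ‖ξ‖⁻¹ • ξ) := hmin ⟨trivial, by simp [norm_smul, hn.ne']⟩
  have h2 : ∑ i, ∑ j, ∑ k, ∑ l, A i k x * A j l x * ξ i j * ξ k l =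
      Φ (x, ‖ξ‖⁻¹ • ξ) * ‖ξ‖ ^ 2 := by
    simp only [Φ, Finset.sum_mul, Pi.smul_apply, smul_eq_mul]
    refine Finset.sum_congr rfl fun i _ => Finset.sum_congr rfl fun j _ =>
      Finset.sum_congr rfl fun k _ => Finset.sum_congr rfl fun l _ => by field_simp
  have h3 : |ξ a b| ≤ ‖ξ‖ := (norm_le_pi_norm (ξ a) b).trans (norm_le_pi_norm ξ a)
  rw [h2]
  exact mul_le_mul h1 (sq_le_sq' (abs_le.1 h3).1 (abs_le.1 h3).2) (sq_nonneg _) (h0.le.trans h1)

theorem Nq_apply (A : Fin 3 → Fin 3 → R) (v : R) (x : S3) : Nq A v x =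
    ∑ i, ∑ j, ∑ k, ∑ l, A i k x * A j l x * E i (E j v) x * E k (E l v) x := by
  simp [Nq]

theorem Nq_low {A : Fin 3 → Fin 3 → R} (hA : ∀ i j, A i j = A j i)
    (hp : ∀ (x : S3) (ξ : Fin 3 → ℝ), ξ ≠ 0 → 0 < ∑ i, ∑ j, A i j x * ξ i * ξ j) :
    ∃ K, 0 < K ∧ ∀ (v : R) (a b : Fin 3), ‖E a (E b v)‖ ≤ K * √(I (Nq A v)) := by
  obtain ⟨m, hm, h⟩ := kron_low hA hp
  refine ⟨√m⁻¹, by positivity, fun v a b => ?_⟩
  rw [← Real.sqrt_mul (by positivity)]
  refine Real.le_sqrt_of_sq_le ?_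
  rw [le_inv_mul_iff₀ hm, norm_sq, ← smul_eq_mul, ← map_smul]
  refine I_mono fun x => ?_
  rw [Nq_apply]
  simpa using h x (fun i j => E i (E j v) x) a b

theorem Nq_up {A b : Fin 3 → Fin 3 → R} {θ : ℝ} (hθ : 0 ≤ θ)
    (h : ∀ (x : S3) (ξ : Fin 3 → Fin 3 → ℝ), (∑ i, ∑ j, b i j x * ξ i j) ^ 2 ≤
      θ ^ 2 * ∑ i, ∑ j, ∑ k, ∑ l, A i k x * A j l x * ξ i j * ξ k l) (v : R) :
    ‖∑ i, ∑ j, b i j * E i (E j v)‖ ≤ θ * √(I (Nq A v)) := by
  rw [← Real.sqrt_sq hθ, ← Real.sqrt_mul (by positivity)]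
  refine Real.le_sqrt_of_sq_le ?_
  rw [norm_sq, ← smul_eq_mul, ← map_smul]
  refine I_mono fun x => ?_
  rw [R.smul_apply, Nq_apply]
  simpa using h x (fun i j => E i (E j v) x)

end Pool.Agent.MP_48470b_gt.Sph.S5
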